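import Mathlib

/-!
Duhamel formula for a scalar linear equation with an integrable coefficient.
-/

set_option linter.unusedSectionVars false

open MeasureTheory Set Filter Topology Metric
open scoped NNReal ENNReal

namespace H772R2.NSV

/-- Lipschitz functions preserve absolute continuity. -/
theorem ac_comp {f φ : ℝ → ℝ} {a b L : ℝ} (hf : AbsolutelyContinuousOnInterval f a b)
    (h : ∀ x ∈ uIcc a b, ∀ y ∈ uIcc a b, |φ (f x) - φ (f y)| ≤ L * |f x - f y|) :
    AbsolutelyContinuousOnInterval (fun x => φ (f x)) a b := by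
  unfold AbsolutelyContinuousOnInterval at hf ⊢
  have h1 := hf.const_mul L
  rw [mul_zero] at h1
  refine squeeze_zero' ?_ ?_ h1
  · exact Filter.Eventually.of_forall <| fun _ ↦ Finset.sum_nonneg (fun i hi ↦ dist_nonneg)
  · rw [eventually_inf_principal]
    filter_upwards with (n, I) hnI
    simp only [AbsolutelyContinuousOnInterval.disjWithin, mem_ofPred_eq] at hnI
    rw [Finset.mul_sum]
    refine Finset.sum_le_sum fun i hi => ?_
    rw [Real.dist_eq, Real.dist_eq]
    exact h _ (hnI.1 i hi).1 _ (hnI.1 i hi).2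

theorem exp_lip {x y R : ℝ} (hx : x ≤ R) (hy : y ≤ R) :
    |Real.exp x - Real.exp y| ≤ Real.exp R * |x - y| := by
  wlog hxy : x ≤ y generalizing x y
  · rw [abs_sub_comm, abs_sub_comm x y]
    exact this hy hx (le_of_lt (not_le.mp hxy))
  have hxe : Real.exp x ≤ Real.exp y := Real.exp_le_exp.mpr hxy
  rw [abs_sub_comm, abs_sub_comm x y, abs_of_nonneg (sub_nonneg.mpr hxe),
    abs_of_nonneg (sub_nonneg.mpr hxy)]
  have h1 : 1 - (y - x) ≤ Real.exp (-(y - x)) := by
    have := Real.add_one_le_exp (-(y - x)); linarith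
  have h2 : Real.exp x = Real.exp y * Real.exp (-(y - x)) := by
    rw [← Real.exp_add]; congr 1; ring
  have h3 := Real.exp_pos y
  calc Real.exp y - Real.exp x = Real.exp y * (1 - Real.exp (-(y - x))) := by rw [h2]; ring
    _ ≤ Real.exp y * (y - x) := mul_le_mul_of_nonneg_left (by linarith) h3.le
    _ ≤ Real.exp R * (y - x) := by
        have : 0 ≤ y - x := by linarith
        gcongr

theorem ii_of_on {f : ℝ → ℝ} {T a b : ℝ} (hf : IntegrableOn f (Ioc 0 T)) (ha : 0 ≤ a)
    (hab : a ≤ b) (hb : b ≤ T) : IntervalIntegrable f volume a b := by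
  rw [intervalIntegrable_iff_integrableOn_Ioc_of_le hab]
  exact hf.mono_set (Ioc_subset_Ioc ha hb)

theorem duhamel {T l : ℝ} {n G a : ℝ → ℝ} (hn : IntegrableOn n (Ioc 0 T))
    (hG : IntegrableOn G (Ioc 0 T)) (hac : ContinuousOn a (Icc 0 T))
    (he : ∀ t ∈ Icc 0 T, a t = a 0 + ∫ s in (0 : ℝ)..t, (G s - n s * (l * a s)))
    {t : ℝ} (ht : t ∈ Icc 0 T) :
    a t = Real.exp (-(l * ∫ r in (0 : ℝ)..t, n r)) * a 0
      + ∫ s in (0 : ℝ)..t, Real.exp (-(l * ∫ r in s..t, n r)) * G s := by
  have hu : uIcc 0 t = Icc 0 t := uIcc_of_le ht.1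
  have hnt : IntervalIntegrable n volume 0 t := ii_of_on hn le_rfl ht.1 ht.2
  have hGt : IntervalIntegrable G volume 0 t := ii_of_on hG le_rfl ht.1 ht.2
  have hna : IntervalIntegrable (fun s => n s * (l * a s)) volume 0 t := by
    refine hnt.mul_continuousOn ?_
    rw [hu]
    exact (hac.mono (Icc_subset_Icc_right ht.2)).const_smul l
  have hD : IntervalIntegrable (fun s => G s - n s * (l * a s)) volume 0 t := hGt.sub hna
  have h0 : (0 : ℝ) ∈ uIcc 0 t := by rw [hu]; exact ⟨le_rfl, ht.1⟩
  set N : ℝ → ℝ := fun r => ∫ s in (0 : ℝ)..r, n s with hN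
  set A : ℝ → ℝ := fun r => a 0 + ∫ s in (0 : ℝ)..r, (G s - n s * (l * a s)) with hA
  have hNac : AbsolutelyContinuousOnInterval N 0 t :=
    hnt.absolutelyContinuousOnInterval_intervalIntegral h0
  have hcon : AbsolutelyContinuousOnInterval (fun _ : ℝ => a 0) 0 t :=
    (LipschitzWith.const (a 0)).lipschitzOnWith.absolutelyContinuousOnInterval
  have hAac : AbsolutelyContinuousOnInterval A 0 t :=
    hcon.fun_add (hD.absolutelyContinuousOnInterval_intervalIntegral h0)
  have hlN : AbsolutelyContinuousOnInterval (fun r => l * N r) 0 t := hNac.const_mul l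
  obtain ⟨R, hR⟩ := hlN.exists_bound
  have hEac : AbsolutelyContinuousOnInterval (fun r => Real.exp (l * N r)) 0 t :=
    ac_comp (φ := Real.exp) (L := Real.exp R) hlN (fun x hx y hy =>
      exp_lip ((le_abs_self _).trans (hR x hx)) ((le_abs_self _).trans (hR y hy)))
  have hP := (hEac.fun_mul hAac).integral_deriv_eq_sub
  have hAa : ∀ r ∈ Icc 0 t, A r = a r := fun r hr => (he r ⟨hr.1, hr.2.trans ht.2⟩).symm
  have hder : ∫ x in (0 : ℝ)..t, deriv (fun r => Real.exp (l * N r) * A r) x
      = ∫ x in (0 : ℝ)..t, Real.exp (l * N x) * G x := by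
    refine intervalIntegral.integral_congr_ae ?_
    filter_upwards [hnt.ae_hasDerivAt_integral, hD.ae_hasDerivAt_integral] with x h1 h2 hx
    have hx' : x ∈ uIcc 0 t := uIoc_subset_uIcc hx
    have d1 : HasDerivAt N (n x) x := h1 hx' 0 h0
    have d2 : HasDerivAt A (G x - n x * (l * a x)) x := (h2 hx' 0 h0).const_add _
    have d3 : HasDerivAt (fun r => Real.exp (l * N r)) (Real.exp (l * N x) * (l * n x)) x :=
      (d1.const_mul l).exp
    have d4 := d3.mul d2
    have e : Real.exp (l * N x) * (l * n x) * A x + Real.exp (l * N x) * (G x - n x * (l * a x))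
        = Real.exp (l * N x) * G x := by
      rw [hAa x (hu ▸ hx')]; ring
    rw [e] at d4
    exact d4.deriv
  rw [hder] at hP
  have hN0 : N 0 = 0 := by simp [hN]
  have hA0 : A 0 = a 0 := by simp [hA]
  have hAt : A t = a t := hAa t ⟨ht.1, le_rfl⟩
  simp only [hN0, hA0, hAt, mul_zero, Real.exp_zero, one_mul] at hP
  have hE : Real.exp (-(l * N t)) * Real.exp (l * N t) = 1 := by
    rw [← Real.exp_add]; simp
  have h1 : ∫ s in (0 : ℝ)..t, Real.exp (-(l * ∫ r in s..t, n r)) * G s
      = Real.exp (-(l * N t)) * ∫ x in (0 : ℝ)..t, Real.exp (l * N x) * G x := by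
    rw [← intervalIntegral.integral_const_mul]
    refine intervalIntegral.integral_congr fun s hs => ?_
    rw [hu] at hs
    have e1 : ∫ r in s..t, n r = N t - N s := by
      have := intervalIntegral.integral_add_adjacent_intervals
        (ii_of_on hn le_rfl hs.1 (hs.2.trans ht.2)) (ii_of_on hn hs.1 hs.2 ht.2)
      simp only [hN]; linarith
    show Real.exp (-(l * ∫ r in s..t, n r)) * G s
      = Real.exp (-(l * N t)) * (Real.exp (l * N s) * G s)
    rw [e1, ← mul_assoc, ← Real.exp_add]
    congr 2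
    ring
  rw [h1, hP]
  show a t = Real.exp (-(l * N t)) * a 0 + _
  have : Real.exp (-(l * N t)) * (Real.exp (l * N t) * a t - a 0)
      = (Real.exp (-(l * N t)) * Real.exp (l * N t)) * a t - Real.exp (-(l * N t)) * a 0 := by ring
  rw [this, hE]; ring

end H772R2.NSV
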