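import Mathlib

/-!
Singular kernels and the singular Gronwall inequality.
-/

set_option linter.unusedSectionVars false

open MeasureTheory Set Filter Topology Metric
open scoped NNReal ENNReal

namespace H772R2.NSV

theorem ker_ii {r : ℝ} (hr : -1 < r) (a b t : ℝ) :
    IntervalIntegrable (fun s => (t - s) ^ r) volume a b := by
  have h := intervalIntegral.intervalIntegrable_rpow' (a := t - a) (b := t - b) hr
  exact h.comp_sub_left t |>.mono_set (by simp)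

theorem ker_int {r : ℝ} (hr : -1 < r) {t : ℝ} :
    ∫ s in (0 : ℝ)..t, (t - s) ^ r = t ^ (r + 1) / (r + 1) := by
  rw [intervalIntegral.integral_comp_sub_left (fun x => x ^ r) t, sub_self, sub_zero,
    integral_rpow (Or.inl hr), Real.zero_rpow (by linarith), sub_zero]

theorem rpow_le_exp {x : ℝ} (hx : 0 ≤ x) : x ^ (1 / 8 : ℝ) ≤ Real.exp x := by
  have h1 : x ^ (1 / 8 : ℝ) ≤ 1 + x := by
    rcases le_total x 1 with h | h
    · have := Real.rpow_le_one hx h (by norm_num : (0 : ℝ) ≤ 1 / 8)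
      linarith
    · have := Real.rpow_le_rpow_of_exponent_le h (by norm_num : (1 / 8 : ℝ) ≤ 1)
      rw [Real.rpow_one] at this
      linarith
  have := Real.add_one_le_exp x
  linarith

theorem min_le_rpow {x : ℝ} (hx : 0 ≤ x) : min 1 x ≤ x ^ (1 / 8 : ℝ) := by
  rcases le_total x 1 with h | h
  · rw [min_eq_right h]
    rcases hx.eq_or_lt with h0 | h0
    · rw [← h0]; positivity
    · have := Real.rpow_le_rpow_of_exponent_ge h0 h (by norm_num : (1 / 8 : ℝ) ≤ 1)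
      rwa [Real.rpow_one] at this
  · rw [min_eq_left h]
    exact Real.one_le_rpow h (by norm_num)

theorem ker_exp {β τ : ℝ} (hβ : 0 < β) (hτ : 0 < τ) :
    τ ^ (-(3 / 4) : ℝ) * Real.exp (-(β * τ)) ≤ (β ^ (1 / 8 : ℝ))⁻¹ * τ ^ (-(7 / 8) : ℝ) := by
  have h1 := rpow_le_exp (x := β * τ) (by positivity)
  rw [Real.mul_rpow hβ.le hτ.le] at h1
  have e : τ ^ (-(3 / 4) : ℝ) = τ ^ (1 / 8 : ℝ) * τ ^ (-(7 / 8) : ℝ) := by
    rw [← Real.rpow_add hτ]; norm_num
  have hb : 0 < β ^ (1 / 8 : ℝ) := by positivity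
  have h2 : τ ^ (1 / 8 : ℝ) * Real.exp (-(β * τ)) ≤ (β ^ (1 / 8 : ℝ))⁻¹ := by
    rw [Real.exp_neg, ← div_eq_mul_inv, div_le_iff₀ (Real.exp_pos _), inv_mul_eq_div,
      le_div_iff₀ hb]
    linarith
  have h3 : 0 ≤ τ ^ (-(7 / 8) : ℝ) := by positivity
  rw [e]
  calc τ ^ (1 / 8 : ℝ) * τ ^ (-(7 / 8) : ℝ) * Real.exp (-(β * τ))
      = (τ ^ (1 / 8 : ℝ) * Real.exp (-(β * τ))) * τ ^ (-(7 / 8) : ℝ) := by ring
    _ ≤ _ := mul_le_mul_of_nonneg_right h2 h3

/-- the constant of the singular Gronwall inequality. -/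
noncomputable def sgc (T A : ℝ) : ℝ := 2 * Real.exp ((T * (16 * A) ^ 8 + 1) * T)

theorem sgc_pos (T A : ℝ) : 0 < sgc T A := by unfold sgc; positivity

theorem sing_gronwall {T A ε : ℝ} (hT : 0 ≤ T) (hA : 0 ≤ A) (hε : 0 ≤ ε) {y : ℝ → ℝ}
    (hy : ContinuousOn y (Icc 0 T)) (h0 : ∀ t ∈ Icc 0 T, 0 ≤ y t)
    (h : ∀ t ∈ Icc 0 T, y t ≤ ε + A * ∫ s in (0 : ℝ)..t, (t - s) ^ (-(3 / 4) : ℝ) * y s) :
    ∀ t ∈ Icc 0 T, y t ≤ sgc T A * ε := by
  set β : ℝ := T * (16 * A) ^ 8 + 1 with hβ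
  have hβ0 : 0 < β := by positivity
  have hq : 8 * A * T ^ (1 / 8 : ℝ) * (β ^ (1 / 8 : ℝ))⁻¹ ≤ 1 / 2 := by
    have hb : 0 < β ^ (1 / 8 : ℝ) := by positivity
    rw [← div_eq_mul_inv, div_le_iff₀ hb]
    have h1 : (T * (16 * A) ^ 8) ^ (1 / 8 : ℝ) ≤ β ^ (1 / 8 : ℝ) := by
      apply Real.rpow_le_rpow (by positivity) (by linarith) (by norm_num)
    have h2 : (T * (16 * A) ^ 8) ^ (1 / 8 : ℝ) = T ^ (1 / 8 : ℝ) * (16 * A) := by
      rw [Real.mul_rpow hT (by positivity)]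
      congr 1
      have : ((16 * A) ^ 8 : ℝ) = (16 * A) ^ ((8 : ℕ) : ℝ) := (Real.rpow_natCast _ _).symm
      rw [this, ← Real.rpow_mul (by positivity)]
      norm_num
    rw [h2] at h1
    linarith
  have hne : (Icc (0 : ℝ) T).Nonempty := ⟨0, le_rfl, hT⟩
  have hwc : ContinuousOn (fun t => Real.exp (-(β * t)) * y t) (Icc 0 T) :=
    (by fun_prop : Continuous fun t : ℝ => Real.exp (-(β * t))).continuousOn.mul hy
  obtain ⟨t0, ht0, hmax⟩ := isCompact_Icc.exists_isMaxOn hne hwc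
  set M : ℝ := Real.exp (-(β * t0)) * y t0 with hM
  have hM0 : 0 ≤ M := mul_nonneg (Real.exp_pos _).le (h0 t0 ht0)
  have hle : ∀ t ∈ Icc 0 T, Real.exp (-(β * t)) * y t ≤ M := fun t ht => hmax ht
  -- estimate at the maximum
  have h1 := h t0 ht0
  have hsub : Icc 0 t0 ⊆ Icc 0 T := Icc_subset_Icc_right ht0.2
  have hI : ∫ s in (0 : ℝ)..t0, (t0 - s) ^ (-(3 / 4) : ℝ) * y s
      ≤ Real.exp (β * t0) * (M * ((β ^ (1 / 8 : ℝ))⁻¹ * (8 * t0 ^ (1 / 8 : ℝ)))) := by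
    have e1 : ∫ s in (0 : ℝ)..t0, Real.exp (β * t0) * (M * ((β ^ (1 / 8 : ℝ))⁻¹
        * (t0 - s) ^ (-(7 / 8) : ℝ))) = Real.exp (β * t0) * (M * ((β ^ (1 / 8 : ℝ))⁻¹
          * (8 * t0 ^ (1 / 8 : ℝ)))) := by
      rw [intervalIntegral.integral_const_mul, intervalIntegral.integral_const_mul,
        intervalIntegral.integral_const_mul, ker_int (by norm_num)]
      have e0 : t0 ^ (-(7 / 8) + 1 : ℝ) / (-(7 / 8) + 1 : ℝ) = 8 * t0 ^ (1 / 8 : ℝ) := by
        norm_num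
        ring
      rw [e0]
    rw [← e1]
    refine intervalIntegral.integral_mono_on_of_le_Ioo ht0.1 ?_ ?_ ?_
    · refine (ker_ii (by norm_num) 0 t0 t0).mul_continuousOn ?_
      rw [uIcc_of_le ht0.1]
      exact hy.mono hsub
    · exact (((ker_ii (by norm_num) 0 t0 t0).const_mul _).const_mul _).const_mul _
    · intro s hs
      have hs' : s ∈ Icc 0 T := hsub ⟨hs.1.le, hs.2.le⟩
      have hτ : 0 < t0 - s := by linarith [hs.2]
      have k1 := ker_exp hβ0 hτ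
      have k2 := hle s hs'
      have k3 : y s ≤ Real.exp (β * s) * M := by
        have : y s = Real.exp (β * s) * (Real.exp (-(β * s)) * y s) := by
          rw [← mul_assoc, ← Real.exp_add]; simp
        rw [this]
        exact mul_le_mul_of_nonneg_left k2 (Real.exp_pos _).le
      have hk : 0 ≤ (t0 - s) ^ (-(3 / 4) : ℝ) := by positivity
      calc (t0 - s) ^ (-(3 / 4) : ℝ) * y s ≤ (t0 - s) ^ (-(3 / 4) : ℝ) * (Real.exp (β * s) * M) :=
            mul_le_mul_of_nonneg_left k3 hk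
        _ = Real.exp (β * t0) * (M * ((t0 - s) ^ (-(3 / 4) : ℝ)
            * Real.exp (-(β * (t0 - s))))) := by
            have : Real.exp (β * s) = Real.exp (β * t0) * Real.exp (-(β * (t0 - s))) := by
              rw [← Real.exp_add]; congr 1; ring
            rw [this]; ring
        _ ≤ _ := by
            refine mul_le_mul_of_nonneg_left ?_ (Real.exp_pos _).le
            exact mul_le_mul_of_nonneg_left k1 hM0
  have h2 : M ≤ ε + M / 2 := by
    have hE := Real.exp_pos (-(β * t0))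
    have hE1 : Real.exp (-(β * t0)) ≤ 1 := Real.exp_le_one_iff.mpr (by
      have := ht0.1; nlinarith [mul_nonneg hβ0.le ht0.1])
    have hEE : Real.exp (-(β * t0)) * Real.exp (β * t0) = 1 := by rw [← Real.exp_add]; simp
    have ht08 : t0 ^ (1 / 8 : ℝ) ≤ T ^ (1 / 8 : ℝ) :=
      Real.rpow_le_rpow ht0.1 ht0.2 (by norm_num)
    have hb : 0 ≤ (β ^ (1 / 8 : ℝ))⁻¹ := by positivity
    calc M ≤ Real.exp (-(β * t0)) * (ε + A * (Real.exp (β * t0)
          * (M * ((β ^ (1 / 8 : ℝ))⁻¹ * (8 * t0 ^ (1 / 8 : ℝ)))))) := by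
          refine mul_le_mul_of_nonneg_left (h1.trans ?_) hE.le
          have := mul_le_mul_of_nonneg_left hI hA
          linarith
      _ = Real.exp (-(β * t0)) * ε + (Real.exp (-(β * t0)) * Real.exp (β * t0)) * (M
          * (8 * A * t0 ^ (1 / 8 : ℝ) * (β ^ (1 / 8 : ℝ))⁻¹)) := by ring
      _ ≤ 1 * ε + M * (8 * A * T ^ (1 / 8 : ℝ) * (β ^ (1 / 8 : ℝ))⁻¹) := by
          rw [hEE, one_mul]
          gcongr
      _ ≤ 1 * ε + M * (1 / 2) := by gcongr
      _ = ε + M / 2 := by ring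
  have h3 : M ≤ 2 * ε := by linarith
  intro t ht
  have k := hle t ht
  have : y t = Real.exp (β * t) * (Real.exp (-(β * t)) * y t) := by
    rw [← mul_assoc, ← Real.exp_add]; simp
  rw [this]
  calc Real.exp (β * t) * (Real.exp (-(β * t)) * y t) ≤ Real.exp (β * T) * (2 * ε) := by
        refine mul_le_mul (Real.exp_le_exp.mpr (mul_le_mul_of_nonneg_left ht.2 hβ0.le))
          (k.trans h3) (mul_nonneg (Real.exp_pos _).le (h0 t ht)) (Real.exp_pos _).le
    _ = sgc T A * ε := by unfold sgc; rw [← hβ]; ring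

end H772R2.NSV
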