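import Mathlib
import Pool.Agent.H772R2.NSG.Abs

/-!
The spectral basis of the Stokes operator in the abstract frame.
-/

set_option linter.unusedSectionVars false

open MeasureTheory Set Filter Topology Metric
open scoped InnerProductSpace NNReal ENNReal

namespace H772R2.NSV

open H772R2.NSR (Frame grad_unique)

universe u v

variable {H : Type u} {K : Type v} [NormedAddCommGroup H] [InnerProductSpace ℝ H]
  [CompleteSpace H] [NormedAddCommGroup K] [InnerProductSpace ℝ K] [CompleteSpace K]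

variable {W : Submodule ℝ (H × K)} {m : H → K} {C : ℝ}

/-- the space of gradients. -/
def VK (W : Submodule ℝ (H × K)) : Submodule ℝ K := W.map (LinearMap.snd ℝ H K)

theorem mem_VK {p : H × K} (hp : p ∈ W) : p.2 ∈ VK W := ⟨p, hp, rfl⟩

theorem VK_closed (Fr : Frame W m C) : IsClosed (VK W : Set K) := by
  refine IsSeqClosed.isClosed ?_
  intro z y hz hy
  choose p hp hpz using fun k => hz k
  have hpz' : ∀ k, (p k).2 = z k := hpz
  have hC := Fr.C0
  have hcau : CauchySeq (fun k => (p k).1) := by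
    rw [Metric.cauchySeq_iff]
    intro ε hε
    have hzc := hy.cauchySeq
    rw [Metric.cauchySeq_iff] at hzc
    obtain ⟨N, hN⟩ := hzc (ε / C) (by positivity)
    refine ⟨N, fun j hj k hk => ?_⟩
    have h1 := Fr.poinc _ (W.sub_mem (hp j) (hp k))
    have h2 := hN j hj k hk
    rw [dist_eq_norm] at h2 ⊢
    have h3 : ‖(p j).1 - (p k).1‖ ≤ C * ‖z j - z k‖ := by
      have := h1
      rw [Prod.fst_sub, Prod.snd_sub, hpz', hpz'] at this
      exact this
    calc ‖(p j).1 - (p k).1‖ ≤ C * ‖z j - z k‖ := h3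
      _ < C * (ε / C) := by gcongr
      _ = ε := by field_simp
  obtain ⟨x, hx⟩ := cauchySeq_tendsto_of_complete hcau
  have h : (x, y) ∈ W := by
    refine Fr.closedW.mem_of_tendsto (hx.prodMk_nhds hy) (Eventually.of_forall fun k => ?_)
    have : ((p k).1, z k) = p k := by rw [← hpz' k]
    show ((p k).1, z k) ∈ W
    rw [this]
    exact hp k
  exact ⟨(x, y), h, rfl⟩

/-- the velocity as a function of its gradient. -/
theorem exists_J (Fr : Frame W m C) : ∃ J : VK W →L[ℝ] H, ∀ y : VK W, (J y, (y : K)) ∈ W := by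
  have hex : ∀ y : VK W, ∃ x, (x, (y : K)) ∈ W := by
    rintro ⟨y, ⟨⟨x, y'⟩, hp, rfl⟩⟩
    exact ⟨x, hp⟩
  choose j hj using hex
  have huniq : ∀ {x x' : H} {y : K}, (x, y) ∈ W → (x', y) ∈ W → x = x' := by
    intro x x' y h1 h2
    have h := Fr.poinc _ (W.sub_mem h1 h2)
    simp only [Prod.mk_sub_mk, sub_self, norm_zero, mul_zero] at h
    exact sub_eq_zero.mp (norm_le_zero_iff.mp h)
  let L : VK W →ₗ[ℝ] H :=
    { toFun := j
      map_add' := fun y y' => huniq (hj (y + y')) (by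
        have := W.add_mem (hj y) (hj y')
        simpa using this)
      map_smul' := fun c y => huniq (hj (c • y)) (by
        have := W.smul_mem c (hj y)
        simpa using this) }
  refine ⟨L.mkContinuous C (fun y => ?_), fun y => hj y⟩
  exact Fr.poinc _ (hj y)

/-- The spectral basis. -/
structure Eig (W : Submodule ℝ (H × K)) {ι : Type*} (g : ι → H) (f : ι → K) (lam : ι → ℝ) :
    Prop where
  mem : ∀ i, (g i, f i) ∈ W
  on : Orthonormal ℝ f
  pos : ∀ i, 0 < lam i
  eqn : ∀ i, ∀ q ∈ W, ⟪f i, q.2⟫_ℝ = lam i * ⟪g i, q.1⟫_ℝ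
  tot : ∀ q ∈ W, ∀ B : ℝ, 0 ≤ B → (∀ S : Finset ι, ∑ i ∈ S, ⟪f i, q.2⟫_ℝ ^ 2 ≤ B ^ 2) → ‖q.2‖ ≤ B

theorem exists_eig (Fr : Frame W m C)
    (hcomp : ∀ R : ℝ, TotallyBounded {v : H | ∃ z, (v, z) ∈ W ∧ ‖z‖ ≤ R}) :
    ∃ (ι : Type v) (g : ι → H) (f : ι → K) (lam : ι → ℝ), Eig W g f lam := by
  have hcl := VK_closed Fr
  have : CompleteSpace (VK W) := hcl.completeSpace_coe
  obtain ⟨J, hJ⟩ := exists_J Fr
  have hJinj : ∀ y, J y = 0 → y = 0 := by
    intro y hy
    have h1 := hJ y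
    rw [hy] at h1
    have := Fr.uniq _ h1 rfl
    exact Subtype.ext this
  -- compactness
  have hJc : IsCompactOperator J := by
    refine (isCompactOperator_iff_exists_mem_nhds_isCompact_closure_image J).mpr
      ⟨closedBall 0 1, closedBall_mem_nhds 0 one_pos, ?_⟩
    have hsub : J '' closedBall 0 1 ⊆ {v : H | ∃ z, (v, z) ∈ W ∧ ‖z‖ ≤ 1} := by
      rintro _ ⟨y, hy, rfl⟩
      refine ⟨y, hJ y, ?_⟩
      rw [mem_closedBall_zero_iff] at hy
      exact hy
    exact isCompact_iff_totallyBounded_isComplete.mpr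
      ⟨((hcomp 1).subset hsub).closure, isClosed_closure.isComplete⟩
  obtain ⟨S, hSc, hSi⟩ : ∃ S : VK W →L[ℝ] VK W, IsCompactOperator S ∧
      ∀ x y : VK W, ⟪S x, y⟫_ℝ = ⟪J x, J y⟫_ℝ :=
    ⟨(ContinuousLinearMap.adjoint J).comp J, hJc.clm_comp (ContinuousLinearMap.adjoint J),
      fun x y => ContinuousLinearMap.adjoint_inner_left J y (J x)⟩
  have hSs : (S : VK W →ₗ[ℝ] VK W).IsSymmetric := by
    intro x y
    calc ⟪S x, y⟫_ℝ = ⟪J x, J y⟫_ℝ := hSi x y
      _ = ⟪J y, J x⟫_ℝ := real_inner_comm _ _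
      _ = ⟪S y, x⟫_ℝ := (hSi y x).symm
      _ = ⟪x, S y⟫_ℝ := real_inner_comm _ _
  have hbot := ContinuousLinearMap.orthogonalComplement_iSup_eigenspaces_eq_bot hSc hSs
  have hfam := hSs.orthogonalFamily_eigenspaces
  -- bases of the eigenspaces
  have hcompl : ∀ μ : ℝ, CompleteSpace (Module.End.eigenspace (S : VK W →ₗ[ℝ] VK W) μ) := by
    intro μ
    have hc : IsClosed (Module.End.eigenspace (S : VK W →ₗ[ℝ] VK W) μ : Set (VK W)) := by
      have e : (Module.End.eigenspace (S : VK W →ₗ[ℝ] VK W) μ : Set (VK W))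
          = {x | S x = μ • x} := by
        ext x
        exact Module.End.mem_eigenspace_iff
      rw [e]
      exact isClosed_eq S.continuous (continuous_const_smul μ)
    exact hc.completeSpace_coe
  have hbas : ∀ μ : ℝ, ∃ (w : Set (Module.End.eigenspace (S : VK W →ₗ[ℝ] VK W) μ))
      (b : HilbertBasis w ℝ (Module.End.eigenspace (S : VK W →ₗ[ℝ] VK W) μ)), ⇑b = ((↑) : w → _) :=
    fun μ => exists_hilbertBasis ℝ _
  choose w b hb using hbas
  set e : (Σ μ : ℝ, w μ) → VK W := fun a => ((b a.1 a.2 :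
    Module.End.eigenspace (S : VK W →ₗ[ℝ] VK W) a.1) : VK W) with he
  have hon : Orthonormal ℝ e := hfam.orthonormal_sigma_orthonormal (fun μ => (b μ).orthonormal)
  have hsp : (Submodule.span ℝ (Set.range e))ᗮ = ⊥ := by
    rw [eq_bot_iff, ← hbot]
    intro x hx
    rw [Submodule.mem_orthogonal] at hx ⊢
    intro y hy
    refine Submodule.iSup_induction _ (motive := fun y => ⟪y, x⟫_ℝ = 0) hy ?_ (by simp) ?_
    · intro μ y hy
      have h1 := (b μ).hasSum_repr ⟨y, hy⟩
      have h2 : HasSum (fun i => ((b μ).repr ⟨y, hy⟩ i) • ((b μ i :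
          Module.End.eigenspace (S : VK W →ₗ[ℝ] VK W) μ) : VK W)) y := by
        have := h1.mapL (Submodule.subtypeL _)
        simpa using this
      have h3 := h2.mapL (innerSL ℝ x)
      have h4 : ∀ i, innerSL ℝ x (((b μ).repr ⟨y, hy⟩ i) • ((b μ i :
          Module.End.eigenspace (S : VK W →ₗ[ℝ] VK W) μ) : VK W)) = 0 := by
        intro i
        rw [innerSL_apply_apply, real_inner_smul_right, real_inner_comm,
          hx _ (Submodule.subset_span ⟨⟨μ, i⟩, rfl⟩), mul_zero]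
      simp_rw [h4] at h3
      have h5 : innerSL ℝ x y = 0 := h3.unique hasSum_zero
      rw [innerSL_apply_apply] at h5
      rw [real_inner_comm]
      exact h5
    · intro y y' h h'
      rw [inner_add_left, h, h', add_zero]
  set bb := HilbertBasis.mkOfOrthogonalEqBot hon hsp with hbb
  have hbbe : ∀ a, bb a = e a := fun a => by rw [hbb, HilbertBasis.coe_mkOfOrthogonalEqBot]
  have heig : ∀ a, S (e a) = a.1 • e a := fun a =>
    Module.End.mem_eigenspace_iff.mp (b a.1 a.2).2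
  have hne : ∀ a, e a ≠ 0 := fun a => hon.ne_zero a
  have hpos : ∀ a : (Σ μ : ℝ, w μ), 0 < a.1 := by
    intro a
    have h1 : ⟪S (e a), e a⟫_ℝ = a.1 := by
      rw [heig, real_inner_smul_left, real_inner_self_eq_norm_sq, hon.1 a]; simp
    rw [← h1, hSi, real_inner_self_eq_norm_sq]
    have : J (e a) ≠ 0 := fun h => hne a (hJinj _ h)
    positivity
  refine ⟨(Σ μ : ℝ, w μ), fun a => J (e a), fun a => (e a : K), fun a => a.1⁻¹, ?_⟩
  constructor
  · intro a
    exact hJ (e a)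
  · exact hon.comp_linearIsometry (Submodule.subtypeₗᵢ _)
  · intro a
    exact inv_pos.mpr (hpos a)
  · intro a q hq
    set y : VK W := ⟨q.2, mem_VK hq⟩ with hy
    have hJy : J y = q.1 := by
      have h1 := W.sub_mem (hJ y) hq
      have h := Fr.poinc _ h1
      have e2 : ((J y, (y : K)) - q).2 = 0 := by
        show (y : K) - q.2 = 0
        simp [hy]
      rw [e2, norm_zero, mul_zero] at h
      have : (J y, (y : K)).1 - q.1 = 0 := norm_le_zero_iff.mp h
      exact sub_eq_zero.mp this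
    have h1 : ⟪e a, y⟫_ℝ = a.1⁻¹ * ⟪S (e a), y⟫_ℝ := by
      rw [heig, real_inner_smul_left, ← mul_assoc, inv_mul_cancel₀ (hpos a).ne', one_mul]
    rw [hSi, hJy] at h1
    exact h1
  · intro q hq B hB hS'
    set y : VK W := ⟨q.2, mem_VK hq⟩ with hy
    have h1 : HasSum (fun a => ⟪y, bb a⟫_ℝ * ⟪bb a, y⟫_ℝ) ⟪y, y⟫_ℝ := bb.hasSum_inner_mul_inner y y
    have h2 : ⟪y, y⟫_ℝ ≤ B ^ 2 := by
      refine hasSum_le_of_sum_le h1 (fun s => ?_)
      refine le_trans (le_of_eq ?_) (hS' s)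
      refine Finset.sum_congr rfl fun a _ => ?_
      rw [hbbe, real_inner_comm, sq]
      rfl
    rw [real_inner_self_eq_norm_sq] at h2
    exact (pow_le_pow_iff_left₀ (norm_nonneg _) hB (by norm_num)).mp h2

end H772R2.NSV
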