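import Mathlib
import Pool.Agent.H772R2.NSV.Spec
import Pool.Agent.H772R2.NSV.Duh
import Pool.Agent.H772R2.NSV.Sing
import Pool.Agent.H772R2.NSG.Cross

/-!
Regular solutions with an integrable viscosity; their spectral components.
-/

set_option linter.unusedSectionVars false

open MeasureTheory Set Filter Topology Metric
open scoped InnerProductSpace NNReal ENNReal

namespace H772R2.NSV

open H772R2.NSR (Frame grad_unique prim_cont ii_of_cont ii_mono)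

variable {H K : Type*} [NormedAddCommGroup H] [InnerProductSpace ℝ H] [CompleteSpace H]
  [NormedAddCommGroup K] [InnerProductSpace ℝ K] [CompleteSpace K]

variable {W : Submodule ℝ (H × K)} {m : H → K} {C : ℝ} {ν T : ℝ}

/-- The trilinear bound. -/
structure TriB (W : Submodule ℝ (H × K)) (m : H → K) (C3 : ℝ) : Prop where
  nonneg : 0 ≤ C3
  bound : ∀ p ∈ W, ∀ q ∈ W, ∀ r ∈ W, |⟪m p.1 - m q.1, r.2⟫_ℝ|
    ≤ C3 * (‖p.2 - q.2‖ * (‖p.2‖ + ‖q.2‖) * Real.sqrt (‖r.1‖ * ‖r.2‖))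

/-- Regular solutions. -/
structure Reg (W : Submodule ℝ (H × K)) (m : H → K) (T : ℝ) (n : ℝ → ℝ) (F : ℝ → K) (x0 : H)
    (u : ℝ → H) (z : ℝ → K) : Prop where
  init : u 0 = x0
  mem : ∀ t ∈ Icc 0 T, (u t, z t) ∈ W
  zc : ContinuousOn z (Icc 0 T)
  weak : ∀ p ∈ W, ∀ t ∈ Icc 0 T, ⟪u t - x0, p.1⟫_ℝ
    = ∫ s in (0 : ℝ)..t, ⟪F s - n s • z s + m (u s), p.2⟫_ℝ
  energy : ∀ t ∈ Icc 0 T, ‖u t‖ ^ 2 / 2 + ∫ s in (0 : ℝ)..t, n s * ‖z s‖ ^ 2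
    = ‖x0‖ ^ 2 / 2 + ∫ s in (0 : ℝ)..t, ⟪F s, z s⟫_ℝ

/-- Integrable viscosities bounded below. -/
structure Vn (ν T : ℝ) (n : ℝ → ℝ) : Prop where
  int : IntegrableOn n (Ioc 0 T)
  low : ∀ᵐ s ∂(volume.restrict (Ioc 0 T)), ν ≤ n s

theorem Vn.mono {n : ℝ → ℝ} {T' : ℝ} (h : Vn ν T n) (hT : T' ≤ T) : Vn ν T' n :=
  ⟨h.int.mono_set (Ioc_subset_Ioc_right hT), ae_mono (Measure.restrict_mono
    (Ioc_subset_Ioc_right hT) le_rfl) h.low⟩

theorem Reg.mono {n : ℝ → ℝ} {F : ℝ → K} {x0 : H} {u : ℝ → H} {z : ℝ → K} {T' : ℝ}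
    (h : Reg W m T n F x0 u z) (hT : T' ≤ T) : Reg W m T' n F x0 u z where
  init := h.init
  mem := fun t ht => h.mem t ⟨ht.1, ht.2.trans hT⟩
  zc := h.zc.mono (Icc_subset_Icc_right hT)
  weak := fun p hp t ht => h.weak p hp t ⟨ht.1, ht.2.trans hT⟩
  energy := fun t ht => h.energy t ⟨ht.1, ht.2.trans hT⟩

theorem m_lipZ (Fr : Frame W m C) {p q : H × K} (hp : p ∈ W) (hq : q ∈ W) {Z : ℝ}
    (h1 : ‖p.2‖ ≤ Z) (h2 : ‖q.2‖ ≤ Z) :
    ‖m p.1 - m q.1‖ ≤ 2 * (1 + C) * Z * ‖p.2 - q.2‖ := by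
  have hC := Fr.C0
  have hZ : 0 ≤ Z := (norm_nonneg _).trans h1
  have h3 := Fr.lips p hp q hq
  have h4 : ‖p.1 - q.1‖ ≤ C * ‖p.2 - q.2‖ := Fr.poinc _ (W.sub_mem hp hq)
  have h5 : ‖m p.1 - m q.1‖ ^ 4 ≤ (2 * (1 + C) * Z * ‖p.2 - q.2‖) ^ 4 := by
    calc ‖m p.1 - m q.1‖ ^ 4 ≤ C * (‖p.1 - q.1‖ * ‖p.2 - q.2‖ ^ 3 * (‖p.2‖ + ‖q.2‖) ^ 4) := h3
      _ ≤ C * ((C * ‖p.2 - q.2‖) * ‖p.2 - q.2‖ ^ 3 * (Z + Z) ^ 4) := by gcongr
      _ = C ^ 2 * (16 * Z ^ 4 * ‖p.2 - q.2‖ ^ 4) := by ring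
      _ ≤ (1 + C) ^ 4 * (16 * Z ^ 4 * ‖p.2 - q.2‖ ^ 4) := by
          gcongr
          have : C ≤ (1 + C) ^ 2 := by nlinarith
          calc C ^ 2 ≤ ((1 + C) ^ 2) ^ 2 := by gcongr
            _ = (1 + C) ^ 4 := by ring
      _ = _ := by ring
  exact (pow_le_pow_iff_left₀ (norm_nonneg _) (by positivity) (by norm_num)).mp h5

theorem m_zero (Fr : Frame W m C) : m 0 = 0 := by
  have h := Fr.quart 0 W.zero_mem
  simp only [Prod.fst_zero, Prod.snd_zero, norm_zero] at h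
  have : ‖m (0 : H)‖ ^ 2 ≤ 0 := by simpa using h
  have h2 : ‖m (0 : H)‖ = 0 := by nlinarith [norm_nonneg (m (0 : H))]
  exact norm_eq_zero.mp h2

section basic

variable {n : ℝ → ℝ} {F : ℝ → K} {x0 : H} {u : ℝ → H} {z : ℝ → K}

theorem Reg.bdd (h : Reg W m T n F x0 u z) : ∃ Z, ∀ t ∈ Icc 0 T, ‖z t‖ ≤ Z := by
  obtain ⟨Z, hZ⟩ := (isCompact_Icc.image_of_continuousOn h.zc).isBounded.exists_norm_le
  exact ⟨Z, fun t ht => hZ _ ⟨t, ht, rfl⟩⟩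

theorem Reg.uc (Fr : Frame W m C) (h : Reg W m T n F x0 u z) : ContinuousOn u (Icc 0 T) := by
  intro t ht
  rw [ContinuousWithinAt, tendsto_iff_norm_sub_tendsto_zero]
  have h1 : Tendsto (fun s => C * ‖z s - z t‖) (𝓝[Icc 0 T] t) (𝓝 (C * 0)) :=
    (tendsto_iff_norm_sub_tendsto_zero.mp (h.zc t ht)).const_mul C
  rw [mul_zero] at h1
  refine squeeze_zero' (Eventually.of_forall fun s => norm_nonneg _) ?_ h1
  filter_upwards [self_mem_nhdsWithin] with s hs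
  exact Fr.poinc _ (W.sub_mem (h.mem s hs) (h.mem t ht))

theorem Reg.mc (Fr : Frame W m C) (h : Reg W m T n F x0 u z) :
    ContinuousOn (fun s => m (u s)) (Icc 0 T) := by
  obtain ⟨Z, hZ⟩ := h.bdd
  intro t ht
  rw [ContinuousWithinAt, tendsto_iff_norm_sub_tendsto_zero]
  have h1 : Tendsto (fun s => 2 * (1 + C) * Z * ‖z s - z t‖) (𝓝[Icc 0 T] t)
      (𝓝 (2 * (1 + C) * Z * 0)) :=
    (tendsto_iff_norm_sub_tendsto_zero.mp (h.zc t ht)).const_mul _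
  rw [mul_zero] at h1
  refine squeeze_zero' (Eventually.of_forall fun s => norm_nonneg _) ?_ h1
  filter_upwards [self_mem_nhdsWithin] with s hs
  exact m_lipZ Fr (h.mem s hs) (h.mem t ht) (hZ s hs) (hZ t ht)

theorem Reg.grad0 (Fr : Frame W m C) (hT : 0 ≤ T) (h : Reg W m T n F x0 u z) {z0 : K}
    (h0 : (x0, z0) ∈ W) : z 0 = z0 := by
  refine grad_unique Fr ?_ h0
  have := h.mem 0 ⟨le_rfl, hT⟩
  rwa [h.init] at this

/-- spectral components. -/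
theorem Reg.comp (Fr : Frame W m C) {ι : Type*} {g : ι → H} {f : ι → K} {lam : ι → ℝ}
    (E : Eig W g f lam) (hn : Vn ν T n) (hF : ContinuousOn F (Icc 0 T))
    (h : Reg W m T n F x0 u z) (i : ι) {t : ℝ} (ht : t ∈ Icc 0 T) :
    ⟪f i, z t⟫_ℝ = Real.exp (-(lam i * ∫ r in (0 : ℝ)..t, n r)) * ⟪f i, z 0⟫_ℝ
      + ∫ s in (0 : ℝ)..t, lam i * Real.exp (-(lam i * ∫ r in s..t, n r))
        * (⟪f i, F s⟫_ℝ + ⟪f i, m (u s)⟫_ℝ) := by
  have hT : 0 ≤ T := ht.1.trans ht.2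
  have hu := h.uc Fr
  have hm := h.mc Fr
  have hz := h.zc
  set a : ℝ → ℝ := fun t => ⟪g i, u t⟫_ℝ with ha
  have hb : ∀ t ∈ Icc 0 T, ⟪f i, z t⟫_ℝ = lam i * a t := fun t ht => E.eqn i _ (h.mem t ht)
  set G : ℝ → ℝ := fun s => ⟪f i, F s⟫_ℝ + ⟪f i, m (u s)⟫_ℝ with hG
  have hGc : ContinuousOn G (Icc 0 T) :=
    (continuousOn_const.inner hF).add (continuousOn_const.inner hm)
  have hGi : IntegrableOn G (Ioc 0 T) := (hGc.integrableOn_Icc).mono_set Ioc_subset_Icc_self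
  have hac : ContinuousOn a (Icc 0 T) := continuousOn_const.inner hu
  have he : ∀ t ∈ Icc 0 T, a t = a 0 + ∫ s in (0 : ℝ)..t, (G s - n s * (lam i * a s)) := by
    intro t ht
    have h1 := h.weak _ (E.mem i) t ht
    have h2 : ∫ s in (0 : ℝ)..t, ⟪F s - n s • z s + m (u s), f i⟫_ℝ
        = ∫ s in (0 : ℝ)..t, (G s - n s * (lam i * a s)) := by
      refine intervalIntegral.integral_congr fun s hs => ?_
      rw [uIcc_of_le ht.1] at hs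
      show ⟪F s - n s • z s + m (u s), f i⟫_ℝ = G s - n s * (lam i * a s)
      rw [← hb s ⟨hs.1, hs.2.trans ht.2⟩, real_inner_comm, inner_add_right, inner_sub_right,
        real_inner_smul_right]
      simp only [hG]; ring
    have h3 : ⟪u t - x0, g i⟫_ℝ = a t - a 0 := by
      simp only [ha]
      rw [h.init, real_inner_comm, inner_sub_right]
    rw [h3] at h1
    rw [← h2]
    linarith
  have h1 := duhamel (l := lam i) hn.int hGi hac he ht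
  have h2 : ∫ s in (0 : ℝ)..t, lam i * Real.exp (-(lam i * ∫ r in s..t, n r))
        * (⟪f i, F s⟫_ℝ + ⟪f i, m (u s)⟫_ℝ)
      = lam i * ∫ s in (0 : ℝ)..t, Real.exp (-(lam i * ∫ r in s..t, n r)) * G s := by
    rw [← intervalIntegral.integral_const_mul]
    refine intervalIntegral.integral_congr fun s _ => ?_
    show lam i * Real.exp (-(lam i * ∫ r in s..t, n r))
        * (⟪f i, F s⟫_ℝ + ⟪f i, m (u s)⟫_ℝ)
      = lam i * (Real.exp (-(lam i * ∫ r in s..t, n r)) * (⟪f i, F s⟫_ℝ + ⟪f i, m (u s)⟫_ℝ))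
    ring
  rw [hb t ht, hb 0 ⟨le_rfl, hT⟩, h2, h1]
  ring

end basic

end H772R2.NSV
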