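import Mathlib
import Pool.Agent.H772R2.NSV.Reg

/-!
Duality estimates with the spectral basis.
-/

set_option linter.unusedSectionVars false

open MeasureTheory Set Filter Topology Metric
open scoped InnerProductSpace NNReal ENNReal

namespace H772R2.NSV

open H772R2.NSR (Frame)

theorem x_exp {x : ℝ} : x * Real.exp (-x) ≤ 1 := by
  rw [Real.exp_neg, ← div_eq_mul_inv, div_le_one (Real.exp_pos _)]
  have := Real.add_one_le_exp x
  linarith

theorem x2_exp {x : ℝ} (hx : 0 ≤ x) : x ^ 2 * Real.exp (-x) ≤ 1 := by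
  rw [Real.exp_neg, ← div_eq_mul_inv, div_le_one (Real.exp_pos _)]
  have h1 := Real.quadratic_le_exp_of_nonneg (x := x / 2) (by positivity)
  have h2 : x ≤ Real.exp (x / 2) := by nlinarith [sq_nonneg (x - 2)]
  have h3 : Real.exp x = Real.exp (x / 2) ^ 2 := by
    rw [← Real.exp_nat_mul]; congr 1; push_cast; ring
  rw [h3]
  gcongr

theorem exp_diff {x y c : ℝ} (hx : c ≤ x) (hy : c ≤ y) :
    |Real.exp (-x) - Real.exp (-y)| ≤ Real.exp (-c) * min 1 |x - y| := by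
  have h1 := exp_lip (x := -x) (y := -y) (R := -c) (by linarith) (by linarith)
  have e : |(-x) - (-y)| = |x - y| := by rw [abs_sub_comm]; congr 1; ring
  rw [e] at h1
  have h2 : |Real.exp (-x) - Real.exp (-y)| ≤ Real.exp (-c) := by
    have a1 : Real.exp (-x) ≤ Real.exp (-c) := Real.exp_le_exp.mpr (by linarith)
    have a2 : Real.exp (-y) ≤ Real.exp (-c) := Real.exp_le_exp.mpr (by linarith)
    have a3 := Real.exp_pos (-x)
    have a4 := Real.exp_pos (-y)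
    rw [abs_le]; constructor <;> linarith
  rcases le_total 1 |x - y| with h | h
  · rw [min_eq_left h, mul_one]; exact h2
  · rw [min_eq_right h]; exact h1

/-- first weight bound. -/
theorem wA {l τ d δ : ℝ} (hl : 0 < l) (hτ : 0 < τ) (hd : 0 ≤ d) (hdδ : d ≤ l * δ) :
    l * (Real.exp (-(l * τ)) * min 1 d) ≤ τ⁻¹ * min 1 (δ / τ) := by
  have hδ : 0 ≤ δ := by
    by_contra hcon
    have := mul_neg_of_pos_of_neg hl (not_le.mp hcon)
    linarith
  have hE := Real.exp_pos (-(l * τ))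
  have h1 : l * (Real.exp (-(l * τ)) * min 1 d) ≤ τ⁻¹ := by
    have := x_exp (x := l * τ)
    rw [inv_eq_one_div, le_div_iff₀ hτ]
    calc l * (Real.exp (-(l * τ)) * min 1 d) * τ = (l * τ * Real.exp (-(l * τ))) * min 1 d := by
          ring
      _ ≤ 1 * 1 := mul_le_mul this (min_le_left _ _) (le_min zero_le_one hd) zero_le_one
      _ = 1 := one_mul 1
  have h2 : l * (Real.exp (-(l * τ)) * min 1 d) ≤ τ⁻¹ * (δ / τ) := by
    have := x2_exp (x := l * τ) (by positivity)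
    have e : τ⁻¹ * (δ / τ) = δ / τ ^ 2 := by field_simp
    rw [e, le_div_iff₀ (by positivity)]
    calc l * (Real.exp (-(l * τ)) * min 1 d) * τ ^ 2
        ≤ l * (Real.exp (-(l * τ)) * (l * δ)) * τ ^ 2 := by
          gcongr
          exact (min_le_right _ _).trans hdδ
      _ = ((l * τ) ^ 2 * Real.exp (-(l * τ))) * δ := by ring
      _ ≤ 1 * δ := by gcongr
      _ = δ := one_mul δ
  rcases le_total 1 (δ / τ) with h | h
  · rw [min_eq_left h, mul_one]; exact h1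
  · rw [min_eq_right h]; exact h2

/-- second weight bound. -/
theorem wB {l τ d δ : ℝ} (hl : 0 < l) (hτ : 0 < τ) (hd : 0 ≤ d) (hdδ : d ≤ l * δ) :
    l * (Real.exp (-(l * τ)) * min 1 d) ^ 2 ≤ τ⁻¹ * min 1 (δ / τ) ^ 2 := by
  have hδ : 0 ≤ δ := by
    by_contra hcon
    have := mul_neg_of_pos_of_neg hl (not_le.mp hcon)
    linarith
  have hE := Real.exp_pos (-(l * τ))
  have hE1 : Real.exp (-(l * τ)) ≤ 1 := Real.exp_le_one_iff.mpr (by
    have := mul_pos hl hτ; linarith)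
  have hm0 : 0 ≤ min 1 d := le_min zero_le_one hd
  have h1 : l * (Real.exp (-(l * τ)) * min 1 d) ^ 2 ≤ τ⁻¹ := by
    have := x_exp (x := l * τ)
    rw [inv_eq_one_div, le_div_iff₀ hτ]
    calc l * (Real.exp (-(l * τ)) * min 1 d) ^ 2 * τ
        = (l * τ * Real.exp (-(l * τ))) * (Real.exp (-(l * τ)) * min 1 d ^ 2) := by
          ring
      _ ≤ 1 * (1 * 1 ^ 2) := by
          refine mul_le_mul this ?_ (by positivity) zero_le_one
          gcongr
          exact min_le_left _ _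
      _ = 1 := by norm_num
  have h2 : l * (Real.exp (-(l * τ)) * min 1 d) ^ 2 ≤ τ⁻¹ * (δ / τ) ^ 2 := by
    have k1 := x2_exp (x := l * τ) (by positivity)
    have k2 := x_exp (x := l * τ)
    have e : τ⁻¹ * (δ / τ) ^ 2 = δ ^ 2 / τ ^ 3 := by field_simp
    rw [e, le_div_iff₀ (by positivity)]
    have k3 : ((l * τ) ^ 2 * Real.exp (-(l * τ))) * ((l * τ) * Real.exp (-(l * τ))) ≤ 1 := by
      have a1 : 0 ≤ (l * τ) ^ 2 * Real.exp (-(l * τ)) := by positivity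
      have a2 : 0 ≤ (l * τ) * Real.exp (-(l * τ)) := by positivity
      calc _ ≤ (1 : ℝ) * 1 := mul_le_mul k1 k2 a2 zero_le_one
        _ = 1 := one_mul 1
    calc l * (Real.exp (-(l * τ)) * min 1 d) ^ 2 * τ ^ 3
        ≤ l * (Real.exp (-(l * τ)) * (l * δ)) ^ 2 * τ ^ 3 := by
          gcongr
          exact (min_le_right _ _).trans hdδ
      _ = (((l * τ) ^ 2 * Real.exp (-(l * τ))) * ((l * τ) * Real.exp (-(l * τ)))) * δ ^ 2 := by
          ring
      _ ≤ 1 * δ ^ 2 := by gcongr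
      _ = δ ^ 2 := one_mul _
  rcases le_total 1 (δ / τ) with h | h
  · rw [min_eq_left h]; simpa using h1
  · rw [min_eq_right h]; exact h2

variable {H K : Type*} [NormedAddCommGroup H] [InnerProductSpace ℝ H] [CompleteSpace H]
  [NormedAddCommGroup K] [InnerProductSpace ℝ K] [CompleteSpace K]

variable {W : Submodule ℝ (H × K)} {m : H → K} {C : ℝ} {ν T : ℝ}
variable {ι : Type*} {g : ι → H} {f : ι → K} {lam : ι → ℝ}

theorem comb_mem (E : Eig W g f lam) (S : Finset ι) (a : ι → ℝ) :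
    (∑ i ∈ S, a i • g i, ∑ i ∈ S, a i • f i) ∈ W := by
  have h := W.sum_mem (t := S) (f := fun i => a i • ((g i, f i) : H × K))
    (fun i _ => W.smul_mem _ (E.mem i))
  have e : ∑ i ∈ S, a i • ((g i, f i) : H × K) = (∑ i ∈ S, a i • g i, ∑ i ∈ S, a i • f i) := by
    refine Prod.ext ?_ ?_
    · simp [Prod.fst_sum]
    · simp [Prod.snd_sum]
  rwa [e] at h

theorem comb_norm2 (E : Eig W g f lam) (S : Finset ι) (a : ι → ℝ) :
    ‖∑ i ∈ S, a i • f i‖ ^ 2 = ∑ i ∈ S, a i ^ 2 := by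
  rw [← real_inner_self_eq_norm_sq, E.on.inner_sum]
  refine Finset.sum_congr rfl fun i _ => ?_
  simp [sq]

theorem comb_norm1 (E : Eig W g f lam) (S : Finset ι) (a : ι → ℝ) :
    ‖∑ i ∈ S, a i • g i‖ ^ 2 = ∑ i ∈ S, a i ^ 2 / lam i := by
  rw [← real_inner_self_eq_norm_sq, sum_inner]
  refine Finset.sum_congr rfl fun i hi => ?_
  have h1 := E.eqn i _ (comb_mem E S a)
  simp only at h1
  rw [E.on.inner_right_sum _ hi] at h1
  have h2 := E.pos i
  rw [real_inner_smul_left]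
  have h3 : ⟪g i, ∑ i ∈ S, a i • g i⟫_ℝ = a i / lam i := by
    rw [eq_div_iff h2.ne']; linarith
  rw [h3]; ring

/-- the duality estimate. -/
theorem pair (E : Eig W g f lam) {Q : K} {κ : ℝ} (hκ : 0 ≤ κ)
    (hQ : ∀ p ∈ W, |⟪Q, p.2⟫_ℝ| ≤ κ * Real.sqrt (‖p.1‖ * ‖p.2‖)) (S : Finset ι) (y w : ι → ℝ)
    {Y D P R : ℝ} (hY : 0 ≤ Y) (hY2 : ∑ i ∈ S, y i ^ 2 ≤ Y ^ 2) (hP0 : 0 ≤ P) (hR0 : 0 ≤ R)
    (hD : 0 ≤ D) (hP : ∀ i ∈ S, w i ^ 2 ≤ P ^ 2) (hR : ∀ i ∈ S, w i ^ 2 / lam i ≤ R ^ 2)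
    (hPR : P * R ≤ D ^ 2) :
    |∑ i ∈ S, y i * (w i * ⟪f i, Q⟫_ℝ)| ≤ κ * (Y * D) := by
  set a : ι → ℝ := fun i => y i * w i with ha
  have h1 := hQ _ (comb_mem E S a)
  simp only at h1
  have e1 : ⟪Q, ∑ i ∈ S, a i • f i⟫_ℝ = ∑ i ∈ S, y i * (w i * ⟪f i, Q⟫_ℝ) := by
    rw [inner_sum]
    refine Finset.sum_congr rfl fun i _ => ?_
    rw [real_inner_smul_right, real_inner_comm]; simp only [ha]; ring
  rw [e1] at h1
  have h2 : ‖∑ i ∈ S, a i • f i‖ ≤ Y * P := by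
    refine (pow_le_pow_iff_left₀ (norm_nonneg _) (by positivity) (n := 2) (by norm_num)).mp ?_
    rw [comb_norm2 E, mul_pow]
    calc ∑ i ∈ S, a i ^ 2 = ∑ i ∈ S, y i ^ 2 * w i ^ 2 := by
          refine Finset.sum_congr rfl fun i _ => ?_
          simp only [ha]; ring
      _ ≤ ∑ i ∈ S, y i ^ 2 * P ^ 2 := Finset.sum_le_sum fun i hi => by
          have := hP i hi
          gcongr
      _ = (∑ i ∈ S, y i ^ 2) * P ^ 2 := by rw [Finset.sum_mul]
      _ ≤ Y ^ 2 * P ^ 2 := by gcongr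
  have h3 : ‖∑ i ∈ S, a i • g i‖ ≤ Y * R := by
    refine (pow_le_pow_iff_left₀ (norm_nonneg _) (by positivity) (n := 2) (by norm_num)).mp ?_
    rw [comb_norm1 E, mul_pow]
    calc ∑ i ∈ S, a i ^ 2 / lam i = ∑ i ∈ S, y i ^ 2 * (w i ^ 2 / lam i) := by
          refine Finset.sum_congr rfl fun i _ => ?_
          simp only [ha]; ring
      _ ≤ ∑ i ∈ S, y i ^ 2 * R ^ 2 := Finset.sum_le_sum fun i hi => by
          have := hR i hi
          gcongr
      _ = (∑ i ∈ S, y i ^ 2) * R ^ 2 := by rw [Finset.sum_mul]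
      _ ≤ Y ^ 2 * R ^ 2 := by gcongr
  refine h1.trans (mul_le_mul_of_nonneg_left ?_ hκ)
  rw [Real.sqrt_le_left (by positivity)]
  calc ‖∑ i ∈ S, a i • g i‖ * ‖∑ i ∈ S, a i • f i‖ ≤ (Y * R) * (Y * P) := by gcongr
    _ = Y ^ 2 * (P * R) := by ring
    _ ≤ Y ^ 2 * D ^ 2 := by gcongr
    _ = (Y * D) ^ 2 := by ring

end H772R2.NSV
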