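import Mathlib
import Pool.Agent.H772R2.NSV.Pair

/-!
Comparison of two regular solutions with different viscosities.
-/

set_option linter.unusedSectionVars false

open MeasureTheory Set Filter Topology Metric
open scoped InnerProductSpace NNReal ENNReal

namespace H772R2.NSV

open H772R2.NSR (Frame grad_unique)

variable {H K : Type*} [NormedAddCommGroup H] [InnerProductSpace ℝ H] [CompleteSpace H]
  [NormedAddCommGroup K] [InnerProductSpace ℝ K] [CompleteSpace K]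

variable {W : Submodule ℝ (H × K)} {m : H → K} {C C3 : ℝ} {ν T : ℝ}
variable {ι : Type*} {g : ι → H} {f : ι → K} {lam : ι → ℝ}

/-- the exponential. -/
noncomputable def ex (l : ℝ) (n : ℝ → ℝ) (s t : ℝ) : ℝ := Real.exp (-(l * ∫ r in s..t, n r))

/-- the part of the difference that does not involve the nonlinearity. -/
noncomputable def rem (f : ι → K) (lam : ι → ℝ) (n nb : ℝ → ℝ) (F : ℝ → K) (z0 : K) (i : ι)
    (t : ℝ) : ℝ :=
  (ex (lam i) n 0 t - ex (lam i) nb 0 t) * ⟪f i, z0⟫_ℝ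
    + ∫ s in (0 : ℝ)..t, lam i * (ex (lam i) n s t - ex (lam i) nb s t) * ⟪f i, F s⟫_ℝ

theorem ex_cont {n : ℝ → ℝ} (hn : IntegrableOn n (Ioc 0 T)) (l : ℝ) {t : ℝ} (ht : t ∈ Icc 0 T) :
    ContinuousOn (fun s => ex l n s t) (Icc 0 t) := by
  have h := intervalIntegral.continuousOn_primitive_interval_left (f := n) (μ := volume)
    (a := 0) (b := t) (by
      rw [uIcc_of_le ht.1, integrableOn_Icc_iff_integrableOn_Ioc]
      exact hn.mono_set (Ioc_subset_Ioc_right ht.2))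
  rw [uIcc_of_le ht.1] at h
  unfold ex
  exact (h.const_smul l).neg.rexp

theorem int_low {n : ℝ → ℝ} (hn : Vn ν T n) {s t : ℝ} (hs : 0 ≤ s) (hst : s ≤ t) (ht : t ≤ T) :
    ν * (t - s) ≤ ∫ r in s..t, n r := by
  have h1 : ∫ _ in s..t, ν = ν * (t - s) := by
    rw [intervalIntegral.integral_const]; simp [mul_comm]
  rw [← h1, intervalIntegral.integral_of_le hst, intervalIntegral.integral_of_le hst]
  refine integral_mono_ae (integrable_const _) (hn.int.mono_set (Ioc_subset_Ioc hs ht)) ?_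
  exact ae_mono (Measure.restrict_mono (Ioc_subset_Ioc hs ht) le_rfl) hn.low

theorem int_diff {n nb : ℝ → ℝ} (hn : Vn ν T n) (hnb : Vn ν T nb) {δ : ℝ}
    (hδ : ∫ s in (0 : ℝ)..T, |n s - nb s| ≤ δ) {s t : ℝ} (hs : 0 ≤ s) (hst : s ≤ t)
    (ht : t ≤ T) : |(∫ r in s..t, n r) - ∫ r in s..t, nb r| ≤ δ := by
  have hT : 0 ≤ T := hs.trans (hst.trans ht)
  rw [← intervalIntegral.integral_sub (ii_of_on hn.int hs hst ht) (ii_of_on hnb.int hs hst ht)]
  have hi : IntegrableOn (fun s => n s - nb s) (Ioc 0 T) := hn.int.sub hnb.int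
  calc |∫ r in s..t, (n r - nb r)| ≤ ∫ r in s..t, |n r - nb r| := by
        have := intervalIntegral.norm_integral_le_integral_norm (f := fun r => n r - nb r) hst
          (μ := volume)
        simpa [Real.norm_eq_abs] using this
    _ = ∫ r in Ioc s t, |n r - nb r| := intervalIntegral.integral_of_le hst
    _ ≤ ∫ r in Ioc 0 T, |n r - nb r| := setIntegral_mono_set hi.abs
        (Eventually.of_forall fun s => abs_nonneg _) (Ioc_subset_Ioc hs ht).eventuallyLE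
    _ = ∫ r in (0 : ℝ)..T, |n r - nb r| := (intervalIntegral.integral_of_le hT).symm
    _ ≤ δ := hδ

theorem ex_le {n : ℝ → ℝ} (hn : Vn ν T n) {l : ℝ} (hl : 0 < l) {s t : ℝ} (hs : 0 ≤ s)
    (hst : s ≤ t) (ht : t ≤ T) : ex l n s t ≤ Real.exp (-(l * (ν * (t - s)))) := by
  unfold ex
  refine Real.exp_le_exp.mpr (neg_le_neg ?_)
  exact mul_le_mul_of_nonneg_left (int_low hn hs hst ht) hl.le

theorem ex_diff {n nb : ℝ → ℝ} (hn : Vn ν T n) (hnb : Vn ν T nb) {δ : ℝ}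
    (hδ : ∫ s in (0 : ℝ)..T, |n s - nb s| ≤ δ) {l : ℝ} (hl : 0 < l) {s t : ℝ} (hs : 0 ≤ s)
    (hst : s ≤ t) (ht : t ≤ T) : ∃ d : ℝ, 0 ≤ d ∧ d ≤ l * δ ∧ |ex l n s t - ex l nb s t|
      ≤ Real.exp (-(l * (ν * (t - s)))) * min 1 d := by
  refine ⟨|l * (∫ r in s..t, n r) - l * ∫ r in s..t, nb r|, abs_nonneg _, ?_, ?_⟩
  · rw [← mul_sub, abs_mul, abs_of_pos hl]
    exact mul_le_mul_of_nonneg_left (int_diff hn hnb hδ hs hst ht) hl.le
  · exact exp_diff (mul_le_mul_of_nonneg_left (int_low hn hs hst ht) hl.le)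
      (mul_le_mul_of_nonneg_left (int_low hnb hs hst ht) hl.le)

variable {n nb : ℝ → ℝ} {F : ℝ → K} {x0 : H} {u ub : ℝ → H} {z zb : ℝ → K}

theorem comp_est (Fr : Frame W m C) (Tb : TriB W m C3) (E : Eig W g f lam) (hν : 0 < ν)
    (hn : Vn ν T n) (hnb : Vn ν T nb) (hF : ContinuousOn F (Icc 0 T))
    (h : Reg W m T n F x0 u z) (hb : Reg W m T nb F x0 ub zb) {Z : ℝ}
    (hz : ∀ t ∈ Icc 0 T, ‖z t‖ ≤ Z) (hzb : ∀ t ∈ Icc 0 T, ‖zb t‖ ≤ Z) {δ : ℝ} (hδ0 : 0 ≤ δ)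
    (hδ : ∫ s in (0 : ℝ)..T, |n s - nb s| ≤ δ) {ω : ℝ} (hω : 0 ≤ ω)
    (hR : ∀ t ∈ Icc 0 T, ∀ S : Finset ι, ∑ i ∈ S, rem f lam n nb F (z 0) i t ^ 2 ≤ ω ^ 2)
    {t : ℝ} (ht : t ∈ Icc 0 T) :
    ‖z t - zb t‖ ≤ (ω + C3 * Z ^ 2 * (δ ^ (1 / 8 : ℝ) * (ν ^ (-(7 / 8) : ℝ)
        * (8 * T ^ (1 / 8 : ℝ)))))
      + (2 * C3 * Z * ν ^ (-(3 / 4) : ℝ)) * ∫ s in (0 : ℝ)..t, (t - s) ^ (-(3 / 4) : ℝ)
        * ‖z s - zb s‖ := by
  have hT : 0 ≤ T := ht.1.trans ht.2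
  have h0T : (0 : ℝ) ∈ Icc 0 T := ⟨le_rfl, hT⟩
  have hZ : 0 ≤ Z := (norm_nonneg _).trans (hz 0 h0T)
  have hC3 := Tb.nonneg
  have hsub : Icc 0 t ⊆ Icc 0 T := Icc_subset_Icc_right ht.2
  have hu0 : uIcc 0 t = Icc 0 t := uIcc_of_le ht.1
  have hm := (h.mc Fr)
  have hmb := (hb.mc Fr)
  have hz0 : zb 0 = z 0 := grad_unique Fr (by
    have := hb.mem 0 h0T
    rwa [hb.init] at this) (by
    have := h.mem 0 h0T
    rwa [h.init] at this)
  -- the integrals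
  have hdc : ContinuousOn (fun s => ‖z s - zb s‖) (Icc 0 t) := ((h.zc.sub hb.zc).norm).mono hsub
  have hIk : IntervalIntegrable (fun s => (t - s) ^ (-(3 / 4) : ℝ) * ‖z s - zb s‖) volume 0 t := by
    refine (ker_ii (by norm_num) 0 t t).mul_continuousOn ?_
    rw [hu0]; exact hdc
  set I : ℝ := ∫ s in (0 : ℝ)..t, (t - s) ^ (-(3 / 4) : ℝ) * ‖z s - zb s‖ with hI
  have hI0 : 0 ≤ I := intervalIntegral.integral_nonneg ht.1 fun s hs => by
    have : 0 ≤ t - s := by linarith [hs.2]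
    positivity
  set B : ℝ := (ω + C3 * Z ^ 2 * (δ ^ (1 / 8 : ℝ) * (ν ^ (-(7 / 8) : ℝ)
        * (8 * T ^ (1 / 8 : ℝ))))) + (2 * C3 * Z * ν ^ (-(3 / 4) : ℝ)) * I with hB
  have hB0 : 0 ≤ B := by positivity
  -- kernels
  have D1 : ∀ s ∈ Ioo 0 t, (ν * (t - s)) ^ (-(3 / 4) : ℝ) * min 1 (δ / (ν * (t - s)))
      ≤ δ ^ (1 / 8 : ℝ) * (ν ^ (-(7 / 8) : ℝ) * (t - s) ^ (-(7 / 8) : ℝ)) := by
    intro s hs
    have hts : 0 < t - s := by linarith [hs.2]
    have hτ : 0 < ν * (t - s) := by positivity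
    calc (ν * (t - s)) ^ (-(3 / 4) : ℝ) * min 1 (δ / (ν * (t - s)))
        ≤ (ν * (t - s)) ^ (-(3 / 4) : ℝ) * (δ / (ν * (t - s))) ^ (1 / 8 : ℝ) := by
          gcongr
          exact min_le_rpow (by positivity)
      _ = δ ^ (1 / 8 : ℝ) * ((ν * (t - s)) ^ (-(3 / 4) : ℝ) * (ν * (t - s)) ^ (-(1 / 8) : ℝ)) := by
          rw [Real.div_rpow hδ0 hτ.le, Real.rpow_neg hτ.le (1 / 8), div_eq_mul_inv]; ring
      _ = δ ^ (1 / 8 : ℝ) * (ν ^ (-(7 / 8) : ℝ) * (t - s) ^ (-(7 / 8) : ℝ)) := by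
          rw [← Real.rpow_add hτ, ← Real.mul_rpow hν.le hts.le]
          norm_num
  -- the sum
  refine E.tot (u t - ub t, z t - zb t) (W.sub_mem (h.mem t ht) (hb.mem t ht)) B hB0
    fun S => ?_
  set y : ι → ℝ := fun i => ⟪f i, z t - zb t⟫_ℝ with hy
  show ∑ i ∈ S, y i ^ 2 ≤ B ^ 2
  set Y : ℝ := Real.sqrt (∑ i ∈ S, y i ^ 2) with hYd
  have hYsq : Y ^ 2 = ∑ i ∈ S, y i ^ 2 := Real.sq_sqrt (Finset.sum_nonneg fun i _ => sq_nonneg _)
  have hY0 : 0 ≤ Y := Real.sqrt_nonneg _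
  have hMb : ContinuousOn (fun s => m (ub s)) (Icc 0 t) := hmb.mono hsub
  have hMd : ContinuousOn (fun s => m (u s) - m (ub s)) (Icc 0 t) := (hm.sub hmb).mono hsub
  have hec : ∀ l, ContinuousOn (fun s => ex l n s t) (Icc 0 t) := fun l => ex_cont hn.int l ht
  have hebc : ∀ l, ContinuousOn (fun s => ex l nb s t) (Icc 0 t) := fun l => ex_cont hnb.int l ht
  have hii : ∀ {φ : ℝ → ℝ}, ContinuousOn φ (Icc 0 t) → IntervalIntegrable φ volume 0 t := by
    intro φ hφ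
    exact ContinuousOn.intervalIntegrable (by rw [hu0]; exact hφ)
  have hc1 : ∀ i, ContinuousOn (fun s => lam i * (ex (lam i) n s t - ex (lam i) nb s t)
      * ⟪f i, m (ub s)⟫_ℝ) (Icc 0 t) := fun i =>
    (continuousOn_const.mul ((hec _).sub (hebc _))).mul (continuousOn_const.inner hMb)
  have hc2 : ∀ i, ContinuousOn (fun s => lam i * ex (lam i) n s t
      * ⟪f i, m (u s) - m (ub s)⟫_ℝ) (Icc 0 t) := fun i =>
    (continuousOn_const.mul (hec _)).mul (continuousOn_const.inner hMd)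
  have hc3 : ∀ i, ContinuousOn (fun s => lam i * (ex (lam i) n s t - ex (lam i) nb s t)
      * ⟪f i, F s⟫_ℝ) (Icc 0 t) := fun i =>
    (continuousOn_const.mul ((hec _).sub (hebc _))).mul
      (continuousOn_const.inner (hF.mono hsub))
  have hdec : ∀ i, y i = rem f lam n nb F (z 0) i t
      + (∫ s in (0 : ℝ)..t, lam i * (ex (lam i) n s t - ex (lam i) nb s t) * ⟪f i, m (ub s)⟫_ℝ)
      + ∫ s in (0 : ℝ)..t, lam i * ex (lam i) n s t * ⟪f i, m (u s) - m (ub s)⟫_ℝ := by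
    intro i
    have k1 := h.comp Fr E hn hF i ht
    have k2 := hb.comp Fr E hnb hF i ht
    rw [hz0] at k2
    simp only [hy, inner_sub_right]
    rw [k1, k2]
    unfold rem
    have e1 : (∫ s in (0 : ℝ)..t, lam i * Real.exp (-(lam i * ∫ r in s..t, n r))
        * (⟪f i, F s⟫_ℝ + ⟪f i, m (u s)⟫_ℝ))
        - (∫ s in (0 : ℝ)..t, lam i * Real.exp (-(lam i * ∫ r in s..t, nb r))
        * (⟪f i, F s⟫_ℝ + ⟪f i, m (ub s)⟫_ℝ))
        = (∫ s in (0 : ℝ)..t, lam i * (ex (lam i) n s t - ex (lam i) nb s t) * ⟪f i, F s⟫_ℝ)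
        + (∫ s in (0 : ℝ)..t, lam i * (ex (lam i) n s t - ex (lam i) nb s t) * ⟪f i, m (ub s)⟫_ℝ)
        + ∫ s in (0 : ℝ)..t, lam i * ex (lam i) n s t * ⟪f i, m (u s) - m (ub s)⟫_ℝ := by
      rw [← intervalIntegral.integral_sub, ← intervalIntegral.integral_add (hii (hc3 i))
        (hii (hc1 i)), ← intervalIntegral.integral_add
          (hii (φ := fun s => lam i * (ex (lam i) n s t - ex (lam i) nb s t) * ⟪f i, F s⟫_ℝ
            + lam i * (ex (lam i) n s t - ex (lam i) nb s t) * ⟪f i, m (ub s)⟫_ℝ)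
            ((hc3 i).add (hc1 i))) (hii (hc2 i))]
      · refine intervalIntegral.integral_congr fun s _ => ?_
        simp only [ex, inner_sub_right]
        ring
      · exact hii ((continuousOn_const.mul (hec (lam i))).mul
          ((continuousOn_const.inner (hF.mono hsub)).add (continuousOn_const.inner (hm.mono hsub))))
      · exact hii ((continuousOn_const.mul (hebc (lam i))).mul
          ((continuousOn_const.inner (hF.mono hsub)).add (continuousOn_const.inner hMb)))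
    simp only [inner_sub_right] at e1 ⊢
    have e2 : ex (lam i) n 0 t = Real.exp (-(lam i * ∫ r in (0 : ℝ)..t, n r)) := rfl
    have e3 : ex (lam i) nb 0 t = Real.exp (-(lam i * ∫ r in (0 : ℝ)..t, nb r)) := rfl
    rw [e2, e3]
    linarith
  -- the three parts
  have p1 : ∑ i ∈ S, y i * rem f lam n nb F (z 0) i t ≤ Y * ω := by
    have k := Finset.sum_mul_sq_le_sq_mul_sq S y (fun i => rem f lam n nb F (z 0) i t)
    have k2 : (∑ i ∈ S, y i * rem f lam n nb F (z 0) i t) ^ 2 ≤ (Y * ω) ^ 2 := by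
      refine k.trans ?_
      rw [mul_pow, hYsq]
      have := hR t ht S
      have h0 : 0 ≤ ∑ i ∈ S, y i ^ 2 := Finset.sum_nonneg fun i _ => sq_nonneg _
      gcongr
    exact (abs_le_of_sq_le_sq' k2 (by positivity)).2
  have κ1 : ∀ s ∈ Icc 0 t, ∀ p ∈ W, |⟪m (ub s), p.2⟫_ℝ|
      ≤ (C3 * Z ^ 2) * Real.sqrt (‖p.1‖ * ‖p.2‖) := by
    intro s hs p hp
    have k := Tb.bound _ (hb.mem s (hsub hs)) 0 W.zero_mem p hp
    simp only [Prod.fst_zero, Prod.snd_zero, m_zero Fr, sub_zero, norm_zero, add_zero] at k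
    have k2 := hzb s (hsub hs)
    have k3 := Real.sqrt_nonneg (‖p.1‖ * ‖p.2‖)
    calc _ ≤ C3 * (‖zb s‖ * ‖zb s‖ * Real.sqrt (‖p.1‖ * ‖p.2‖)) := k
      _ ≤ C3 * (Z * Z * Real.sqrt (‖p.1‖ * ‖p.2‖)) := by gcongr
      _ = _ := by ring
  have κ2 : ∀ s ∈ Icc 0 t, ∀ p ∈ W, |⟪m (u s) - m (ub s), p.2⟫_ℝ|
      ≤ (2 * C3 * Z * ‖z s - zb s‖) * Real.sqrt (‖p.1‖ * ‖p.2‖) := by
    intro s hs p hp
    have k := Tb.bound _ (h.mem s (hsub hs)) _ (hb.mem s (hsub hs)) p hp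
    have k2 := hzb s (hsub hs)
    have k1 := hz s (hsub hs)
    have k3 := Real.sqrt_nonneg (‖p.1‖ * ‖p.2‖)
    calc _ ≤ C3 * (‖z s - zb s‖ * (‖z s‖ + ‖zb s‖) * Real.sqrt (‖p.1‖ * ‖p.2‖)) := k
      _ ≤ C3 * (‖z s - zb s‖ * (Z + Z) * Real.sqrt (‖p.1‖ * ‖p.2‖)) := by gcongr
      _ = _ := by ring
  have hDsq : ∀ x : ℝ, 0 < x → (x ^ (-(3 / 4) : ℝ)) ^ 2 = x⁻¹ * x ^ (-(1 / 2) : ℝ) := by
    intro x hx
    rw [← Real.rpow_natCast, ← Real.rpow_mul hx.le, ← Real.rpow_neg_one, ← Real.rpow_add hx]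
    norm_num
  have hHsq : ∀ x : ℝ, 0 < x → (x ^ (-(1 / 2) : ℝ)) ^ 2 = x⁻¹ := by
    intro x hx
    rw [← Real.rpow_natCast, ← Real.rpow_mul hx.le, ← Real.rpow_neg_one]
    norm_num
  have q1 : ∀ s ∈ Ioo 0 t, ∑ i ∈ S, y i * (lam i * (ex (lam i) n s t - ex (lam i) nb s t)
      * ⟪f i, m (ub s)⟫_ℝ) ≤ (C3 * Z ^ 2) * (Y * (δ ^ (1 / 8 : ℝ) * (ν ^ (-(7 / 8) : ℝ)
        * (t - s) ^ (-(7 / 8) : ℝ)))) := by
    intro s hs
    have hts : 0 < t - s := by linarith [hs.2]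
    have hτ : 0 < ν * (t - s) := by positivity
    set τ := ν * (t - s) with hτd
    set μ := min 1 (δ / τ) with hμ
    have hμ0 : 0 ≤ μ := le_min zero_le_one (by positivity)
    have k := pair E (Q := m (ub s)) (κ := C3 * Z ^ 2) (by positivity)
      (κ1 s ⟨hs.1.le, hs.2.le⟩) S y (fun i => lam i * (ex (lam i) n s t - ex (lam i) nb s t))
      (Y := Y) (D := τ ^ (-(3 / 4) : ℝ) * μ) (P := τ⁻¹ * μ) (R := τ ^ (-(1 / 2) : ℝ) * μ)
      hY0 hYsq.ge (by positivity) (by positivity) (by positivity) ?_ ?_ ?_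
    · refine (le_abs_self _).trans (k.trans ?_)
      exact mul_le_mul_of_nonneg_left (mul_le_mul_of_nonneg_left (D1 s hs) hY0) (by positivity)
    · intro i _
      obtain ⟨d, hd0, hd1, hd2⟩ := ex_diff hn hnb hδ (E.pos i) hs.1.le hs.2.le ht.2
      have hl := E.pos i
      have a1 := wA hl hτ hd0 hd1
      have a2 : |lam i * (ex (lam i) n s t - ex (lam i) nb s t)| ≤ τ⁻¹ * μ := by
        rw [abs_mul, abs_of_pos hl]
        exact (mul_le_mul_of_nonneg_left hd2 hl.le).trans a1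
      show (lam i * (ex (lam i) n s t - ex (lam i) nb s t)) ^ 2 ≤ _
      rw [← sq_abs]
      gcongr
    · intro i _
      obtain ⟨d, hd0, hd1, hd2⟩ := ex_diff hn hnb hδ (E.pos i) hs.1.le hs.2.le ht.2
      have hl := E.pos i
      have a1 := wB hl hτ hd0 hd1
      show (lam i * (ex (lam i) n s t - ex (lam i) nb s t)) ^ 2 / lam i
        ≤ (τ ^ (-(1 / 2) : ℝ) * μ) ^ 2
      rw [mul_pow (τ ^ (-(1 / 2) : ℝ)), hHsq τ hτ, div_le_iff₀ hl]
      have a3 : (ex (lam i) n s t - ex (lam i) nb s t) ^ 2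
          ≤ (Real.exp (-(lam i * τ)) * min 1 d) ^ 2 := by
        rw [← sq_abs]
        gcongr
      calc (lam i * (ex (lam i) n s t - ex (lam i) nb s t)) ^ 2
          = lam i * (lam i * (ex (lam i) n s t - ex (lam i) nb s t) ^ 2) := by ring
        _ ≤ lam i * (lam i * (Real.exp (-(lam i * τ)) * min 1 d) ^ 2) := by gcongr
        _ ≤ lam i * (τ⁻¹ * μ ^ 2) := mul_le_mul_of_nonneg_left a1 hl.le
        _ = _ := by ring
    · rw [mul_pow, hDsq τ hτ]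
      exact le_of_eq (by ring)
  have q2 : ∀ s ∈ Ioo 0 t, ∑ i ∈ S, y i * (lam i * ex (lam i) n s t
      * ⟪f i, m (u s) - m (ub s)⟫_ℝ) ≤ Y * ((2 * C3 * Z * ν ^ (-(3 / 4) : ℝ))
        * ((t - s) ^ (-(3 / 4) : ℝ) * ‖z s - zb s‖)) := by
    intro s hs
    have hts : 0 < t - s := by linarith [hs.2]
    have hτ : 0 < ν * (t - s) := by positivity
    set τ := ν * (t - s) with hτd
    have hexb : ∀ i, 0 ≤ ex (lam i) n s t ∧ ex (lam i) n s t ≤ Real.exp (-(lam i * τ)) :=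
      fun i => ⟨(Real.exp_pos _).le, ex_le hn (E.pos i) hs.1.le hs.2.le ht.2⟩
    have k := pair E (Q := m (u s) - m (ub s)) (κ := 2 * C3 * Z * ‖z s - zb s‖) (by positivity)
      (κ2 s ⟨hs.1.le, hs.2.le⟩) S y (fun i => lam i * ex (lam i) n s t)
      (Y := Y) (D := τ ^ (-(3 / 4) : ℝ)) (P := τ⁻¹) (R := τ ^ (-(1 / 2) : ℝ))
      hY0 hYsq.ge (by positivity) (by positivity) (by positivity) ?_ ?_ ?_
    · refine (le_abs_self _).trans (k.trans (le_of_eq ?_))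
      rw [hτd, Real.mul_rpow hν.le hts.le]; ring
    · intro i _
      have hl := E.pos i
      have a1 : lam i * ex (lam i) n s t ≤ τ⁻¹ := by
        rw [inv_eq_one_div, le_div_iff₀ hτ]
        calc lam i * ex (lam i) n s t * τ ≤ lam i * Real.exp (-(lam i * τ)) * τ := by
              have := (hexb i).2
              gcongr
          _ = lam i * τ * Real.exp (-(lam i * τ)) := by ring
          _ ≤ 1 := x_exp
      have a0 : 0 ≤ lam i * ex (lam i) n s t := mul_nonneg hl.le (hexb i).1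
      show (lam i * ex (lam i) n s t) ^ 2 ≤ τ⁻¹ ^ 2
      gcongr
    · intro i _
      have hl := E.pos i
      show (lam i * ex (lam i) n s t) ^ 2 / lam i ≤ (τ ^ (-(1 / 2) : ℝ)) ^ 2
      rw [hHsq τ hτ, div_le_iff₀ hl, mul_pow, sq (lam i), mul_assoc, mul_comm τ⁻¹]
      refine mul_le_mul_of_nonneg_left ?_ hl.le
      rw [inv_eq_one_div, le_div_iff₀ hτ]
      have hE := Real.exp_pos (-(lam i * τ))
      have hE1 : Real.exp (-(lam i * τ)) ≤ 1 := Real.exp_le_one_iff.mpr (by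
        have := mul_pos hl hτ; linarith)
      calc lam i * ex (lam i) n s t ^ 2 * τ ≤ lam i * Real.exp (-(lam i * τ)) ^ 2 * τ := by
            have b1 := (hexb i).1
            have b2 := (hexb i).2
            gcongr
        _ = (lam i * τ * Real.exp (-(lam i * τ))) * Real.exp (-(lam i * τ)) := by ring
        _ ≤ 1 * 1 := mul_le_mul x_exp hE1 hE.le zero_le_one
        _ = 1 := one_mul 1
    · rw [hDsq τ hτ]
  have p2 : ∑ i ∈ S, y i * ∫ s in (0 : ℝ)..t, lam i * (ex (lam i) n s t - ex (lam i) nb s t)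
      * ⟪f i, m (ub s)⟫_ℝ ≤ Y * (C3 * Z ^ 2 * (δ ^ (1 / 8 : ℝ) * (ν ^ (-(7 / 8) : ℝ)
        * (8 * T ^ (1 / 8 : ℝ))))) := by
    have e1 : ∑ i ∈ S, y i * ∫ s in (0 : ℝ)..t, lam i * (ex (lam i) n s t - ex (lam i) nb s t)
        * ⟪f i, m (ub s)⟫_ℝ = ∫ s in (0 : ℝ)..t, ∑ i ∈ S, y i
          * (lam i * (ex (lam i) n s t - ex (lam i) nb s t) * ⟪f i, m (ub s)⟫_ℝ) := by
      rw [intervalIntegral.integral_finsetSum (fun i _ => (hii (hc1 i)).const_mul _)]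
      refine Finset.sum_congr rfl fun i _ => ?_
      rw [intervalIntegral.integral_const_mul]
    have e2 : ∫ s in (0 : ℝ)..t, (C3 * Z ^ 2) * (Y * (δ ^ (1 / 8 : ℝ) * (ν ^ (-(7 / 8) : ℝ)
        * (t - s) ^ (-(7 / 8) : ℝ)))) = Y * (C3 * Z ^ 2 * (δ ^ (1 / 8 : ℝ)
          * (ν ^ (-(7 / 8) : ℝ) * (8 * t ^ (1 / 8 : ℝ))))) := by
      rw [intervalIntegral.integral_const_mul, intervalIntegral.integral_const_mul,
        intervalIntegral.integral_const_mul, intervalIntegral.integral_const_mul,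
        ker_int (by norm_num)]
      have e0 : t ^ (-(7 / 8) + 1 : ℝ) / (-(7 / 8) + 1 : ℝ) = 8 * t ^ (1 / 8 : ℝ) := by
        norm_num
        ring
      rw [e0]; ring
    rw [e1]
    refine le_trans (intervalIntegral.integral_mono_on_of_le_Ioo ht.1 ?_ ?_ q1) ?_
    · exact hii (continuousOn_finsetSum _ fun i _ => continuousOn_const.mul (hc1 i))
    · exact (((((ker_ii (by norm_num) 0 t t).const_mul _).const_mul _).const_mul _).const_mul _)
    · rw [e2]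
      have : t ^ (1 / 8 : ℝ) ≤ T ^ (1 / 8 : ℝ) := Real.rpow_le_rpow ht.1 ht.2 (by norm_num)
      gcongr
  have p3 : ∑ i ∈ S, y i * ∫ s in (0 : ℝ)..t, lam i * ex (lam i) n s t
      * ⟪f i, m (u s) - m (ub s)⟫_ℝ ≤ Y * ((2 * C3 * Z * ν ^ (-(3 / 4) : ℝ)) * I) := by
    have e1 : ∑ i ∈ S, y i * ∫ s in (0 : ℝ)..t, lam i * ex (lam i) n s t
        * ⟪f i, m (u s) - m (ub s)⟫_ℝ = ∫ s in (0 : ℝ)..t, ∑ i ∈ S, y i
          * (lam i * ex (lam i) n s t * ⟪f i, m (u s) - m (ub s)⟫_ℝ) := by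
      rw [intervalIntegral.integral_finsetSum (fun i _ => (hii (hc2 i)).const_mul _)]
      refine Finset.sum_congr rfl fun i _ => ?_
      rw [intervalIntegral.integral_const_mul]
    have e2 : ∫ s in (0 : ℝ)..t, Y * ((2 * C3 * Z * ν ^ (-(3 / 4) : ℝ))
        * ((t - s) ^ (-(3 / 4) : ℝ) * ‖z s - zb s‖))
        = Y * ((2 * C3 * Z * ν ^ (-(3 / 4) : ℝ)) * I) := by
      rw [intervalIntegral.integral_const_mul, intervalIntegral.integral_const_mul]
    rw [e1, ← e2]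
    refine intervalIntegral.integral_mono_on_of_le_Ioo ht.1 ?_ ?_ q2
    · exact hii (continuousOn_finsetSum _ fun i _ => continuousOn_const.mul (hc2 i))
    · exact (hIk.const_mul _).const_mul _
  have hfin : Y ^ 2 ≤ Y * B := by
    have e : Y ^ 2 = (∑ i ∈ S, y i * rem f lam n nb F (z 0) i t)
        + (∑ i ∈ S, y i * ∫ s in (0 : ℝ)..t, lam i * (ex (lam i) n s t - ex (lam i) nb s t)
          * ⟪f i, m (ub s)⟫_ℝ)
        + ∑ i ∈ S, y i * ∫ s in (0 : ℝ)..t, lam i * ex (lam i) n s t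
          * ⟪f i, m (u s) - m (ub s)⟫_ℝ := by
      rw [hYsq, ← Finset.sum_add_distrib, ← Finset.sum_add_distrib]
      refine Finset.sum_congr rfl fun i _ => ?_
      conv_lhs => rw [sq]
      nth_rewrite 2 [hdec i]
      ring
    rw [e, hB]
    linarith
  rw [← hYsq]
  have hYB : Y ≤ B := by
    rcases hY0.eq_or_lt with h0 | h0
    · rw [← h0]; exact hB0
    · rw [sq] at hfin
      exact le_of_mul_le_mul_left hfin h0
  gcongr

end H772R2.NSV
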