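import Mathlib
import Pool.Agent.H772R2.NSV.Comp
import Pool.Agent.H772R2.NSG.Near

/-!
Smallness of the linear remainder, and the comparison theorem.
-/

set_option linter.unusedSectionVars false

open MeasureTheory Set Filter Topology Metric
open scoped InnerProductSpace NNReal ENNReal

namespace H772R2.NSV

open H772R2.NSR (Frame grad_unique prim_cont)
open H772R2.NSG (cs)

variable {H K : Type*} [NormedAddCommGroup H] [InnerProductSpace ℝ H] [CompleteSpace H]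
  [NormedAddCommGroup K] [InnerProductSpace ℝ K] [CompleteSpace K]

variable {W : Submodule ℝ (H × K)} {m : H → K} {C C3 : ℝ} {ν T : ℝ}
variable {ι : Type*} {g : ι → H} {f : ι → K} {lam : ι → ℝ}

theorem exp_int {l ν t : ℝ} (hν : 0 < ν) :
    ∫ s in (0 : ℝ)..t, l * Real.exp (-(l * (ν * (t - s)))) ≤ 1 / ν := by
  have hd : ∀ s ∈ uIcc 0 t, HasDerivAt (fun s => Real.exp (-(l * (ν * (t - s)))) / ν)
      (l * Real.exp (-(l * (ν * (t - s))))) s := by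
    intro s _
    have h1 : HasDerivAt (fun s : ℝ => -(l * (ν * (t - s)))) (l * ν) s := by
      have h0 : HasDerivAt (fun s : ℝ => t - s) (-1) s := (hasDerivAt_id s).const_sub t
      have := ((h0.const_mul ν).const_mul l).neg
      convert! this using 1
      ring
    have h2 := h1.exp.div_const ν
    convert! h2 using 1
    field_simp
  have hi : IntervalIntegrable (fun s => l * Real.exp (-(l * (ν * (t - s))))) volume 0 t :=
    (by fun_prop : Continuous fun s : ℝ => l * Real.exp (-(l * (ν * (t - s)))))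
      |>.intervalIntegrable _ _
  rw [intervalIntegral.integral_eq_sub_of_hasDerivAt hd hi]
  simp only [sub_self, mul_zero, neg_zero, Real.exp_zero, sub_zero]
  have := Real.exp_pos (-(l * (ν * t)))
  have h2 : 0 < Real.exp (-(l * (ν * t))) / ν := by positivity
  linarith

/-- the size of the data in the direction `i`. -/
noncomputable def ph (f : ι → K) (T : ℝ) (F F1 : ℝ → K) (z0 : K) (i : ι) : ℝ :=
  |⟪f i, z0⟫_ℝ| + (|⟪f i, F 0⟫_ℝ| + ∫ s in (0 : ℝ)..T, |⟪f i, F1 s⟫_ℝ|)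

theorem comp_i {F1 : ℝ → K} (hF1 : MemLp F1 2 (volume.restrict (Ioc 0 T))) (e : K) :
    MemLp (fun s => ⟪e, F1 s⟫_ℝ) 2 (volume.restrict (Ioc 0 T)) := by
  refine (hF1.const_smul ‖e‖).of_le ?_ (Eventually.of_forall fun s => ?_)
  · exact aestronglyMeasurable_const.inner hF1.aestronglyMeasurable
  · refine (norm_inner_le_norm _ _).trans (le_of_eq ?_)
    simp [norm_smul]

theorem fin_m (T : ℝ) : IsFiniteMeasure (volume.restrict (Ioc 0 T) : Measure ℝ) := by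
  rw [isFiniteMeasure_restrict]; simp

theorem prim_comp (hT : 0 ≤ T) {F F1 : ℝ → K} (hF1 : MemLp F1 2 (volume.restrict (Ioc 0 T)))
    (hF : ∀ a b, 0 ≤ a → a ≤ b → b ≤ T → F b - F a = ∫ s in a..b, F1 s) (e : K) {s : ℝ}
    (hs : s ∈ Icc 0 T) :
    |⟪e, F s⟫_ℝ| ≤ |⟪e, F 0⟫_ℝ| + ∫ s in (0 : ℝ)..T, |⟪e, F1 s⟫_ℝ| := by
  have := fin_m T
  have hi : IntegrableOn F1 (Ioc 0 T) := hF1.integrable (by norm_num)
  have h1 := hF 0 s le_rfl hs.1 hs.2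
  have h2 : F s = F 0 + ∫ r in (0 : ℝ)..s, F1 r := by rw [← h1]; abel
  have h3 : ⟪e, ∫ r in (0 : ℝ)..s, F1 r⟫_ℝ = ∫ r in (0 : ℝ)..s, ⟪e, F1 r⟫_ℝ := by
    rw [intervalIntegral.integral_of_le hs.1, intervalIntegral.integral_of_le hs.1]
    exact (integral_inner (𝕜 := ℝ) (hi.mono_set (Ioc_subset_Ioc_right hs.2)) e).symm
  rw [h2, inner_add_right, h3]
  refine (abs_add_le _ _).trans ?_
  gcongr
  have hci : IntegrableOn (fun r => ⟪e, F1 r⟫_ℝ) (Ioc 0 T) :=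
    (comp_i hF1 e).integrable (by norm_num)
  calc |∫ r in (0 : ℝ)..s, ⟪e, F1 r⟫_ℝ| ≤ ∫ r in (0 : ℝ)..s, |⟪e, F1 r⟫_ℝ| := by
        have := intervalIntegral.norm_integral_le_integral_norm (f := fun r => ⟪e, F1 r⟫_ℝ) hs.1
          (μ := volume)
        simpa [Real.norm_eq_abs] using this
    _ = ∫ r in Ioc 0 s, |⟪e, F1 r⟫_ℝ| := intervalIntegral.integral_of_le hs.1
    _ ≤ ∫ r in Ioc 0 T, |⟪e, F1 r⟫_ℝ| := setIntegral_mono_set hci.abs
        (Eventually.of_forall fun s => abs_nonneg _) (Ioc_subset_Ioc_right hs.2).eventuallyLE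
    _ = _ := (intervalIntegral.integral_of_le hT).symm

theorem ph_summable (hT : 0 ≤ T) (E : Eig W g f lam) {F F1 : ℝ → K} (z0 : K)
    (hF1 : MemLp F1 2 (volume.restrict (Ioc 0 T))) :
    Summable fun i => ph f T F F1 z0 i ^ 2 := by
  have := fin_m T
  have hF1sq : IntegrableOn (fun s => ‖F1 s‖ ^ 2) (Ioc 0 T) :=
    (memLp_two_iff_integrable_sq_norm hF1.aestronglyMeasurable).mp hF1
  refine summable_of_sum_le (c := 3 * (‖z0‖ ^ 2 + ‖F 0‖ ^ 2 + T * ∫ s in Ioc 0 T, ‖F1 s‖ ^ 2))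
    (fun i => sq_nonneg _) fun S => ?_
  have hb : ∀ x : K, ∑ i ∈ S, ⟪f i, x⟫_ℝ ^ 2 ≤ ‖x‖ ^ 2 := by
    intro x
    have := E.on.sum_inner_products_le (x := x) (s := S)
    simpa [Real.norm_eq_abs, sq_abs] using this
  have hci : ∀ i, IntegrableOn (fun s => ⟪f i, F1 s⟫_ℝ ^ 2) (Ioc 0 T) := fun i =>
    ((memLp_two_iff_integrable_sq_norm (comp_i hF1 (f i)).aestronglyMeasurable).mp
      (comp_i hF1 (f i))).congr (Eventually.of_forall fun s => by simp [sq_abs])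
  have h3 : ∀ i, (∫ s in (0 : ℝ)..T, |⟪f i, F1 s⟫_ℝ|) ^ 2
      ≤ T * ∫ s in Ioc 0 T, ⟪f i, F1 s⟫_ℝ ^ 2 := by
    intro i
    rw [intervalIntegral.integral_of_le hT]
    have k := cs (μ := volume.restrict (Ioc 0 T)) (a := fun s => |⟪f i, F1 s⟫_ℝ|)
      (b := fun _ => (1 : ℝ)) (comp_i hF1 (f i)).norm (memLp_const 1)
    have e1 : ∫ s in Ioc 0 T, |⟪f i, F1 s⟫_ℝ| * 1 = ∫ s in Ioc 0 T, |⟪f i, F1 s⟫_ℝ| := by simp
    have e2 : ∫ s in Ioc 0 T, ‖|⟪f i, F1 s⟫_ℝ|‖ ^ 2 = ∫ s in Ioc 0 T, ⟪f i, F1 s⟫_ℝ ^ 2 := by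
      refine integral_congr_ae (Eventually.of_forall fun s => ?_)
      simp [sq_abs]
    have e3 : ∫ _ in Ioc 0 T, ‖(1 : ℝ)‖ ^ 2 = T := by simp [hT]
    rw [e1, e2, e3] at k
    have h0 : 0 ≤ ∫ s in Ioc 0 T, |⟪f i, F1 s⟫_ℝ| := integral_nonneg fun s => abs_nonneg _
    have h1 : 0 ≤ ∫ s in Ioc 0 T, ⟪f i, F1 s⟫_ℝ ^ 2 := integral_nonneg fun s => sq_nonneg _
    calc (∫ s in Ioc 0 T, |⟪f i, F1 s⟫_ℝ|) ^ 2
        ≤ (Real.sqrt (∫ s in Ioc 0 T, ⟪f i, F1 s⟫_ℝ ^ 2) * Real.sqrt T) ^ 2 := by gcongr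
      _ = T * ∫ s in Ioc 0 T, ⟪f i, F1 s⟫_ℝ ^ 2 := by
          rw [mul_pow, Real.sq_sqrt h1, Real.sq_sqrt hT]; ring
  calc ∑ i ∈ S, ph f T F F1 z0 i ^ 2
      ≤ ∑ i ∈ S, 3 * (⟪f i, z0⟫_ℝ ^ 2 + ⟪f i, F 0⟫_ℝ ^ 2
        + T * ∫ s in Ioc 0 T, ⟪f i, F1 s⟫_ℝ ^ 2) := by
        refine Finset.sum_le_sum fun i _ => ?_
        have k := h3 i
        unfold ph
        set a := |⟪f i, z0⟫_ℝ| with ha
        set b := |⟪f i, F 0⟫_ℝ| with hb'
        set c := ∫ s in (0 : ℝ)..T, |⟪f i, F1 s⟫_ℝ| with hc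
        have ea : a ^ 2 = ⟪f i, z0⟫_ℝ ^ 2 := sq_abs _
        have eb : b ^ 2 = ⟪f i, F 0⟫_ℝ ^ 2 := sq_abs _
        rw [← ea, ← eb]
        nlinarith [sq_nonneg (a - b), sq_nonneg (a - c), sq_nonneg (b - c)]
    _ = 3 * (∑ i ∈ S, ⟪f i, z0⟫_ℝ ^ 2 + ∑ i ∈ S, ⟪f i, F 0⟫_ℝ ^ 2
        + T * ∫ s in Ioc 0 T, ∑ i ∈ S, ⟪f i, F1 s⟫_ℝ ^ 2) := by
        rw [integral_finsetSum _ (fun i _ => hci i), Finset.mul_sum, ← Finset.sum_add_distrib,
          ← Finset.sum_add_distrib, Finset.mul_sum]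
    _ ≤ _ := by
        have k1 := hb z0
        have k2 := hb (F 0)
        have k3 : ∫ s in Ioc 0 T, ∑ i ∈ S, ⟪f i, F1 s⟫_ℝ ^ 2 ≤ ∫ s in Ioc 0 T, ‖F1 s‖ ^ 2 := by
          refine integral_mono (integrable_finsetSum _ fun i _ => hci i) hF1sq fun s => ?_
          exact hb (F1 s)
        gcongr

theorem rem_le (E : Eig W g f lam) (hν : 0 < ν) (hT : 0 ≤ T) {F F1 : ℝ → K} {z0 : K}
    (hF1 : MemLp F1 2 (volume.restrict (Ioc 0 T)))
    (hF : ∀ a b, 0 ≤ a → a ≤ b → b ≤ T → F b - F a = ∫ s in a..b, F1 s)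
    {T' : ℝ} (hT' : T' ∈ Icc 0 T) {n nb : ℝ → ℝ} (hn : Vn ν T' n) (hnb : Vn ν T' nb) {δ : ℝ}
    (hδ : ∫ s in (0 : ℝ)..T', |n s - nb s| ≤ δ) {t : ℝ} (ht : t ∈ Icc 0 T') (i : ι) :
    |rem f lam n nb F z0 i t| ≤ (1 + 1 / ν) * ph f T F F1 z0 i ∧
    |rem f lam n nb F z0 i t| ≤ (lam i + lam i ^ 2 * T) * δ * ph f T F F1 z0 i := by
  have hl := E.pos i
  have hFc := prim_cont hF1 hF
  have htT : t ≤ T := ht.2.trans hT'.2
  have hδ0 : 0 ≤ δ := le_trans (intervalIntegral.integral_nonneg hT'.1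
    fun s _ => abs_nonneg _) hδ
  set A : ℝ := |⟪f i, z0⟫_ℝ| with hA
  set Bq : ℝ := |⟪f i, F 0⟫_ℝ| + ∫ s in (0 : ℝ)..T, |⟪f i, F1 s⟫_ℝ| with hB
  have hph : ph f T F F1 z0 i = A + Bq := rfl
  have hA0 : 0 ≤ A := abs_nonneg _
  have hB0 : 0 ≤ Bq := add_nonneg (abs_nonneg _)
    (intervalIntegral.integral_nonneg hT fun s _ => abs_nonneg _)
  have hFb : ∀ s ∈ Icc 0 t, |⟪f i, F s⟫_ℝ| ≤ Bq := fun s hs =>
    prim_comp hT hF1 hF (f i) ⟨hs.1, hs.2.trans htT⟩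
  have hd : ∀ s ∈ Icc 0 t, |ex (lam i) n s t - ex (lam i) nb s t|
      ≤ Real.exp (-(lam i * (ν * (t - s)))) ∧
      |ex (lam i) n s t - ex (lam i) nb s t| ≤ lam i * δ := by
    intro s hs
    obtain ⟨d, hd0, hd1, hd2⟩ := ex_diff hn hnb hδ hl hs.1 hs.2 ht.2
    have hE := Real.exp_pos (-(lam i * (ν * (t - s))))
    have hE1 : Real.exp (-(lam i * (ν * (t - s)))) ≤ 1 := Real.exp_le_one_iff.mpr (by
      have : 0 ≤ t - s := by linarith [hs.2]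
      have : 0 ≤ lam i * (ν * (t - s)) := by positivity
      linarith)
    have hm0 : 0 ≤ min 1 d := le_min zero_le_one hd0
    constructor
    · refine hd2.trans ?_
      calc _ ≤ Real.exp (-(lam i * (ν * (t - s)))) * 1 := by gcongr; exact min_le_left _ _
        _ = _ := mul_one _
    · refine hd2.trans ?_
      calc _ ≤ 1 * d := by gcongr; exact min_le_right _ _
        _ = d := one_mul d
        _ ≤ _ := hd1
  have hu0 : uIcc 0 t = Icc 0 t := uIcc_of_le ht.1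
  have hcn : ContinuousOn (fun s => lam i * (ex (lam i) n s t - ex (lam i) nb s t)
      * ⟪f i, F s⟫_ℝ) (Icc 0 t) :=
    (continuousOn_const.mul ((ex_cont hn.int _ ht).sub (ex_cont hnb.int _ ht))).mul
      (continuousOn_const.inner (hFc.mono (Icc_subset_Icc_right htT)))
  have hint : ∀ {φ : ℝ → ℝ}, ContinuousOn φ (Icc 0 t) → (∀ s ∈ Icc 0 t,
      |lam i * (ex (lam i) n s t - ex (lam i) nb s t) * ⟪f i, F s⟫_ℝ| ≤ φ s) →
      |∫ s in (0 : ℝ)..t, lam i * (ex (lam i) n s t - ex (lam i) nb s t) * ⟪f i, F s⟫_ℝ|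
        ≤ ∫ s in (0 : ℝ)..t, φ s := by
    intro φ hφ hle
    have h1 := intervalIntegral.norm_integral_le_integral_norm (μ := volume)
      (f := fun s => lam i * (ex (lam i) n s t - ex (lam i) nb s t) * ⟪f i, F s⟫_ℝ) ht.1
    refine h1.trans (intervalIntegral.integral_mono_on ht.1 ?_ ?_ fun s hs => hle s hs)
    · exact ContinuousOn.intervalIntegrable (by rw [hu0]; exact hcn.norm)
    · exact ContinuousOn.intervalIntegrable (by rw [hu0]; exact hφ)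
  have h0t : (0 : ℝ) ∈ Icc 0 t := ⟨le_rfl, ht.1⟩
  unfold rem
  rw [hph]
  constructor
  · have k1 : |∫ s in (0 : ℝ)..t, lam i * (ex (lam i) n s t - ex (lam i) nb s t)
        * ⟪f i, F s⟫_ℝ| ≤ 1 / ν * Bq := by
      refine (hint (φ := fun s => (lam i * Real.exp (-(lam i * (ν * (t - s))))) * Bq)
        (by fun_prop) fun s hs => ?_).trans ?_
      · rw [abs_mul, abs_mul, abs_of_pos hl]
        have a1 := (hd s hs).1
        have a2 := hFb s hs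
        gcongr
      · rw [intervalIntegral.integral_mul_const]
        gcongr
        exact exp_int hν
    have k2 : |(ex (lam i) n 0 t - ex (lam i) nb 0 t) * ⟪f i, z0⟫_ℝ| ≤ A := by
      rw [abs_mul]
      have a1 := (hd 0 h0t).1
      have hE1 : Real.exp (-(lam i * (ν * (t - 0)))) ≤ 1 := Real.exp_le_one_iff.mpr (by
        have : 0 ≤ t - 0 := by linarith [ht.1]
        have : 0 ≤ lam i * (ν * (t - 0)) := by positivity
        linarith)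
      calc _ ≤ 1 * A := by gcongr; exact a1.trans hE1
        _ = A := one_mul A
    refine (abs_add_le _ _).trans ((add_le_add k2 k1).trans ?_)
    have : 0 < 1 / ν := by positivity
    nlinarith
  · have k1 : |∫ s in (0 : ℝ)..t, lam i * (ex (lam i) n s t - ex (lam i) nb s t)
        * ⟪f i, F s⟫_ℝ| ≤ lam i ^ 2 * T * δ * Bq := by
      refine (hint (φ := fun _ => (lam i * (lam i * δ)) * Bq)
        continuousOn_const fun s hs => ?_).trans ?_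
      · rw [abs_mul, abs_mul, abs_of_pos hl]
        have a1 := (hd s hs).2
        have a2 := hFb s hs
        gcongr
      · rw [intervalIntegral.integral_const, smul_eq_mul, sub_zero]
        calc t * (lam i * (lam i * δ) * Bq) ≤ T * (lam i * (lam i * δ) * Bq) := by gcongr
          _ = _ := by ring
    have k2 : |(ex (lam i) n 0 t - ex (lam i) nb 0 t) * ⟪f i, z0⟫_ℝ| ≤ lam i * δ * A := by
      rw [abs_mul]
      exact mul_le_mul_of_nonneg_right (hd 0 h0t).2 hA0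
    refine (abs_add_le _ _).trans ((add_le_add k2 k1).trans ?_)
    have a1 : 0 ≤ lam i * δ * Bq := by positivity
    have a2 : 0 ≤ lam i ^ 2 * T * δ * A := by positivity
    nlinarith

theorem rem_small (E : Eig W g f lam) (hν : 0 < ν) (hT : 0 ≤ T) {F F1 : ℝ → K} {z0 : K}
    (hF1 : MemLp F1 2 (volume.restrict (Ioc 0 T)))
    (hF : ∀ a b, 0 ≤ a → a ≤ b → b ≤ T → F b - F a = ∫ s in a..b, F1 s)
    {ω : ℝ} (hω : 0 < ω) : ∃ δ0 : ℝ, 0 < δ0 ∧ ∀ T' ∈ Icc 0 T, ∀ n nb : ℝ → ℝ,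
      Vn ν T' n → Vn ν T' nb → ∀ δ ≤ δ0, ∫ s in (0 : ℝ)..T', |n s - nb s| ≤ δ →
      ∀ t ∈ Icc 0 T', ∀ S : Finset ι, ∑ i ∈ S, rem f lam n nb F z0 i t ^ 2 ≤ ω ^ 2 := by
  classical
  have hsum := ph_summable hT E (F := F) z0 hF1
  set c0 : ℝ := 1 + 1 / ν with hc0
  have hc0p : 0 < c0 := by positivity
  obtain ⟨S0, hS0⟩ := summable_iff_vanishing_norm.mp hsum (ω ^ 2 / (2 * c0 ^ 2)) (by positivity)
  set A : ℝ := ∑ i ∈ S0, ((lam i + lam i ^ 2 * T) * ph f T F F1 z0 i) ^ 2 with hA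
  have hA0 : 0 ≤ A := Finset.sum_nonneg fun i _ => sq_nonneg _
  refine ⟨ω / (2 * (A + 1)), by positivity, ?_⟩
  intro T' hT' n nb hn hnb δ hδ0 hδ t ht S
  have hδn : 0 ≤ δ := le_trans (intervalIntegral.integral_nonneg hT'.1
    fun s _ => abs_nonneg _) hδ
  have hle := fun i => rem_le E hν hT hF1 hF (z0 := z0) hT' hn hnb hδ ht i
  have hphn : ∀ i, 0 ≤ ph f T F F1 z0 i := fun i => by
    have := (hle i).1
    have h1 := abs_nonneg (rem f lam n nb F z0 i t)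
    by_contra hcon
    have := mul_neg_of_pos_of_neg hc0p (not_le.mp hcon)
    linarith
  rw [← Finset.sum_filter_add_sum_filter_not S (fun i => i ∈ S0)]
  have p1 : ∑ i ∈ S with i ∈ S0, rem f lam n nb F z0 i t ^ 2 ≤ ω ^ 2 / 2 := by
    calc ∑ i ∈ S with i ∈ S0, rem f lam n nb F z0 i t ^ 2
        ≤ ∑ i ∈ S0, rem f lam n nb F z0 i t ^ 2 :=
          Finset.sum_le_sum_of_subset_of_nonneg (fun i hi => (Finset.mem_filter.mp hi).2)
            (fun i _ _ => sq_nonneg _)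
      _ ≤ ∑ i ∈ S0, ((lam i + lam i ^ 2 * T) * ph f T F F1 z0 i) ^ 2 * δ ^ 2 := by
          refine Finset.sum_le_sum fun i _ => ?_
          rw [← sq_abs, ← mul_pow]
          have := (hle i).2
          gcongr
          linarith
      _ = A * δ ^ 2 := by rw [← Finset.sum_mul]
      _ ≤ A * (ω / (2 * (A + 1))) ^ 2 := by gcongr
      _ ≤ ω ^ 2 / 2 := by
          rw [div_pow, mul_div_assoc', div_le_div_iff₀ (by positivity) (by norm_num)]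
          nlinarith [sq_nonneg ω, mul_nonneg hA0 (sq_nonneg ω), sq_nonneg A,
            mul_nonneg (mul_nonneg hA0 hA0) (sq_nonneg ω)]
  have p2 : ∑ i ∈ S with i ∉ S0, rem f lam n nb F z0 i t ^ 2 ≤ ω ^ 2 / 2 := by
    have k := hS0 (S.filter fun i => i ∉ S0) (by
      rw [Finset.disjoint_left]
      intro i hi
      exact (Finset.mem_filter.mp hi).2)
    rw [Real.norm_of_nonneg (Finset.sum_nonneg fun i _ => sq_nonneg _)] at k
    calc ∑ i ∈ S with i ∉ S0, rem f lam n nb F z0 i t ^ 2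
        ≤ ∑ i ∈ S with i ∉ S0, c0 ^ 2 * ph f T F F1 z0 i ^ 2 := by
          refine Finset.sum_le_sum fun i _ => ?_
          rw [← sq_abs, ← mul_pow]
          have := (hle i).1
          gcongr
      _ = c0 ^ 2 * ∑ i ∈ S with i ∉ S0, ph f T F F1 z0 i ^ 2 := by rw [Finset.mul_sum]
      _ ≤ c0 ^ 2 * (ω ^ 2 / (2 * c0 ^ 2)) := by gcongr
      _ = ω ^ 2 / 2 := by field_simp
  linarith

theorem sgc_mono {T' A : ℝ} (hT' : T' ∈ Icc 0 T) (hA : 0 ≤ A) : sgc T' A ≤ sgc T A := by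
  unfold sgc
  have h0 := hT'.1
  have h1 := hT'.2
  have h2 : 0 ≤ T := h0.trans h1
  have h3 : 0 ≤ T * (16 * A) ^ 8 + 1 := by positivity
  gcongr

theorem comp_small (Fr : Frame W m C) (Tb : TriB W m C3) (E : Eig W g f lam) (hν : 0 < ν)
    (hT : 0 ≤ T) {F F1 : ℝ → K} {x0 : H} {z0 : K} (h0 : (x0, z0) ∈ W)
    (hF1 : MemLp F1 2 (volume.restrict (Ioc 0 T)))
    (hF : ∀ a b, 0 ≤ a → a ≤ b → b ≤ T → F b - F a = ∫ s in a..b, F1 s) {Z : ℝ} (hZ : 0 ≤ Z)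
    {ω : ℝ} (hω : 0 < ω) : ∃ δ0 : ℝ, 0 < δ0 ∧ ∀ T' ∈ Icc 0 T, ∀ (n nb : ℝ → ℝ)
      (u ub : ℝ → H) (z zb : ℝ → K), Vn ν T' n → Vn ν T' nb →
      Reg W m T' n F x0 u z → Reg W m T' nb F x0 ub zb →
      (∀ t ∈ Icc 0 T', ‖z t‖ ≤ Z) → (∀ t ∈ Icc 0 T', ‖zb t‖ ≤ Z) →
      ∫ s in (0 : ℝ)..T', |n s - nb s| ≤ δ0 → ∀ t ∈ Icc 0 T', ‖z t - zb t‖ ≤ ω := by
  have hC3 := Tb.nonneg
  set A : ℝ := 2 * C3 * Z * ν ^ (-(3 / 4) : ℝ) with hA
  have hA0 : 0 ≤ A := by positivity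
  set s0 : ℝ := sgc T A with hs0
  have hs0p : 0 < s0 := sgc_pos T A
  set Kc : ℝ := C3 * Z ^ 2 * (ν ^ (-(7 / 8) : ℝ) * (8 * T ^ (1 / 8 : ℝ))) with hKc
  have hKc0 : 0 ≤ Kc := by positivity
  set ω1 : ℝ := ω / (2 * s0) with hω1
  have hω1p : 0 < ω1 := by positivity
  obtain ⟨δ1, hδ1, hrem⟩ := rem_small E hν hT (z0 := z0) hF1 hF hω1p
  set δ2 : ℝ := (ω1 / (Kc + 1)) ^ 8 with hδ2
  have hδ2p : 0 < δ2 := by positivity
  refine ⟨min δ1 δ2, lt_min hδ1 hδ2p, ?_⟩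
  intro T' hT' n nb u ub z zb hn hnb h hb hz hzb hδ
  have hFc := prim_cont hF1 hF
  have hz0 : z 0 = z0 := h.grad0 Fr hT'.1 h0
  set δ : ℝ := min δ1 δ2 with hδd
  have hδ0 : 0 ≤ δ := (lt_min hδ1 hδ2p).le
  have hKδ : Kc * δ ^ (1 / 8 : ℝ) ≤ ω1 := by
    have h1 : δ ^ (1 / 8 : ℝ) ≤ ω1 / (Kc + 1) := by
      calc δ ^ (1 / 8 : ℝ) ≤ δ2 ^ (1 / 8 : ℝ) :=
            Real.rpow_le_rpow hδ0 (min_le_right _ _) (by norm_num)
        _ = ω1 / (Kc + 1) := by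
            rw [hδ2, ← Real.rpow_natCast, ← Real.rpow_mul (by positivity)]
            norm_num
    calc Kc * δ ^ (1 / 8 : ℝ) ≤ Kc * (ω1 / (Kc + 1)) := by gcongr
      _ ≤ (Kc + 1) * (ω1 / (Kc + 1)) := by gcongr; linarith
      _ = ω1 := by field_simp
  set ε : ℝ := ω1 + C3 * Z ^ 2 * (δ ^ (1 / 8 : ℝ) * (ν ^ (-(7 / 8) : ℝ)
        * (8 * T' ^ (1 / 8 : ℝ)))) with hε
  have hT'0 := hT'.1
  have hε0 : 0 ≤ ε := by positivity
  have hε2 : ε ≤ 2 * ω1 := by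
    have h1 : T' ^ (1 / 8 : ℝ) ≤ T ^ (1 / 8 : ℝ) := Real.rpow_le_rpow hT'.1 hT'.2 (by norm_num)
    have h2 : C3 * Z ^ 2 * (δ ^ (1 / 8 : ℝ) * (ν ^ (-(7 / 8) : ℝ)
        * (8 * T' ^ (1 / 8 : ℝ)))) ≤ Kc * δ ^ (1 / 8 : ℝ) := by
      rw [hKc]
      calc C3 * Z ^ 2 * (δ ^ (1 / 8 : ℝ) * (ν ^ (-(7 / 8) : ℝ) * (8 * T' ^ (1 / 8 : ℝ))))
          ≤ C3 * Z ^ 2 * (δ ^ (1 / 8 : ℝ) * (ν ^ (-(7 / 8) : ℝ) * (8 * T ^ (1 / 8 : ℝ)))) := by
            gcongr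
        _ = _ := by ring
    rw [hε]; linarith
  have hest := fun t ht => comp_est Fr Tb E hν hn hnb (hFc.mono (Icc_subset_Icc_right hT'.2)) h hb
    hz hzb hδ0 hδ hω1p.le (by
      rw [hz0]
      exact hrem T' hT' n nb hn hnb δ (min_le_left _ _) hδ) (t := t) ht
  have hg := sing_gronwall (T := T') (A := A) (ε := ε) hT'.1 hA0 hε0
    (y := fun t => ‖z t - zb t‖) (h.zc.sub hb.zc).norm (fun t _ => norm_nonneg _) hest
  intro t ht
  calc ‖z t - zb t‖ ≤ sgc T' A * ε := hg t ht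
    _ ≤ s0 * (2 * ω1) := by
        have := sgc_mono (T := T) hT' hA0
        have := (sgc_pos T' A).le
        gcongr
    _ = ω := by rw [hω1]; field_simp

end H772R2.NSV
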