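import Mathlib
import Pool.Agent.H772R2.NSV.Rem

/-!
Limits of regular solutions.
-/

set_option linter.unusedSectionVars false

open MeasureTheory Set Filter Topology Metric
open scoped InnerProductSpace NNReal ENNReal

namespace H772R2.NSV

open H772R2.NSR (Frame grad_unique prim_cont)

variable {H K : Type*} [NormedAddCommGroup H] [InnerProductSpace ℝ H] [CompleteSpace H]
  [NormedAddCommGroup K] [InnerProductSpace ℝ K] [CompleteSpace K]

variable {W : Submodule ℝ (H × K)} {m : H → K} {C C3 : ℝ} {ν T : ℝ}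

/-- convergence of weighted integrals. -/
theorem weighted {n : ℝ → ℝ} {nn : ℕ → ℝ → ℝ} (hn : IntegrableOn n (Ioc 0 T))
    (hnn : ∀ j, IntegrableOn (nn j) (Ioc 0 T))
    (hconv : Tendsto (fun j => ∫ s in (0 : ℝ)..T, |nn j s - n s|) atTop (𝓝 0))
    {φ : ℕ → ℝ → ℝ} {ψ : ℝ → ℝ} {M : ℝ} (hc : ∀ j, ContinuousOn (φ j) (Icc 0 T))
    (hM : ∀ j, ∀ t ∈ Icc 0 T, |φ j t| ≤ M)
    (hl : ∀ t ∈ Icc 0 T, Tendsto (fun j => φ j t) atTop (𝓝 (ψ t))) {t : ℝ} (ht : t ∈ Icc 0 T) :
    Tendsto (fun j => ∫ s in (0 : ℝ)..t, nn j s * φ j s) atTop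
      (𝓝 (∫ s in (0 : ℝ)..t, n s * ψ s)) := by
  have hT : 0 ≤ T := ht.1.trans ht.2
  have hM0 : 0 ≤ M := (abs_nonneg _).trans (hM 0 t ht)
  have hsub : Icc 0 t ⊆ Icc 0 T := Icc_subset_Icc_right ht.2
  have hu : uIcc 0 t = Icc 0 t := uIcc_of_le ht.1
  have hφc : ∀ j, ContinuousOn (φ j) (uIcc 0 t) := fun j => by rw [hu]; exact (hc j).mono hsub
  have i1 : ∀ j, IntervalIntegrable (fun s => (nn j s - n s) * φ j s) volume 0 t := fun j =>
    (ii_of_on ((hnn j).sub hn) le_rfl ht.1 ht.2).mul_continuousOn (hφc j)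
  have i2 : ∀ j, IntervalIntegrable (fun s => n s * φ j s) volume 0 t := fun j =>
    (ii_of_on hn le_rfl ht.1 ht.2).mul_continuousOn (hφc j)
  have e1 : ∀ j, ∫ s in (0 : ℝ)..t, nn j s * φ j s
      = (∫ s in (0 : ℝ)..t, (nn j s - n s) * φ j s) + ∫ s in (0 : ℝ)..t, n s * φ j s := by
    intro j
    rw [← intervalIntegral.integral_add (i1 j) (i2 j)]
    refine intervalIntegral.integral_congr fun s _ => ?_
    show nn j s * φ j s = (nn j s - n s) * φ j s + n s * φ j s
    ring
  simp_rw [e1]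
  have l1 : Tendsto (fun j => ∫ s in (0 : ℝ)..t, (nn j s - n s) * φ j s) atTop (𝓝 0) := by
    have h1 := hconv.mul_const M
    rw [zero_mul] at h1
    refine squeeze_zero_norm (fun j => ?_) h1
    have hi : IntegrableOn (fun s => nn j s - n s) (Ioc 0 T) := (hnn j).sub hn
    calc ‖∫ s in (0 : ℝ)..t, (nn j s - n s) * φ j s‖
        ≤ ∫ s in (0 : ℝ)..t, ‖(nn j s - n s) * φ j s‖ :=
          intervalIntegral.norm_integral_le_integral_norm ht.1
      _ ≤ ∫ s in (0 : ℝ)..t, |nn j s - n s| * M := by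
          refine intervalIntegral.integral_mono_on ht.1 (i1 j).norm
            ((ii_of_on hi.abs le_rfl ht.1 ht.2).mul_const M) fun s hs => ?_
          rw [norm_mul, Real.norm_eq_abs, Real.norm_eq_abs]
          exact mul_le_mul_of_nonneg_left (hM j s (hsub hs)) (abs_nonneg _)
      _ = (∫ s in Ioc 0 t, |nn j s - n s|) * M := by
          rw [intervalIntegral.integral_mul_const, intervalIntegral.integral_of_le ht.1]
      _ ≤ (∫ s in Ioc 0 T, |nn j s - n s|) * M :=
          mul_le_mul_of_nonneg_right (setIntegral_mono_set hi.abs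
            (Eventually.of_forall fun s => abs_nonneg _)
            (Ioc_subset_Ioc_right ht.2).eventuallyLE) hM0
      _ = _ := by rw [intervalIntegral.integral_of_le hT]
  have l2 : Tendsto (fun j => ∫ s in (0 : ℝ)..t, n s * φ j s) atTop
      (𝓝 (∫ s in (0 : ℝ)..t, n s * ψ s)) := by
    refine intervalIntegral.tendsto_integral_filter_of_dominated_convergence
      (fun s => |n s| * M) ?_ ?_ ?_ ?_
    · exact Eventually.of_forall fun j => by
        rw [uIoc_of_le ht.1]
        exact (i2 j).1.aestronglyMeasurable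
    · refine Eventually.of_forall fun j => Eventually.of_forall fun s hs => ?_
      rw [uIoc_of_le ht.1] at hs
      rw [norm_mul, Real.norm_eq_abs, Real.norm_eq_abs]
      exact mul_le_mul_of_nonneg_left (hM j s (hsub (Ioc_subset_Icc_self hs))) (abs_nonneg _)
    · exact (ii_of_on hn.abs le_rfl ht.1 ht.2).mul_const M
    · refine Eventually.of_forall fun s hs => ?_
      rw [uIoc_of_le ht.1] at hs
      exact (hl s (hsub (Ioc_subset_Icc_self hs))).const_mul _
  simpa using l1.add l2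

variable {n : ℝ → ℝ} {F : ℝ → K} {x0 : H} {u : ℝ → H} {z : ℝ → K}
  {nn : ℕ → ℝ → ℝ} {uu : ℕ → ℝ → H} {zz : ℕ → ℝ → K}

theorem Reg.limit (Fr : Frame W m C) (hF : ContinuousOn F (Icc 0 T)) (hn : IntegrableOn n (Ioc 0 T))
    (hnn : ∀ j, IntegrableOn (nn j) (Ioc 0 T))
    (hconv : Tendsto (fun j => ∫ s in (0 : ℝ)..T, |nn j s - n s|) atTop (𝓝 0))
    (hR : ∀ j, Reg W m T (nn j) F x0 (uu j) (zz j)) {Z : ℝ}
    (hZ : ∀ j, ∀ t ∈ Icc 0 T, ‖zz j t‖ ≤ Z)
    (hz : TendstoUniformlyOn zz z atTop (Icc 0 T))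
    (hu : ∀ t ∈ Icc 0 T, Tendsto (fun j => uu j t) atTop (𝓝 (u t))) (hT : 0 ≤ T) :
    Reg W m T n F x0 u z ∧ ∀ t ∈ Icc 0 T, ‖z t‖ ≤ Z := by
  have hzp : ∀ t ∈ Icc 0 T, Tendsto (fun j => zz j t) atTop (𝓝 (z t)) := fun t ht =>
    hz.tendsto_at ht
  have hzZ : ∀ t ∈ Icc 0 T, ‖z t‖ ≤ Z := fun t ht =>
    le_of_tendsto (hzp t ht).norm (Eventually.of_forall fun j => hZ j t ht)
  have hmem : ∀ t ∈ Icc 0 T, (u t, z t) ∈ W := fun t ht =>
    Fr.closedW.mem_of_tendsto ((hu t ht).prodMk_nhds (hzp t ht))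
      (Eventually.of_forall fun j => (hR j).mem t ht)
  have hzc : ContinuousOn z (Icc 0 T) :=
    hz.continuousOn (Frequently.of_forall fun j => (hR j).zc)
  have hmp : ∀ t ∈ Icc 0 T, Tendsto (fun j => m (uu j t)) atTop (𝓝 (m (u t))) := by
    intro t ht
    rw [tendsto_iff_norm_sub_tendsto_zero]
    have h1 := (tendsto_iff_norm_sub_tendsto_zero.mp (hzp t ht)).const_mul (2 * (1 + C) * Z)
    rw [mul_zero] at h1
    exact squeeze_zero (fun j => norm_nonneg _) (fun j =>
      m_lipZ Fr ((hR j).mem t ht) (hmem t ht) (hZ j t ht) (hzZ t ht)) h1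
  have hmb : ∀ j, ∀ t ∈ Icc 0 T, ‖m (uu j t)‖ ≤ C * Z ^ 2 := by
    intro j t ht
    have h1 := H772R2.NSG.norm_m_le Fr ((hR j).mem t ht)
    have h2 := hZ j t ht
    have hC := Fr.C0
    simp only at h1
    calc ‖m (uu j t)‖ ≤ C * ‖zz j t‖ ^ 2 := h1
      _ ≤ _ := by gcongr
  have h0T : (0 : ℝ) ∈ Icc 0 T := ⟨le_rfl, hT⟩
  refine ⟨⟨?_, hmem, hzc, ?_, ?_⟩, hzZ⟩
  · refine tendsto_nhds_unique (hu 0 h0T) ?_
    simp only [(hR _).init]
    exact tendsto_const_nhds
  · intro p hp t ht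
    have hsub : Icc 0 t ⊆ Icc 0 T := Icc_subset_Icc_right ht.2
    have huI : uIcc 0 t = Icc 0 t := uIcc_of_le ht.1
    have l1 : Tendsto (fun j => ⟪uu j t - x0, p.1⟫_ℝ) atTop (𝓝 ⟪u t - x0, p.1⟫_ℝ) :=
      ((hu t ht).sub tendsto_const_nhds).inner tendsto_const_nhds
    have hcz : ∀ j, ContinuousOn (fun s => ⟪zz j s, p.2⟫_ℝ) (Icc 0 T) := fun j =>
      (hR j).zc.inner continuousOn_const
    have hcm : ∀ j, ContinuousOn (fun s => ⟪F s + m (uu j s), p.2⟫_ℝ) (Icc 0 T) := fun j =>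
      (hF.add ((hR j).mc Fr)).inner continuousOn_const
    have l2 := weighted hn hnn hconv (φ := fun j s => ⟪zz j s, p.2⟫_ℝ)
      (ψ := fun s => ⟪z s, p.2⟫_ℝ) (M := Z * ‖p.2‖) hcz (fun j s hs =>
        (abs_real_inner_le_norm _ _).trans (by gcongr; exact hZ j s hs))
      (fun s hs => (hzp s hs).inner tendsto_const_nhds) ht
    have l3 : Tendsto (fun j => ∫ s in (0 : ℝ)..t, ⟪F s + m (uu j s), p.2⟫_ℝ) atTop
        (𝓝 (∫ s in (0 : ℝ)..t, ⟪F s + m (u s), p.2⟫_ℝ)) := by
      obtain ⟨BF, hBF⟩ := (isCompact_Icc.image_of_continuousOn hF).isBounded.exists_norm_le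
      refine intervalIntegral.tendsto_integral_filter_of_dominated_convergence
        (fun _ => (BF + C * Z ^ 2) * ‖p.2‖) ?_ ?_ ?_ ?_
      · exact Eventually.of_forall fun j => by
          rw [uIoc_of_le ht.1]
          exact ((hcm j).mono ((Ioc_subset_Icc_self).trans hsub)).aestronglyMeasurable
            measurableSet_Ioc
      · refine Eventually.of_forall fun j => Eventually.of_forall fun s hs => ?_
        rw [uIoc_of_le ht.1] at hs
        have hs' := hsub (Ioc_subset_Icc_self hs)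
        refine (norm_inner_le_norm _ _).trans ?_
        gcongr
        exact (norm_add_le _ _).trans (add_le_add (hBF _ ⟨s, hs', rfl⟩) (hmb j s hs'))
      · exact intervalIntegrable_const
      · refine Eventually.of_forall fun s hs => ?_
        rw [uIoc_of_le ht.1] at hs
        have hs' := hsub (Ioc_subset_Icc_self hs)
        exact (tendsto_const_nhds.add (hmp s hs')).inner tendsto_const_nhds
    have key : ∀ {n' : ℝ → ℝ} {u' : ℝ → H} {z' : ℝ → K}, IntegrableOn n' (Ioc 0 T) →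
        ContinuousOn z' (Icc 0 T) → ContinuousOn (fun s => m (u' s)) (Icc 0 T) →
        ∫ s in (0 : ℝ)..t, ⟪F s - n' s • z' s + m (u' s), p.2⟫_ℝ
          = (∫ s in (0 : ℝ)..t, ⟪F s + m (u' s), p.2⟫_ℝ)
            - ∫ s in (0 : ℝ)..t, n' s * ⟪z' s, p.2⟫_ℝ := by
      intro n' u' z' h1 h2 h3
      rw [← intervalIntegral.integral_sub]
      · refine intervalIntegral.integral_congr fun s _ => ?_
        show ⟪F s - n' s • z' s + m (u' s), p.2⟫_ℝ
          = ⟪F s + m (u' s), p.2⟫_ℝ - n' s * ⟪z' s, p.2⟫_ℝ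
        rw [inner_add_left, inner_sub_left, inner_add_left, real_inner_smul_left]
        ring
      · exact ContinuousOn.intervalIntegrable (by
          rw [huI]; exact ((hF.add h3).inner continuousOn_const).mono hsub)
      · exact (ii_of_on h1 le_rfl ht.1 ht.2).mul_continuousOn (by
          rw [huI]; exact (h2.inner continuousOn_const).mono hsub)
    have hmcu : ContinuousOn (fun s => m (u s)) (Icc 0 T) := by
      intro s hs
      rw [ContinuousWithinAt, tendsto_iff_norm_sub_tendsto_zero]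
      have h1 : Tendsto (fun r => 2 * (1 + C) * Z * ‖z r - z s‖) (𝓝[Icc 0 T] s)
          (𝓝 (2 * (1 + C) * Z * 0)) :=
        (tendsto_iff_norm_sub_tendsto_zero.mp (hzc s hs)).const_mul _
      rw [mul_zero] at h1
      refine squeeze_zero' (Eventually.of_forall fun s => norm_nonneg _) ?_ h1
      filter_upwards [self_mem_nhdsWithin] with r hr
      exact m_lipZ Fr (hmem r hr) (hmem s hs) (hzZ r hr) (hzZ s hs)
    rw [key hn hzc hmcu]
    refine tendsto_nhds_unique l1 ((l3.sub l2).congr fun j => ?_)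
    rw [(hR j).weak p hp t ht, key (hnn j) (hR j).zc ((hR j).mc Fr)]
  · intro t ht
    have hsub : Icc 0 t ⊆ Icc 0 T := Icc_subset_Icc_right ht.2
    have huI : uIcc 0 t = Icc 0 t := uIcc_of_le ht.1
    have l1 : Tendsto (fun j => ‖uu j t‖ ^ 2 / 2) atTop (𝓝 (‖u t‖ ^ 2 / 2)) :=
      ((hu t ht).norm.pow 2).div_const 2
    have l2 := weighted hn hnn hconv (φ := fun j s => ‖zz j s‖ ^ 2)
      (ψ := fun s => ‖z s‖ ^ 2) (M := Z ^ 2) (fun j => (hR j).zc.norm.pow 2) (fun j s hs => by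
        rw [abs_of_nonneg (by positivity)]
        have := hZ j s hs
        gcongr)
      (fun s hs => (hzp s hs).norm.pow 2) ht
    have l3 : Tendsto (fun j => ∫ s in (0 : ℝ)..t, ⟪F s, zz j s⟫_ℝ) atTop
        (𝓝 (∫ s in (0 : ℝ)..t, ⟪F s, z s⟫_ℝ)) := by
      obtain ⟨BF, hBF⟩ := (isCompact_Icc.image_of_continuousOn hF).isBounded.exists_norm_le
      refine intervalIntegral.tendsto_integral_filter_of_dominated_convergence
        (fun _ => BF * Z) ?_ ?_ ?_ ?_
      · exact Eventually.of_forall fun j => by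
          rw [uIoc_of_le ht.1]
          exact ((hF.inner (hR j).zc).mono ((Ioc_subset_Icc_self).trans hsub)).aestronglyMeasurable
            measurableSet_Ioc
      · refine Eventually.of_forall fun j => Eventually.of_forall fun s hs => ?_
        rw [uIoc_of_le ht.1] at hs
        have hs' := hsub (Ioc_subset_Icc_self hs)
        refine (norm_inner_le_norm _ _).trans ?_
        have h1 := hBF _ ⟨s, hs', rfl⟩
        have h2 := hZ j s hs'
        have h3 : 0 ≤ BF := (norm_nonneg _).trans h1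
        gcongr
      · exact intervalIntegrable_const
      · refine Eventually.of_forall fun s hs => ?_
        rw [uIoc_of_le ht.1] at hs
        have hs' := hsub (Ioc_subset_Icc_self hs)
        exact tendsto_const_nhds.inner (hzp s hs')
    refine tendsto_nhds_unique (l1.add l2) ((tendsto_const_nhds.add l3).congr fun j => ?_)
    exact ((hR j).energy t ht).symm

end H772R2.NSV
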