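import Mathlib
import Pool.Agent.H772R2.NSV.Lim

/-!
Regular solutions for Lipschitz viscosities near a viscosity with a regular solution.
-/

set_option linter.unusedSectionVars false

open MeasureTheory Set Filter Topology Metric
open scoped InnerProductSpace NNReal ENNReal

namespace H772R2.NSV

open H772R2.NSR (Frame grad_unique prim_cont prim_shift ec)
open H772R2.NSG (Base Sln St mug mug_zero mug_nonneg visc_mug exists_sln)

variable {H K : Type*} [NormedAddCommGroup H] [InnerProductSpace ℝ H] [CompleteSpace H]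
  [NormedAddCommGroup K] [InnerProductSpace ℝ K] [CompleteSpace K]

variable {W : Submodule ℝ (H × K)} {m : H → K} {C C3 : ℝ} {ν T : ℝ}

theorem toReg {μ n : ℝ → ℝ} {F : ℝ → K} {u u' : ℝ → H} {z : ℝ → K} {c1 c2 e0 : ℝ}
    (Sl : Sln W m μ n T F u u' z c1 c2 e0) {x0 : H} (hu0 : u 0 = x0) :
    Reg W m T (fun t => n t + μ ‖z t‖) F x0 u z where
  init := hu0
  mem := Sl.mem
  zc := Sl.zc
  weak := fun p hp t ht => by rw [← hu0]; exact Sl.weak p hp 0 t le_rfl ht.1 ht.2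
  energy := fun t ht => by rw [← hu0]; exact Sl.energy t ht

theorem Reg.congr_n {n n' : ℝ → ℝ} {F : ℝ → K} {x0 : H} {u : ℝ → H} {z : ℝ → K}
    (h : Reg W m T n F x0 u z) (hn : ∀ᵐ s ∂(volume.restrict (Ioc 0 T)), n s = n' s) :
    Reg W m T n' F x0 u z where
  init := h.init
  mem := h.mem
  zc := h.zc
  weak := fun p hp t ht => by
    rw [h.weak p hp t ht, intervalIntegral.integral_of_le ht.1,
      intervalIntegral.integral_of_le ht.1]
    refine integral_congr_ae ?_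
    filter_upwards [ae_mono (Measure.restrict_mono (Ioc_subset_Ioc_right ht.2) le_rfl) hn]
      with s hs
    rw [hs]
  energy := fun t ht => by
    rw [← h.energy t ht, intervalIntegral.integral_of_le ht.1,
      intervalIntegral.integral_of_le ht.1]
    congr 1
    refine integral_congr_ae ?_
    filter_upwards [ae_mono (Measure.restrict_mono (Ioc_subset_Ioc_right ht.2) le_rfl) hn]
      with s hs
    rw [hs]

theorem base_vn {n : ℝ → ℝ} {B : ℝ} (N : Base n ν T B) : Vn ν T n where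
  int := (N.cont.integrableOn_Icc).mono_set Ioc_subset_Icc_self
  low := by
    filter_upwards [ae_restrict_mem measurableSet_Ioc] with s hs
    exact N.low s (Ioc_subset_Icc_self hs)

theorem boot (Fr : Frame W m C) (Tb : TriB W m C3) {ι : Type*} {g : ι → H} {f : ι → K}
    {lam : ι → ℝ} (E : Eig W g f lam) (hν : 0 < ν) (hT : 0 < T)
    (hcomp : ∀ R : ℝ, TotallyBounded {v : H | ∃ z, (v, z) ∈ W ∧ ‖z‖ ≤ R})
    {F F1 : ℝ → K} {x0 : H} {z0 : K} (h0 : (x0, z0) ∈ W)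
    (hF1 : MemLp F1 2 (volume.restrict (Ioc 0 T)))
    (hF : ∀ a b, 0 ≤ a → a ≤ b → b ≤ T → F b - F a = ∫ s in a..b, F1 s) {Z : ℝ} (hZ : 0 ≤ Z) :
    ∃ δ0 : ℝ, 0 < δ0 ∧ ∀ (nb : ℝ → ℝ) (ub : ℝ → H) (zb : ℝ → K), Vn ν T nb →
      Reg W m T nb F x0 ub zb → (∀ t ∈ Icc 0 T, ‖zb t‖ ≤ Z) →
      ∀ (n : ℝ → ℝ) (B : ℝ), Base n ν T B →
      (∃ g0 : H, ∀ p ∈ W, ⟪F 0 - n 0 • z0 + m x0, p.2⟫_ℝ = ⟪g0, p.1⟫_ℝ) →
      ∫ s in (0 : ℝ)..T, |n s - nb s| ≤ δ0 →
      ∃ (u u1 : ℝ → H) (z z1 : ℝ → K) (c1 : ℝ), Reg W m T n F x0 u z ∧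
        St W m T n F x0 u z u1 z1 (Z + 1) ∧
        ∀ᵐ s ∂(volume.restrict (Ioc 0 T)), ‖u1 s‖ ≤ c1 := by
  obtain ⟨δ0, hδ0, hcs⟩ := comp_small Fr Tb E hν hT.le h0 hF1 hF (Z := Z + 1) (by positivity)
    (ω := 1 / 2) (by norm_num)
  refine ⟨δ0, hδ0, ?_⟩
  intro nb ub zb hnb hRb hZb n B N hc hδ
  obtain ⟨g0, hc⟩ := hc
  have h0T : (0 : ℝ) ∈ Icc 0 T := ⟨le_rfl, hT.le⟩
  have hFc := prim_cont hF1 hF
  have hz0Z : ‖z0‖ ≤ Z := by
    rw [← hRb.grad0 Fr hT.le h0]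
    exact hZb 0 h0T
  have hS0 : (0 : ℝ) < Z + 1 := by positivity
  have V := visc_mug (ν := ν) (κ := 1) one_pos hS0 hν
  have hμ0 : mug 1 (Z + 1) ‖z0‖ = 0 := mug_zero (by linarith)
  obtain ⟨u, u', z, c1, c2, hu0, Sl⟩ := exists_sln Fr V N hν hT hFc
    (Φ := ∫ s in (0 : ℝ)..T, ‖F1 s‖ ^ 2)
    (intervalIntegral.integral_nonneg hT.le (fun s _ => by positivity))
    (prim_shift hF1 hF) hcomp h0 (g0 := g0) (by
      intro p hp
      rw [hμ0, add_zero]
      exact hc p hp)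
  have hR := toReg Sl hu0
  have hz0 : z 0 = z0 := hR.grad0 Fr hT.le h0
  have hnv := base_vn N
  -- the key step
  have key : ∀ t ∈ Icc 0 T, (∀ s ∈ Icc 0 t, ‖z s‖ ≤ Z + 1) → ‖z t‖ ≤ Z + 1 / 2 := by
    intro t ht hle
    have hR' : Reg W m t n F x0 u z := by
      refine (hR.mono ht.2).congr_n ?_
      filter_upwards [ae_restrict_mem measurableSet_Ioc] with s hs
      rw [mug_zero (hle s (Ioc_subset_Icc_self hs)), add_zero]
    have h1 := hcs t ht n nb u ub z zb (hnv.mono ht.2) (hnb.mono ht.2) hR' (hRb.mono ht.2) hle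
      (fun s hs => (hZb s ⟨hs.1, hs.2.trans ht.2⟩).trans (by linarith)) ?_ t ⟨ht.1, le_rfl⟩
    · have h2 := hZb t ht
      calc ‖z t‖ = ‖(z t - zb t) + zb t‖ := by rw [sub_add_cancel]
        _ ≤ 1 / 2 + Z := (norm_add_le _ _).trans (add_le_add h1 h2)
        _ = Z + 1 / 2 := by ring
    · refine le_trans ?_ hδ
      rw [intervalIntegral.integral_of_le ht.1, intervalIntegral.integral_of_le hT.le]
      exact setIntegral_mono_set (hnv.int.sub hnb.int).abs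
        (Eventually.of_forall fun s => abs_nonneg _) (Ioc_subset_Ioc_right ht.2).eventuallyLE
  have hall : ∀ t ∈ Icc 0 T, ‖z t‖ ≤ Z + 1 := by
    by_contra hcon
    push Not at hcon
    obtain ⟨t1, ht1, h1⟩ := hcon
    set A : Set ℝ := {t ∈ Icc 0 T | Z + 1 ≤ ‖z t‖} with hA
    have hAc : IsCompact A := by
      have : A = Icc 0 T ∩ (fun t => ‖z t‖) ⁻¹' Ici (Z + 1) := rfl
      rw [this]
      exact isCompact_Icc.of_isClosed_subset
        (Sl.zc.norm.preimage_isClosed_of_isClosed isClosed_Icc isClosed_Ici) inter_subset_left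
    obtain ⟨t0, ht0, hmin⟩ := hAc.exists_isLeast ⟨t1, ht1, h1.le⟩
    have ht00 : 0 < t0 := by
      rcases ht0.1.1.eq_or_lt with h | h
      · exfalso
        have h2 : Z + 1 ≤ ‖z t0‖ := ht0.2
        rw [← h, hz0] at h2
        linarith
      · exact h
    have hlt : ∀ s ∈ Ico 0 t0, ‖z s‖ < Z + 1 := by
      intro s hs
      by_contra hcon
      exact absurd (hmin ⟨⟨hs.1, hs.2.le.trans ht0.1.2⟩, not_lt.mp hcon⟩) (not_le.mpr hs.2)
    have hle2 : ∀ s ∈ Ico 0 t0, ‖z s‖ ≤ Z + 1 / 2 := fun s hs =>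
      key s ⟨hs.1, hs.2.le.trans ht0.1.2⟩ fun r hr => (hlt r ⟨hr.1, hr.2.trans_lt hs.2⟩).le
    have hlim : Tendsto (fun s => ‖z s‖) (𝓝[Ico 0 t0] t0) (𝓝 ‖z t0‖) :=
      ((Sl.zc t0 ht0.1).norm).mono_left (nhdsWithin_mono _ fun s hs =>
        ⟨hs.1, hs.2.le.trans ht0.1.2⟩)
    have hne : (𝓝[Ico 0 t0] t0).NeBot := by
      rw [← mem_closure_iff_nhdsWithin_neBot, closure_Ico ht00.ne]
      exact ⟨ht00.le, le_rfl⟩
    have h2 : ‖z t0‖ ≤ Z + 1 / 2 := le_of_tendsto hlim (by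
      filter_upwards [self_mem_nhdsWithin] with s hs using hle2 s hs)
    have h3 : Z + 1 ≤ ‖z t0‖ := ht0.2
    linarith
  have hRn : Reg W m T n F x0 u z := by
    refine hR.congr_n ?_
    filter_upwards [ae_restrict_mem measurableSet_Ioc] with s hs
    rw [mug_zero (hall s (Ioc_subset_Icc_self hs)), add_zero]
  obtain ⟨u1, z1, k1, k2, k3, k4, k5⟩ := Sl.derivs Fr.closedW hT
  refine ⟨u, u1, z, z1, c1, hRn, ⟨hu0, Sl.mem, k1, k2, k3, k4, ?_, N.cont, hFc, hRn.weak,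
    hRn.energy, hall⟩, ?_⟩
  · filter_upwards [k5] with s hs using hs.1
  · filter_upwards [k5] with s hs using hs.2

end H772R2.NSV
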