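import Mathlib
import Pool.Agent.H772R2.NSG.PubG

/-!
Public definitions: regular solutions of the three dimensional Navier-Stokes equations with time
dependent viscosity; viscosities on the half line.
-/

open MeasureTheory Set Topology
open scoped InnerProductSpace ENNReal ContDiff

namespace H772R2.NS.Pub

/-- `u` is a regular solution on `[0,T]`, with gradient `G = ∇u`, of the Navier-Stokes equations
in `Ω` with zero boundary values, viscosity `n(t)`, initial velocity `u₀` and force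
`⟨f(t), φ⟩ = (F(t), ∇φ)`: `u(t) ∈ V = H¹_{0,σ}(Ω)` for every `t ∈ [0,T]`, `∇u` is continuous on
`[0,T]` with values in `L²` (that is, `u ∈ C([0,T]; V)`), the equations hold in the weak sense,
integrated in time, and the energy equality holds. -/
structure IsRegular (Ω : Set R3) (T : ℝ) (n : ℝ → ℝ) (F : ℝ → L2 Ω Mat) (u0 : L2 Ω R3)
    (u : ℝ → L2 Ω R3) (G : ℝ → L2 Ω Mat) : Prop where
  init : u 0 = u0
  grad : ∀ t ∈ Icc 0 T, (u t, G t) ∈ H1graph Ω
  cont : ContinuousOn G (Icc 0 T)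
  eqn : ∀ φ, IsTest Ω φ → ∀ t ∈ Icc 0 T,
    (∫ x in Ω, ⟪(u t).fn x, φ x⟫_ℝ) - (∫ x in Ω, ⟪u0.fn x, φ x⟫_ℝ)
      = ∫ s in (0 : ℝ)..t, rhs (n s) (u s) (G s) (F s) φ
  energy : ∀ t ∈ Icc 0 T, ‖u t‖ ^ 2 / 2 + ∫ s in (0 : ℝ)..t, n s * ‖G s‖ ^ 2
    = ‖u0‖ ^ 2 / 2 + ∫ s in (0 : ℝ)..t, ⟪F s, G s⟫_ℝ

/-- The Banach space `L^p(0,∞)`. -/
def LpInf (p : ℝ≥0∞) : Type := Lp ℝ p ((volume : Measure ℝ).restrict (Ioi 0))

noncomputable instance LpInf.metric {p : ℝ≥0∞} [Fact (1 ≤ p)] : MetricSpace (LpInf p) :=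
  (inferInstance : MetricSpace (Lp ℝ p ((volume : Measure ℝ).restrict (Ioi 0))))

/-- A function representing the class `h ∈ L^p(0,∞)`. -/
noncomputable def LpInf.fn {p : ℝ≥0∞} (h : LpInf p) : ℝ → ℝ :=
  ((show Lp ℝ p ((volume : Measure ℝ).restrict (Ioi 0)) from h) : ℝ → ℝ)

/-- The functions `h ∈ L^p(0,∞)` with `h ≥ 0` almost everywhere, with the distance of
`L^p(0,∞)`; they are added to the constant viscosity `ν`. -/
def Incr (p : ℝ≥0∞) : Type :=
  {h : LpInf p // ∀ᵐ t ∂(volume.restrict (Ioi 0)), 0 ≤ h.fn t}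

noncomputable instance Incr.metric {p : ℝ≥0∞} [Fact (1 ≤ p)] : MetricSpace (Incr p) :=
  (inferInstance : MetricSpace {h : LpInf p // ∀ᵐ t ∂(volume.restrict (Ioi 0)), 0 ≤ h.fn t})

/-- A function representing `h`. -/
noncomputable def Incr.fn {p : ℝ≥0∞} (h : Incr p) : ℝ → ℝ := h.1.fn

end H772R2.NS.Pub
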