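import Mathlib
import Pool.Agent.H772R2.NSV.Boot

/-!
Openness of the set of viscosities with a regular solution; uniqueness.
-/

set_option linter.unusedSectionVars false

open MeasureTheory Set Filter Topology Metric
open scoped InnerProductSpace NNReal ENNReal

namespace H772R2.NSV

open H772R2.NSR (Frame grad_unique prim_cont prim_shift ec)
open H772R2.NSG (Base Sln St LH Coef mug mug_zero cut eLpNorm_le_five mem_cont stab gap stc
  stc_nonneg)

/-- Lipschitz approximations with a prescribed initial value. -/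
theorem base_near {ν T : ℝ} (hT : 0 < T) {a : ℝ} (ha : ν ≤ a) {p : ℝ≥0∞} (hp1 : 1 ≤ p)
    (hp5 : p ≤ 5) {n : ℝ → ℝ} (hn : MemLp n p (volume.restrict (Ioc 0 T)))
    (hlow : ∀ᵐ s ∂(volume.restrict (Ioc 0 T)), ν ≤ n s) {ε : ℝ} (hε : 0 < ε) :
    ∃ (nb : ℝ → ℝ) (B : ℝ), Base nb ν T B ∧ nb 0 = a ∧
      eLpNorm (nb - n) p (volume.restrict (Ioc 0 T)) ≤ ENNReal.ofReal ε := by
  have hptop : p ≠ ⊤ := ne_top_of_le_ne_top (by norm_num) hp5
  have hp0 : 0 < p.toReal := ENNReal.toReal_pos (by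
    intro h; rw [h] at hp1; exact absurd hp1 (by norm_num)) hptop
  set κ : ℝ≥0∞ := (volume.restrict (Ioc 0 T) : Measure ℝ) univ
    ^ (1 / p.toReal - 1 / (5 : ℝ≥0∞).toReal) with hκ
  have hfin := fin_m T
  have hκtop : κ ≠ ⊤ := by
    rw [hκ]
    refine ENNReal.rpow_ne_top_of_nonneg ?_ (measure_ne_top _ _)
    have : p.toReal ≤ (5 : ℝ≥0∞).toReal := ENNReal.toReal_mono (by norm_num) hp5
    have := one_div_le_one_div_of_le hp0 this
    linarith
  set κr : ℝ := κ.toReal with hκr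
  have hκr0 : 0 ≤ κr := ENNReal.toReal_nonneg
  have hκe : κ = ENNReal.ofReal κr := (ENNReal.ofReal_toReal hκtop).symm
  set η : ℝ := ε / (2 * (κr + 1)) with hη
  have hη0 : 0 < η := by positivity
  have hfive : ∀ f : ℝ → ℝ, AEStronglyMeasurable f (volume.restrict (Ioc 0 T)) →
      eLpNorm f 5 (volume.restrict (Ioc 0 T)) ≤ ENNReal.ofReal η →
      eLpNorm f p (volume.restrict (Ioc 0 T)) ≤ ENNReal.ofReal (ε / 2) := by
    intro f hf hf5
    refine (eLpNorm_le_five hp5 hf).trans ?_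
    rw [← hκ, hκe]
    calc eLpNorm f 5 (volume.restrict (Ioc 0 T)) * ENNReal.ofReal κr
        ≤ ENNReal.ofReal η * ENNReal.ofReal κr := by gcongr
      _ = ENNReal.ofReal (η * κr) := (ENNReal.ofReal_mul hη0.le).symm
      _ ≤ _ := by
          refine ENNReal.ofReal_le_ofReal ?_
          rw [hη, div_mul_eq_mul_div, div_le_div_iff₀ (by positivity) (by norm_num)]
          nlinarith
  obtain ⟨g, hg1, hg2, hg3⟩ := hn.exist_eLpNorm_sub_le hptop hp1 (ε := ε / 2) (by positivity)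
  obtain ⟨Bg, hBg⟩ := ContDiff.lipschitzWith_of_hasCompactSupport hg1 (hg2.of_le (m := 1) (by
    exact_mod_cast le_top)) (by norm_num)
  let n1 : ℝ → ℝ := fun t => max (g t) ν
  have hn1c : Continuous n1 := hg2.continuous.max continuous_const
  have hn1lip : ∀ s ∈ Icc 0 T, ∀ t ∈ Icc 0 T, ‖n1 s - n1 t‖ ≤ Bg * |s - t| := by
    intro s _ t _
    have h1 : |n1 s - n1 t| ≤ |g s - g t| := by
      have := abs_max_sub_max_le_max (g s) ν (g t) ν
      simpa using this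
    have h2 := hBg.dist_le_mul s t
    rw [Real.dist_eq, Real.dist_eq] at h2
    rw [Real.norm_eq_abs]
    exact h1.trans h2
  obtain ⟨M, hM⟩ := (isCompact_Icc.image_of_continuousOn
    (hn1c.continuousOn (s := Icc 0 T))).isBounded.exists_norm_le
  have hM' : ∀ t ∈ Icc 0 T, ‖n1 t‖ ≤ M := fun t ht => hM _ ⟨t, ht, rfl⟩
  have hM0 : 0 ≤ M := (norm_nonneg _).trans (hM' 0 ⟨le_rfl, hT.le⟩)
  have hn1n : eLpNorm (n1 - n) p (volume.restrict (Ioc 0 T)) ≤ ENNReal.ofReal (ε / 2) := by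
    refine le_trans (eLpNorm_mono_ae ?_) hg3
    filter_upwards [hlow] with s hs
    show ‖max (g s) ν - n s‖ ≤ ‖n s - g s‖
    rw [norm_sub_rev (n s)]
    have := abs_max_sub_max_le_max (g s) ν (n s) ν
    rw [max_eq_left hs] at this
    simpa using this
  obtain ⟨n2, B2, k1, k2, k3, k4, k5, k6⟩ := cut hT (Y := ℝ) Bg.coe_nonneg hM0 hn1lip hM' a hη0
  have hlow2 : ∀ t ∈ Icc 0 T, ν ≤ n2 t := by
    intro t ht
    obtain ⟨θ, hθ, e⟩ := k4 t ht
    rw [e, smul_eq_mul, smul_eq_mul]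
    have h1 : ν ≤ n1 t := le_max_right _ _
    nlinarith [hθ.1, hθ.2]
  refine ⟨n2, B2, ⟨k2, hlow2, fun s hs t ht => by
    have := k3 s hs t ht
    rwa [Real.norm_eq_abs] at this⟩, k1, ?_⟩
  have hm2 : AEStronglyMeasurable (n2 - n1) (volume.restrict (Ioc 0 T)) :=
    (mem_cont (p := 1) (k5.sub hn1c.continuousOn)).aestronglyMeasurable
  have hm1 : AEStronglyMeasurable (n1 - n) (volume.restrict (Ioc 0 T)) :=
    hn1c.aestronglyMeasurable.sub hn.aestronglyMeasurable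
  have h1 := hfive _ hm2 k6
  have e : n2 - n = (n2 - n1) + (n1 - n) := by abel
  rw [e]
  calc eLpNorm ((n2 - n1) + (n1 - n)) p (volume.restrict (Ioc 0 T))
      ≤ ENNReal.ofReal (ε / 2) + ENNReal.ofReal (ε / 2) :=
        (eLpNorm_add_le hm2 hm1 hp1).trans (add_le_add h1 hn1n)
    _ = ENNReal.ofReal ε := by
        rw [← ENNReal.ofReal_add (by positivity) (by positivity)]
        congr 1; ring

theorem l1_of_eLpNorm {T : ℝ} (hT : 0 ≤ T) {f : ℝ → ℝ} {ε : ℝ} (hε : 0 ≤ ε)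
    (h : eLpNorm f 1 (volume.restrict (Ioc 0 T)) ≤ ENNReal.ofReal ε) :
    ∫ s in (0 : ℝ)..T, |f s| ≤ ε := by
  rw [intervalIntegral.integral_of_le hT]
  by_cases hf : AEStronglyMeasurable f (volume.restrict (Ioc 0 T))
  · have e : ∫ s in Ioc 0 T, |f s| = (eLpNorm f 1 (volume.restrict (Ioc 0 T))).toReal := by
      rw [eLpNorm_one_eq_lintegral_enorm, ← integral_norm_eq_lintegral_enorm hf]
      rfl
    rw [e]
    exact ENNReal.toReal_le_of_le_ofReal hε h
  · by_cases hi : Integrable (fun s => |f s|) (volume.restrict (Ioc 0 T))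
    · have h2 : ∫ s in Ioc 0 T, |f s| = (∫⁻ s in Ioc 0 T, ‖f s‖ₑ).toReal := by
        rw [integral_eq_lintegral_of_nonneg_ae (Eventually.of_forall fun s => abs_nonneg _)
          hi.aestronglyMeasurable]
        congr 1
        refine lintegral_congr fun s => ?_
        rw [← Real.enorm_abs, Real.enorm_eq_ofReal (abs_nonneg _)]
      rw [eLpNorm_one_eq_lintegral_enorm] at h
      rw [h2]
      exact ENNReal.toReal_le_of_le_ofReal hε h
    · rw [integral_undef hi]; exact hε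

variable {H K : Type*} [NormedAddCommGroup H] [InnerProductSpace ℝ H] [CompleteSpace H]
  [NormedAddCommGroup K] [InnerProductSpace ℝ K] [CompleteSpace K]

variable {W : Submodule ℝ (H × K)} {m : H → K} {C C3 : ℝ} {ν T : ℝ}

/-- uniqueness of regular solutions. -/
theorem uniq (Fr : Frame W m C) (Tb : TriB W m C3) {ι : Type*} {g : ι → H} {f : ι → K}
    {lam : ι → ℝ} (E : Eig W g f lam) (hν : 0 < ν) (hT : 0 ≤ T)
    {F F1 : ℝ → K} {x0 : H} {z0 : K} (h0 : (x0, z0) ∈ W)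
    (hF1 : MemLp F1 2 (volume.restrict (Ioc 0 T)))
    (hF : ∀ a b, 0 ≤ a → a ≤ b → b ≤ T → F b - F a = ∫ s in a..b, F1 s)
    {n : ℝ → ℝ} {u ub : ℝ → H} {z zb : ℝ → K} (hn : Vn ν T n)
    (h : Reg W m T n F x0 u z) (hb : Reg W m T n F x0 ub zb) {t : ℝ} (ht : t ∈ Icc 0 T) :
    u t = ub t ∧ z t = zb t := by
  obtain ⟨Z1, hZ1⟩ := h.bdd
  obtain ⟨Z2, hZ2⟩ := hb.bdd
  have hZ10 : 0 ≤ Z1 := (norm_nonneg _).trans (hZ1 t ht)
  have hz : z t = zb t := by
    rw [← sub_eq_zero, ← norm_eq_zero]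
    refine le_antisymm (le_of_forall_pos_le_add fun ω hω => ?_) (norm_nonneg _)
    obtain ⟨δ0, hδ0, hcs⟩ := comp_small Fr Tb E hν hT h0 hF1 hF (Z := max Z1 Z2)
      (hZ10.trans (le_max_left _ _)) hω
    have := hcs T ⟨hT, le_rfl⟩ n n u ub z zb hn hn h hb
      (fun s hs => (hZ1 s hs).trans (le_max_left _ _))
      (fun s hs => (hZ2 s hs).trans (le_max_right _ _)) (by simpa using hδ0.le) t ht
    linarith
  refine ⟨?_, hz⟩
  have h1 := Fr.poinc _ (W.sub_mem (h.mem t ht) (hb.mem t ht))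
  have e2 : ((u t, z t) - (ub t, zb t)).2 = 0 := by
    show z t - zb t = 0
    rw [hz, sub_self]
  rw [e2, norm_zero, mul_zero] at h1
  exact sub_eq_zero.mp (norm_le_zero_iff.mp h1)

/-- regular solutions for rough viscosities as limits of strong solutions. -/
theorem rough (Fr : Frame W m C) (Tb : TriB W m C3) {ι : Type*} {g : ι → H} {f : ι → K}
    {lam : ι → ℝ} (E : Eig W g f lam) (hν : 0 < ν) (hT : 0 < T)
    (hcomp : ∀ R : ℝ, TotallyBounded {v : H | ∃ z, (v, z) ∈ W ∧ ‖z‖ ≤ R})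
    {F F1 : ℝ → K} {x0 : H} {z0 : K} (h0 : (x0, z0) ∈ W)
    (hF1 : MemLp F1 2 (volume.restrict (Ioc 0 T)))
    (hF : ∀ a b, 0 ≤ a → a ≤ b → b ≤ T → F b - F a = ∫ s in a..b, F1 s)
    {g0 : H} {a : ℝ} (ha : ν ≤ a)
    (hc : ∀ p ∈ W, ⟪F 0 - a • z0 + m x0, p.2⟫_ℝ = ⟪g0, p.1⟫_ℝ) {Z : ℝ} (hZ : 0 ≤ Z) :
    ∃ δ0 : ℝ, 0 < δ0 ∧ ∀ (nb : ℝ → ℝ) (ub : ℝ → H) (zb : ℝ → K), Vn ν T nb →
      Reg W m T nb F x0 ub zb → (∀ t ∈ Icc 0 T, ‖zb t‖ ≤ Z) →
      ∀ (p : ℝ≥0∞), 1 ≤ p → p ≤ 5 → ∀ n : ℝ → ℝ, MemLp n p (volume.restrict (Ioc 0 T)) →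
      (∀ᵐ s ∂(volume.restrict (Ioc 0 T)), ν ≤ n s) →
      ∫ s in (0 : ℝ)..T, |n s - nb s| ≤ δ0 →
      ∃ (u : ℝ → H) (z : ℝ → K) (nn : ℕ → ℝ → ℝ) (uu uu1 : ℕ → ℝ → H) (zz zz1 : ℕ → ℝ → K),
        Reg W m T n F x0 u z ∧ (∀ t ∈ Icc 0 T, ‖z t‖ ≤ Z + 1) ∧
        (∀ j, St W m T (nn j) F x0 (uu j) (zz j) (uu1 j) (zz1 j) (Z + 1)) ∧
        Tendsto (fun j => eLpNorm (nn j - n) p (volume.restrict (Ioc 0 T))) atTop (𝓝 0) ∧
        ∀ t ∈ Icc 0 T, Tendsto (fun j => uu j t) atTop (𝓝 (u t)) := by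
  obtain ⟨δ1, hδ1, hboot⟩ := boot Fr Tb E hν hT hcomp h0 hF1 hF hZ
  refine ⟨δ1 / 2, by positivity, ?_⟩
  intro nb ub zb hnb hRb hZb p hp1 hp5 n hn hlow hδ
  have hFc := prim_cont hF1 hF
  have hfin := fin_m T
  have hnv : Vn ν T n := ⟨hn.integrable hp1, hlow⟩
  -- Hölder constant
  have hptop : p ≠ ⊤ := ne_top_of_le_ne_top (by norm_num) hp5
  set κ : ℝ≥0∞ := (volume.restrict (Ioc 0 T) : Measure ℝ) univ
    ^ (1 / (1 : ℝ≥0∞).toReal - 1 / p.toReal) with hκ
  have hκtop : κ ≠ ⊤ := by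
    rw [hκ]
    refine ENNReal.rpow_ne_top_of_nonneg ?_ (measure_ne_top _ _)
    have h1 : (1 : ℝ≥0∞).toReal ≤ p.toReal := ENNReal.toReal_mono hptop hp1
    have := one_div_le_one_div_of_le (by norm_num) h1
    linarith
  set κr : ℝ := κ.toReal with hκr
  have hκr0 : 0 ≤ κr := ENNReal.toReal_nonneg
  have hκe : κ = ENNReal.ofReal κr := (ENNReal.ofReal_toReal hκtop).symm
  -- approximations
  set ε : ℕ → ℝ := fun j => δ1 / (2 * (κr + 1)) * (1 / ((j : ℝ) + 1)) with hε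
  have hε0 : ∀ j, 0 < ε j := fun j => by simp only [hε]; positivity
  have hεt : Tendsto ε atTop (𝓝 0) := by
    have := (tendsto_one_div_add_atTop_nhds_zero_nat (𝕜 := ℝ)).const_mul (δ1 / (2 * (κr + 1)))
    rwa [mul_zero] at this
  have hex : ∀ j : ℕ, ∃ (nj : ℝ → ℝ) (B : ℝ), Base nj ν T B ∧ nj 0 = a ∧
      eLpNorm (nj - n) p (volume.restrict (Ioc 0 T)) ≤ ENNReal.ofReal (ε j) := fun j =>
    base_near hT ha hp1 hp5 hn hlow (hε0 j)
  choose nn BB hN hnn0 hnn using hex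
  have hnnv : ∀ j, Vn ν T (nn j) := fun j => base_vn (hN j)
  have hL1 : ∀ j, ∫ s in (0 : ℝ)..T, |nn j s - n s| ≤ κr * ε j := by
    intro j
    refine l1_of_eLpNorm (f := nn j - n) hT.le (by have := (hε0 j).le; positivity) ?_
    have hm : AEStronglyMeasurable (nn j - n) (volume.restrict (Ioc 0 T)) :=
      ((hnnv j).int.sub hnv.int).aestronglyMeasurable
    refine (eLpNorm_le_eLpNorm_mul_rpow_measure_univ hp1 hm).trans ?_
    rw [← hκ, hκe, mul_comm κr, ENNReal.ofReal_mul (hε0 j).le]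
    gcongr
    exact hnn j
  have hL1' : ∀ j, ∫ s in (0 : ℝ)..T, |nn j s - n s| ≤ δ1 / 2 := by
    intro j
    refine (hL1 j).trans ?_
    simp only [hε]
    have h1 : 1 / ((j : ℝ) + 1) ≤ 1 := by
      rw [div_le_one (by positivity)]
      have : (0 : ℝ) ≤ j := Nat.cast_nonneg j
      linarith
    calc κr * (δ1 / (2 * (κr + 1)) * (1 / ((j : ℝ) + 1)))
        ≤ (κr + 1) * (δ1 / (2 * (κr + 1)) * 1) := by gcongr; linarith
      _ = δ1 / 2 := by field_simp
  have hnear : ∀ j, ∫ s in (0 : ℝ)..T, |nn j s - nb s| ≤ δ1 := by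
    intro j
    have i1 : IntervalIntegrable (fun s => |nn j s - n s|) volume 0 T :=
      ii_of_on ((hnnv j).int.sub hnv.int).abs le_rfl hT.le le_rfl
    have i2 : IntervalIntegrable (fun s => |n s - nb s|) volume 0 T :=
      ii_of_on (hnv.int.sub hnb.int).abs le_rfl hT.le le_rfl
    have i3 : IntervalIntegrable (fun s => |nn j s - nb s|) volume 0 T :=
      ii_of_on ((hnnv j).int.sub hnb.int).abs le_rfl hT.le le_rfl
    calc ∫ s in (0 : ℝ)..T, |nn j s - nb s|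
        ≤ ∫ s in (0 : ℝ)..T, (|nn j s - n s| + |n s - nb s|) :=
          intervalIntegral.integral_mono_on hT.le i3 (i1.add i2) fun s _ => abs_sub_le _ _ _
      _ = (∫ s in (0 : ℝ)..T, |nn j s - n s|) + ∫ s in (0 : ℝ)..T, |n s - nb s| :=
          intervalIntegral.integral_add i1 i2
      _ ≤ δ1 / 2 + δ1 / 2 := add_le_add (hL1' j) hδ
      _ = δ1 := by ring
  have hsol : ∀ j, ∃ (u u1 : ℝ → H) (z z1 : ℝ → K) (c1 : ℝ), Reg W m T (nn j) F x0 u z ∧
        St W m T (nn j) F x0 u z u1 z1 (Z + 1) ∧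
        ∀ᵐ s ∂(volume.restrict (Ioc 0 T)), ‖u1 s‖ ≤ c1 := fun j =>
    hboot nb ub zb hnb hRb hZb (nn j) (BB j) (hN j) ⟨g0, by rw [hnn0 j]; exact hc⟩ (hnear j)
  choose uu uu1 zz zz1 cc hReg hSt hcc using hsol
  have hzz : ∀ j, ∀ t ∈ Icc 0 T, ‖zz j t‖ ≤ Z + 1 := fun j => (hSt j).bz
  -- Cauchy
  have hcau : ∀ ω : ℝ, 0 < ω → ∃ J : ℕ, ∀ j ≥ J, ∀ k ≥ J, ∀ t ∈ Icc 0 T,
      ‖zz j t - zz k t‖ ≤ ω := by
    intro ω hω
    obtain ⟨δ0, hδ0, hcs⟩ := comp_small Fr Tb E hν hT.le h0 hF1 hF (Z := Z + 1)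
      (by positivity) hω
    have h1 : Tendsto (fun j => κr * ε j) atTop (𝓝 0) := by
      have := hεt.const_mul κr
      rwa [mul_zero] at this
    obtain ⟨J, hJ⟩ := (h1.eventually (gt_mem_nhds (by positivity : 0 < δ0 / 2))).exists_forall_of_atTop
    refine ⟨J, fun j hj k hk t ht => ?_⟩
    refine hcs T ⟨hT.le, le_rfl⟩ (nn j) (nn k) (uu j) (uu k) (zz j) (zz k) (hnnv j) (hnnv k)
      (hReg j) (hReg k) (hzz j) (hzz k) ?_ t ht
    have i1 : IntervalIntegrable (fun s => |nn j s - n s|) volume 0 T :=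
      ii_of_on ((hnnv j).int.sub hnv.int).abs le_rfl hT.le le_rfl
    have i2 : IntervalIntegrable (fun s => |nn k s - n s|) volume 0 T :=
      ii_of_on ((hnnv k).int.sub hnv.int).abs le_rfl hT.le le_rfl
    have i3 : IntervalIntegrable (fun s => |nn j s - nn k s|) volume 0 T :=
      ii_of_on ((hnnv j).int.sub (hnnv k).int).abs le_rfl hT.le le_rfl
    calc ∫ s in (0 : ℝ)..T, |nn j s - nn k s|
        ≤ ∫ s in (0 : ℝ)..T, (|nn j s - n s| + |nn k s - n s|) :=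
          intervalIntegral.integral_mono_on hT.le i3 (i1.add i2) fun s _ => by
            have := abs_sub_le (nn j s) (n s) (nn k s)
            rwa [abs_sub_comm (n s)] at this
      _ = (∫ s in (0 : ℝ)..T, |nn j s - n s|) + ∫ s in (0 : ℝ)..T, |nn k s - n s| :=
          intervalIntegral.integral_add i1 i2
      _ ≤ δ0 / 2 + δ0 / 2 := add_le_add ((hL1 j).trans (hJ j hj).le) ((hL1 k).trans (hJ k hk).le)
      _ = δ0 := by ring
  have hzex : ∀ t : ℝ, ∃ y : K, t ∈ Icc 0 T → Tendsto (fun j => zz j t) atTop (𝓝 y) := by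
    intro t
    by_cases ht : t ∈ Icc 0 T
    · have : CauchySeq (fun j => zz j t) := by
        rw [Metric.cauchySeq_iff]
        intro ω hω
        obtain ⟨J, hJ⟩ := hcau (ω / 2) (by positivity)
        refine ⟨J, fun j hj k hk => ?_⟩
        rw [dist_eq_norm]
        have := hJ j hj k hk t ht
        linarith
      obtain ⟨y, hy⟩ := cauchySeq_tendsto_of_complete this
      exact ⟨y, fun _ => hy⟩
    · exact ⟨0, fun h => absurd h ht⟩
  choose z hz using hzex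
  have huex : ∀ t : ℝ, ∃ y : H, t ∈ Icc 0 T → Tendsto (fun j => uu j t) atTop (𝓝 y) := by
    intro t
    by_cases ht : t ∈ Icc 0 T
    · have : CauchySeq (fun j => uu j t) := by
        rw [Metric.cauchySeq_iff]
        intro ω hω
        have hC := Fr.C0
        obtain ⟨J, hJ⟩ := hcau (ω / (2 * C)) (by positivity)
        refine ⟨J, fun j hj k hk => ?_⟩
        rw [dist_eq_norm]
        have h1 := hJ j hj k hk t ht
        have h2 := Fr.poinc _ (W.sub_mem ((hReg j).mem t ht) ((hReg k).mem t ht))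
        have h3 : ‖uu j t - uu k t‖ ≤ C * ‖zz j t - zz k t‖ := h2
        calc ‖uu j t - uu k t‖ ≤ C * (ω / (2 * C)) := h3.trans (by gcongr)
          _ = ω / 2 := by field_simp
          _ < ω := by linarith
      obtain ⟨y, hy⟩ := cauchySeq_tendsto_of_complete this
      exact ⟨y, fun _ => hy⟩
    · exact ⟨0, fun h => absurd h ht⟩
  choose u hu using huex
  have hunif : TendstoUniformlyOn zz z atTop (Icc 0 T) := by
    rw [Metric.tendstoUniformlyOn_iff]
    intro ω hω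
    obtain ⟨J, hJ⟩ := hcau (ω / 2) (by positivity)
    filter_upwards [eventually_ge_atTop J] with j hj t ht
    rw [dist_eq_norm, norm_sub_rev]
    have h1 : Tendsto (fun k => ‖zz j t - zz k t‖) atTop (𝓝 ‖zz j t - z t‖) :=
      (tendsto_const_nhds.sub (hz t ht)).norm
    have h2 : ‖zz j t - z t‖ ≤ ω / 2 := le_of_tendsto h1 (by
      filter_upwards [eventually_ge_atTop J] with k hk using hJ j hj k hk t ht)
    linarith
  have hconv : Tendsto (fun j => ∫ s in (0 : ℝ)..T, |nn j s - n s|) atTop (𝓝 0) := by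
    have h1 : Tendsto (fun j => κr * ε j) atTop (𝓝 0) := by
      have := hεt.const_mul κr
      rwa [mul_zero] at this
    exact squeeze_zero (fun j => intervalIntegral.integral_nonneg hT.le fun s _ => abs_nonneg _)
      hL1 h1
  obtain ⟨hR, hzb⟩ := Reg.limit Fr hFc hnv.int (fun j => (hnnv j).int) hconv hReg hzz hunif
    (fun t ht => hu t ht) hT.le
  refine ⟨u, z, nn, uu, uu1, zz, zz1, hR, hzb, hSt, ?_, fun t ht => hu t ht⟩
  have h1 : Tendsto (fun j => ENNReal.ofReal (ε j)) atTop (𝓝 0) := by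
    have := ENNReal.tendsto_ofReal hεt
    rwa [ENNReal.ofReal_zero] at this
  exact tendsto_of_tendsto_of_tendsto_of_le_of_le tendsto_const_nhds h1 (fun j => zero_le) hnn

end H772R2.NSV
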