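import Mathlib
import Pool.Agent.H772R2.NSV.Open
import Pool.Agent.H772R2.NSG.Baire

/-!
Generic regularity in the abstract frame.
-/

set_option linter.unusedSectionVars false

open MeasureTheory Set Filter Topology Metric
open scoped InnerProductSpace NNReal ENNReal

namespace H772R2.NSV

open H772R2.NSR (Frame grad_unique prim_cont prim_shift ec)
open H772R2.NSG (Base Sln St LH Coef strong_near mem_cont stab gap stc stc_nonneg
  int_sq_le_of_eLpNorm)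

variable {H K : Type*} [NormedAddCommGroup H] [InnerProductSpace ℝ H] [CompleteSpace H]
  [NormedAddCommGroup K] [InnerProductSpace ℝ K] [CompleteSpace K]

variable {W : Submodule ℝ (H × K)} {m : H → K} {C C3 : ℝ} {ν T : ℝ}

theorem st_reg {n : ℝ → ℝ} {F : ℝ → K} {x0 : H} {u u1 : ℝ → H} {z z1 : ℝ → K} {Z : ℝ}
    (S : St W m T n F x0 u z u1 z1 Z) : Reg W m T n F x0 u z where
  init := S.init
  mem := S.mem
  zc := S.zc
  weak := S.weak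
  energy := S.energy

/-- Every Leray-Hopf solution coincides with the regular solution. -/
theorem lh_eq (Fr : Frame W m C) (Tb : TriB W m C3) {ι : Type*} {g : ι → H} {f : ι → K}
    {lam : ι → ℝ} (E : Eig W g f lam) (hν : 0 < ν) (hT : 0 < T)
    (hcomp : ∀ R : ℝ, TotallyBounded {v : H | ∃ z, (v, z) ∈ W ∧ ‖z‖ ≤ R})
    {F F1 : ℝ → K} {x0 : H} {z0 : K} (h0 : (x0, z0) ∈ W)
    (hF1 : MemLp F1 2 (volume.restrict (Ioc 0 T)))
    (hF : ∀ a b, 0 ≤ a → a ≤ b → b ≤ T → F b - F a = ∫ s in a..b, F1 s)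
    {g0 : H} {a : ℝ} (ha : ν ≤ a)
    (hc : ∀ p ∈ W, ⟪F 0 - a • z0 + m x0, p.2⟫_ℝ = ⟪g0, p.1⟫_ℝ)
    {n : ℝ → ℝ} (hn : MemLp n 2 (volume.restrict (Ioc 0 T)))
    (hlow : ∀ᵐ s ∂(volume.restrict (Ioc 0 T)), ν ≤ n s) {u v : ℝ → H} {z w : ℝ → K}
    (hR : Reg W m T n F x0 u z) (L : LH W m T n F x0 v w) :
    ∀ t ∈ Icc 0 T, v t = u t := by
  obtain ⟨Z, hZ⟩ := hR.bdd
  have hFc := prim_cont hF1 hF
  have hfin := fin_m T
  have h0T : (0 : ℝ) ∈ Icc 0 T := ⟨le_rfl, hT.le⟩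
  have hZ0 : 0 ≤ Z := (norm_nonneg _).trans (hZ 0 h0T)
  have hnv : Vn ν T n := ⟨hn.integrable (by norm_num), hlow⟩
  obtain ⟨δ0, hδ0, hro⟩ := rough Fr Tb E hν hT hcomp h0 hF1 hF ha hc hZ0
  obtain ⟨u', z', nn, uu, uu1, zz, zz1, k1, k2, k3, k4, k5⟩ := hro n u z hnv hR hZ 2
    (by norm_num) (by norm_num) n hn hlow (by simpa using hδ0.le)
  have Co : Coef ν T n F := ⟨hn, hlow, mem_cont hFc⟩
  intro t ht
  have huu' := (uniq Fr Tb E hν hT.le h0 hF1 hF hnv hR k1 ht).1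
  have hst := stc_nonneg (C := C) hν hT (Z := Z + 1)
  have hnj : ∀ j, MemLp (nn j) 2 (volume.restrict (Ioc 0 T)) := fun j => mem_cont (k3 j).nc
  have hb : ∀ j, ‖v t - uu j t‖ ^ 2 ≤ stc C ν T (Z + 1) * (2 / ν * (Z + 1) ^ 2
      * ((eLpNorm (nn j - n) 2 (volume.restrict (Ioc 0 T))
        * (volume.restrict (Ioc 0 T) : Measure ℝ) univ
        ^ (1 / (2 : ℝ≥0∞).toReal - 1 / (2 : ℝ≥0∞).toReal)).toReal) ^ 2) := by
    intro j
    refine ((stab Fr hν hT Co L (k3 j)).1 t ht).trans ?_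
    refine mul_le_mul_of_nonneg_left ?_ hst
    unfold gap
    simp only [sub_self, norm_zero]
    have e1 : ∫ s in Ioc 0 T, (2 / ν * (0 : ℝ) ^ 2 + 2 / ν * (Z + 1) ^ 2 * (n s - nn j s) ^ 2)
        = 2 / ν * (Z + 1) ^ 2 * ∫ s in Ioc 0 T, ‖(nn j - n) s‖ ^ 2 := by
      rw [← integral_const_mul]
      refine integral_congr_ae (Eventually.of_forall fun s => ?_)
      show 2 / ν * (0 : ℝ) ^ 2 + 2 / ν * (Z + 1) ^ 2 * (n s - nn j s) ^ 2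
        = 2 / ν * (Z + 1) ^ 2 * ‖nn j s - n s‖ ^ 2
      rw [Real.norm_eq_abs, sq_abs]; ring
    rw [e1]
    have := int_sq_le_of_eLpNorm (T := T) (le_refl (2 : ℝ≥0∞)) ((hnj j).sub hn)
    have h2 : 0 ≤ 2 / ν * (Z + 1) ^ 2 := by positivity
    have h3 := mul_le_mul_of_nonneg_left this h2
    norm_num at h3 ⊢
    linarith
  have hlim : Tendsto (fun j => stc C ν T (Z + 1) * (2 / ν * (Z + 1) ^ 2
      * ((eLpNorm (nn j - n) 2 (volume.restrict (Ioc 0 T))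
        * (volume.restrict (Ioc 0 T) : Measure ℝ) univ
        ^ (1 / (2 : ℝ≥0∞).toReal - 1 / (2 : ℝ≥0∞).toReal)).toReal) ^ 2)) atTop (𝓝 0) := by
    have h1 : Tendsto (fun j => (eLpNorm (nn j - n) 2 (volume.restrict (Ioc 0 T))
        * (volume.restrict (Ioc 0 T) : Measure ℝ) univ
        ^ (1 / (2 : ℝ≥0∞).toReal - 1 / (2 : ℝ≥0∞).toReal)).toReal) atTop (𝓝 0) := by
      have h2 : Tendsto (fun j => eLpNorm (nn j - n) 2 (volume.restrict (Ioc 0 T))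
          * (volume.restrict (Ioc 0 T) : Measure ℝ) univ
          ^ (1 / (2 : ℝ≥0∞).toReal - 1 / (2 : ℝ≥0∞).toReal)) atTop (𝓝 (0 * _)) :=
        ENNReal.Tendsto.mul_const k4 (Or.inr (by
          rw [sub_self, ENNReal.rpow_zero]; exact ENNReal.one_ne_top))
      rw [zero_mul] at h2
      have := (ENNReal.tendsto_toReal ENNReal.zero_ne_top).comp h2
      simpa [Function.comp_def] using this
    have h3 := ((h1.pow 2).const_mul (2 / ν * (Z + 1) ^ 2)).const_mul (stc C ν T (Z + 1))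
    simpa using h3
  have h4 : Tendsto (fun j => ‖v t - uu j t‖ ^ 2) atTop (𝓝 (‖v t - u' t‖ ^ 2)) :=
    ((tendsto_const_nhds.sub (k5 t ht)).norm).pow 2
  have h5 : ‖v t - u' t‖ ^ 2 ≤ 0 := le_of_tendsto_of_tendsto' h4 hlim hb
  have h6 : ‖v t - u' t‖ = 0 := by nlinarith [norm_nonneg (v t - u' t)]
  rw [huu']
  exact sub_eq_zero.mp (norm_eq_zero.mp h6)

/-- the parameter spaces of viscosities. -/
structure PX (ν T : ℝ) (p : ℝ≥0∞) (X : Type*) [MetricSpace X] (nX : X → ℝ → ℝ) : Prop where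
  nmem : ∀ x, MemLp (nX x) p (volume.restrict (Ioc 0 T))
  nlow : ∀ x, ∀ᵐ s ∂(volume.restrict (Ioc 0 T)), ν ≤ nX x s
  ndist : ∀ x y, eLpNorm (nX x - nX y) p (volume.restrict (Ioc 0 T)) ≤ ENNReal.ofReal (dist x y)
  nreal : ∀ x, ∀ n : ℝ → ℝ, MemLp n p (volume.restrict (Ioc 0 T)) →
    (∀ᵐ s ∂(volume.restrict (Ioc 0 T)), ν ≤ n s) → ∀ ε : ℝ, 0 < ε →
    eLpNorm (n - nX x) p (volume.restrict (Ioc 0 T)) ≤ ENNReal.ofReal ε →
    ∃ y, nX y =ᵐ[volume.restrict (Ioc 0 T)] n ∧ dist y x ≤ ε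

/-- the viscosities with a regular solution on `[0,T]`. -/
def RegSet (W : Submodule ℝ (H × K)) (m : H → K) (T : ℝ) {X : Type*} (nX : X → ℝ → ℝ)
    (F : ℝ → K) (x0 : H) : Set X := {x | ∃ u z, Reg W m T (nX x) F x0 u z}

theorem open_dense (Fr : Frame W m C) (Tb : TriB W m C3) {ι : Type*} {g : ι → H} {f : ι → K}
    {lam : ι → ℝ} (E : Eig W g f lam) (hν : 0 < ν) (hT : 0 < T)
    (hcomp : ∀ R : ℝ, TotallyBounded {v : H | ∃ z, (v, z) ∈ W ∧ ‖z‖ ≤ R})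
    {F F1 : ℝ → K} {x0 : H} {z0 : K} (h0 : (x0, z0) ∈ W)
    (hF1 : MemLp F1 2 (volume.restrict (Ioc 0 T)))
    (hF : ∀ a b, 0 ≤ a → a ≤ b → b ≤ T → F b - F a = ∫ s in a..b, F1 s)
    {g0 : H} {a : ℝ} (ha : ν ≤ a)
    (hc : ∀ p ∈ W, ⟪F 0 - a • z0 + m x0, p.2⟫_ℝ = ⟪g0, p.1⟫_ℝ)
    {p : ℝ≥0∞} (hp1 : 1 ≤ p) (hp5 : p ≤ 5) {X : Type*} [MetricSpace X] {nX : X → ℝ → ℝ}
    (P : PX ν T p X nX) : IsOpen (RegSet W m T nX F x0) ∧ Dense (RegSet W m T nX F x0) := by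
  have hfin := fin_m T
  constructor
  · rw [Metric.isOpen_iff]
    rintro x ⟨u, z, hR⟩
    obtain ⟨Z, hZ⟩ := hR.bdd
    have hZ0 : 0 ≤ Z := (norm_nonneg _).trans (hZ 0 ⟨le_rfl, hT.le⟩)
    obtain ⟨δ0, hδ0, hro⟩ := rough Fr Tb E hν hT hcomp h0 hF1 hF ha hc hZ0
    have hptop : p ≠ ⊤ := ne_top_of_le_ne_top (by norm_num) hp5
    set κ : ℝ≥0∞ := (volume.restrict (Ioc 0 T) : Measure ℝ) univ
      ^ (1 / (1 : ℝ≥0∞).toReal - 1 / p.toReal) with hκ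
    have hκtop : κ ≠ ⊤ := by
      rw [hκ]
      refine ENNReal.rpow_ne_top_of_nonneg ?_ (measure_ne_top _ _)
      have h1 : (1 : ℝ≥0∞).toReal ≤ p.toReal := ENNReal.toReal_mono hptop hp1
      have := one_div_le_one_div_of_le (by norm_num) h1
      linarith
    set κr : ℝ := κ.toReal with hκr
    have hκr0 : 0 ≤ κr := ENNReal.toReal_nonneg
    have hκe : κ = ENNReal.ofReal κr := (ENNReal.ofReal_toReal hκtop).symm
    refine ⟨δ0 / (κr + 1), by positivity, fun y hy => ?_⟩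
    rw [Metric.mem_ball] at hy
    have hm : AEStronglyMeasurable (nX y - nX x) (volume.restrict (Ioc 0 T)) :=
      ((P.nmem y).sub (P.nmem x)).aestronglyMeasurable
    have h1 : eLpNorm (nX y - nX x) 1 (volume.restrict (Ioc 0 T)) ≤ ENNReal.ofReal δ0 := by
      refine (eLpNorm_le_eLpNorm_mul_rpow_measure_univ hp1 hm).trans ?_
      rw [← hκ, hκe]
      calc eLpNorm (nX y - nX x) p (volume.restrict (Ioc 0 T)) * ENNReal.ofReal κr
          ≤ ENNReal.ofReal (dist y x) * ENNReal.ofReal κr := by gcongr; exact P.ndist y x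
        _ = ENNReal.ofReal (dist y x * κr) := (ENNReal.ofReal_mul dist_nonneg).symm
        _ ≤ ENNReal.ofReal δ0 := by
            refine ENNReal.ofReal_le_ofReal ?_
            calc dist y x * κr ≤ δ0 / (κr + 1) * κr := by gcongr
              _ ≤ δ0 / (κr + 1) * (κr + 1) := by gcongr; linarith
              _ = δ0 := by field_simp
    obtain ⟨u', z', nn, uu, uu1, zz, zz1, k1, _⟩ := hro (nX x) u z
      ⟨(P.nmem x).integrable hp1, P.nlow x⟩ hR hZ p hp1 hp5 (nX y) (P.nmem y) (P.nlow y)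
      (l1_of_eLpNorm (f := nX y - nX x) hT.le hδ0.le h1)
    exact ⟨u', z', k1⟩
  · intro x
    rw [Metric.mem_closure_iff]
    intro ε hε
    obtain ⟨nb, ub, ub1, zb, zb1, Z, S, hlow, hnear⟩ := strong_near Fr hν hT hcomp hF1 hF h0 ha hc
      hp1 hp5 (P.nmem x) (P.nlow x) (ε := ε / 2) (by positivity)
    obtain ⟨y, hy1, hy2⟩ := P.nreal x nb (mem_cont S.nc) (by
      filter_upwards [ae_restrict_mem measurableSet_Ioc] with s hs
      exact hlow s (Ioc_subset_Icc_self hs)) (ε / 2) (by positivity) hnear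
    refine ⟨y, ⟨ub, zb, (st_reg S).congr_n hy1.symm⟩, ?_⟩
    rw [dist_comm]
    linarith

/-- regular solutions on `[0,∞)` from regular solutions on bounded intervals. -/
theorem glue (Fr : Frame W m C) (Tb : TriB W m C3) {ι : Type*} {g : ι → H} {f : ι → K}
    {lam : ι → ℝ} (E : Eig W g f lam) (hν : 0 < ν)
    {F F1 : ℝ → K} {x0 : H} {z0 : K} (h0 : (x0, z0) ∈ W)
    (hF1 : ∀ T, 0 < T → MemLp F1 2 (volume.restrict (Ioc 0 T)))
    (hF : ∀ a b, 0 ≤ a → a ≤ b → F b - F a = ∫ s in a..b, F1 s)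
    {n : ℝ → ℝ} (hn : ∀ T, 0 < T → Vn ν T n)
    (hR : ∀ k : ℕ, ∃ u z, Reg W m ((k : ℝ) + 1) n F x0 u z) :
    ∃ u z, ∀ T, 0 < T → Reg W m T n F x0 u z := by
  choose uu zz hRk using hR
  have hag : ∀ k l : ℕ, k ≤ l → ∀ t ∈ Icc 0 ((k : ℝ) + 1), uu k t = uu l t ∧ zz k t = zz l t := by
    intro k l hkl t ht
    have hk : (0 : ℝ) < (k : ℝ) + 1 := by positivity
    have hkl' : (k : ℝ) + 1 ≤ (l : ℝ) + 1 := by
      have : (k : ℝ) ≤ l := Nat.cast_le.mpr hkl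
      linarith
    exact uniq Fr Tb E hν hk.le h0 (hF1 _ hk) (fun a b ha hab _ => hF a b ha hab) (hn _ hk)
      (hRk k) ((hRk l).mono hkl') ht
  let u : ℝ → H := fun t => uu ⌈t⌉₊ t
  let z : ℝ → K := fun t => zz ⌈t⌉₊ t
  have hloc : ∀ k : ℕ, ∀ t ∈ Icc 0 (k : ℝ), u t = uu k t ∧ z t = zz k t := by
    intro k t ht
    have h1 : ⌈t⌉₊ ≤ k := Nat.ceil_le.mpr ht.2
    have h2 : t ≤ (⌈t⌉₊ : ℝ) := Nat.le_ceil t
    exact hag _ _ h1 t ⟨ht.1, by linarith⟩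
  refine ⟨u, z, fun T hT => ?_⟩
  set k := ⌈T⌉₊ with hk
  have hTk : T ≤ (k : ℝ) := Nat.le_ceil T
  have hRT := (hRk k).mono (T' := T) (by linarith)
  have hE : ∀ t ∈ Icc 0 T, u t = uu k t ∧ z t = zz k t := fun t ht =>
    hloc k t ⟨ht.1, ht.2.trans hTk⟩
  have h0T : (0 : ℝ) ∈ Icc 0 T := ⟨le_rfl, hT.le⟩
  constructor
  · rw [(hE 0 h0T).1]; exact hRT.init
  · intro t ht
    rw [(hE t ht).1, (hE t ht).2]; exact hRT.mem t ht
  · exact hRT.zc.congr fun t ht => (hE t ht).2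
  · intro p hp t ht
    rw [(hE t ht).1, hRT.weak p hp t ht]
    refine intervalIntegral.integral_congr fun s hs => ?_
    rw [uIcc_of_le ht.1] at hs
    have hs' : s ∈ Icc 0 T := ⟨hs.1, hs.2.trans ht.2⟩
    show ⟪F s - n s • zz k s + m (uu k s), p.2⟫_ℝ = ⟪F s - n s • z s + m (u s), p.2⟫_ℝ
    rw [(hE s hs').1, (hE s hs').2]
  · intro t ht
    have e1 : ∫ s in (0 : ℝ)..t, n s * ‖z s‖ ^ 2 = ∫ s in (0 : ℝ)..t, n s * ‖zz k s‖ ^ 2 := by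
      refine intervalIntegral.integral_congr fun s hs => ?_
      rw [uIcc_of_le ht.1] at hs
      have hs' : s ∈ Icc 0 T := ⟨hs.1, hs.2.trans ht.2⟩
      show n s * ‖z s‖ ^ 2 = n s * ‖zz k s‖ ^ 2
      rw [(hE s hs').2]
    have e2 : ∫ s in (0 : ℝ)..t, ⟪F s, z s⟫_ℝ = ∫ s in (0 : ℝ)..t, ⟪F s, zz k s⟫_ℝ := by
      refine intervalIntegral.integral_congr fun s hs => ?_
      rw [uIcc_of_le ht.1] at hs
      have hs' : s ∈ Icc 0 T := ⟨hs.1, hs.2.trans ht.2⟩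
      show ⟪F s, z s⟫_ℝ = ⟪F s, zz k s⟫_ℝ
      rw [(hE s hs').2]
    rw [(hE t ht).1, e1, e2]
    exact hRT.energy t ht

theorem residual_global (Fr : Frame W m C) (Tb : TriB W m C3) {ι : Type*} {g : ι → H}
    {f : ι → K} {lam : ι → ℝ} (E : Eig W g f lam) (hν : 0 < ν)
    (hcomp : ∀ R : ℝ, TotallyBounded {v : H | ∃ z, (v, z) ∈ W ∧ ‖z‖ ≤ R})
    {F F1 : ℝ → K} {x0 : H} {z0 : K} (h0 : (x0, z0) ∈ W)
    (hF1 : ∀ T, 0 < T → MemLp F1 2 (volume.restrict (Ioc 0 T)))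
    (hF : ∀ a b, 0 ≤ a → a ≤ b → F b - F a = ∫ s in a..b, F1 s)
    {g0 : H} {a : ℝ} (ha : ν ≤ a)
    (hc : ∀ p ∈ W, ⟪F 0 - a • z0 + m x0, p.2⟫_ℝ = ⟪g0, p.1⟫_ℝ)
    {p : ℝ≥0∞} (hp1 : 1 ≤ p) (hp5 : p ≤ 5) {X : Type*} [MetricSpace X] [CompleteSpace X]
    {nX : X → ℝ → ℝ} (P : ∀ T, 0 < T → PX ν T p X nX) :
    {x : X | ∃ u z, ∀ T, 0 < T → Reg W m T (nX x) F x0 u z} ∈ residual X ∧
    Dense {x : X | ∃ u z, ∀ T, 0 < T → Reg W m T (nX x) F x0 u z} := by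
  have h1 : ∀ k : ℕ, RegSet W m ((k : ℝ) + 1) nX F x0 ∈ residual X := by
    intro k
    have hk : (0 : ℝ) < (k : ℝ) + 1 := by positivity
    obtain ⟨k1, k2⟩ := open_dense Fr Tb E hν hk hcomp h0 (hF1 _ hk)
      (fun a b ha hab _ => hF a b ha hab) ha hc hp1 hp5 (P _ hk)
    exact residual_of_dense_open k1 k2
  have h2 : (⋂ k : ℕ, RegSet W m ((k : ℝ) + 1) nX F x0) ∈ residual X :=
    countable_iInter_mem.mpr h1
  have h3 : {x : X | ∃ u z, ∀ T, 0 < T → Reg W m T (nX x) F x0 u z} ∈ residual X := by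
    refine mem_of_superset h2 fun x hx => ?_
    have hfin := fun T => fin_m T
    exact glue Fr Tb E hν h0 hF1 hF (fun T hT => ⟨((P T hT).nmem x).integrable hp1,
      (P T hT).nlow x⟩) fun k => mem_iInter.mp hx k
  exact ⟨h3, dense_of_mem_residual h3⟩

/-- for Lipschitz viscosities regular solutions are strong. -/
theorem lip_strong (Fr : Frame W m C) (Tb : TriB W m C3) {ι : Type*} {g : ι → H}
    {f : ι → K} {lam : ι → ℝ} (E : Eig W g f lam) (hν : 0 < ν) (hT : 0 < T)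
    (hcomp : ∀ R : ℝ, TotallyBounded {v : H | ∃ z, (v, z) ∈ W ∧ ‖z‖ ≤ R})
    {F F1 : ℝ → K} {x0 : H} {z0 : K} (h0 : (x0, z0) ∈ W)
    (hF1 : MemLp F1 2 (volume.restrict (Ioc 0 T)))
    (hF : ∀ a b, 0 ≤ a → a ≤ b → b ≤ T → F b - F a = ∫ s in a..b, F1 s)
    {n : ℝ → ℝ} {B : ℝ} (N : Base n ν T B)
    (hc : ∃ g0 : H, ∀ p ∈ W, ⟪F 0 - n 0 • z0 + m x0, p.2⟫_ℝ = ⟪g0, p.1⟫_ℝ)
    {u : ℝ → H} {z : ℝ → K} (hR : Reg W m T n F x0 u z) :
    ∃ (u1 : ℝ → H) (z1 : ℝ → K) (c1 : ℝ),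
      MemLp u1 2 (volume.restrict (Ioc 0 T)) ∧ MemLp z1 2 (volume.restrict (Ioc 0 T)) ∧
      (∀ a b, 0 ≤ a → a ≤ b → b ≤ T → u b - u a = ∫ s in a..b, u1 s) ∧
      (∀ a b, 0 ≤ a → a ≤ b → b ≤ T → z b - z a = ∫ s in a..b, z1 s) ∧
      ∀ᵐ s ∂(volume.restrict (Ioc 0 T)), (u1 s, z1 s) ∈ W ∧ ‖u1 s‖ ≤ c1 := by
  obtain ⟨Z, hZ⟩ := hR.bdd
  have hZ0 : 0 ≤ Z := (norm_nonneg _).trans (hZ 0 ⟨le_rfl, hT.le⟩)
  have hnv := base_vn N
  obtain ⟨δ0, hδ0, hb⟩ := boot Fr Tb E hν hT hcomp h0 hF1 hF hZ0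
  obtain ⟨v, v1, w, w1, c1, k1, k2, k3⟩ := hb n u z hnv hR hZ n B N hc (by simpa using hδ0.le)
  have hE : ∀ t ∈ Icc 0 T, u t = v t ∧ z t = w t := fun t ht =>
    uniq Fr Tb E hν hT.le h0 hF1 hF hnv hR k1 ht
  refine ⟨v1, w1, c1, k2.u1i, k2.z1i, ?_, ?_, ?_⟩
  · intro a b ha hab hb
    rw [(hE a ⟨ha, hab.trans hb⟩).1, (hE b ⟨ha.trans hab, hb⟩).1]
    exact k2.pu a b ha hab hb
  · intro a b ha hab hb
    rw [(hE a ⟨ha, hab.trans hb⟩).2, (hE b ⟨ha.trans hab, hb⟩).2]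
    exact k2.pz a b ha hab hb
  · filter_upwards [k2.mem1, k3] with s h1 h2 using ⟨h1, h2⟩

end H772R2.NSV
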