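import Mathlib
import Pool.Agent.H772R2.NSV.Gen

/-!
Strong solutions are regular solutions (energy equality); continuous dependence.
-/

set_option linter.unusedSectionVars false

open MeasureTheory Set Filter Topology Metric
open scoped InnerProductSpace NNReal ENNReal

namespace H772R2.NSV

open H772R2.NSR (Frame grad_unique prim_cont prim_shift ec ae_deriv_of_prim memLp_ii
  hasDerivAt_prim)
open H772R2.NSG (by_parts)

variable {H K : Type*} [NormedAddCommGroup H] [InnerProductSpace ℝ H] [CompleteSpace H]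
  [NormedAddCommGroup K] [InnerProductSpace ℝ K] [CompleteSpace K]

variable {W : Submodule ℝ (H × K)} {m : H → K} {C C3 : ℝ} {ν T : ℝ}

theorem reg_of_strong (Fr : Frame W m C) (hT : 0 < T) {n : ℝ → ℝ} {F : ℝ → K} {x0 : H}
    {u u1 : ℝ → H} {z z1 : ℝ → K} (hn : ContinuousOn n (Icc 0 T))
    (hF : ContinuousOn F (Icc 0 T)) (h0 : u 0 = x0) (hmem : ∀ t ∈ Icc 0 T, (u t, z t) ∈ W)
    (hu1 : MemLp u1 2 (volume.restrict (Ioc 0 T))) (hz1 : MemLp z1 2 (volume.restrict (Ioc 0 T)))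
    (hpu : ∀ a b, 0 ≤ a → a ≤ b → b ≤ T → u b - u a = ∫ s in a..b, u1 s)
    (hpz : ∀ a b, 0 ≤ a → a ≤ b → b ≤ T → z b - z a = ∫ s in a..b, z1 s)
    (hw : ∀ p ∈ W, ∀ t ∈ Icc 0 T, ⟪u t - x0, p.1⟫_ℝ
      = ∫ s in (0 : ℝ)..t, ⟪F s - n s • z s + m (u s), p.2⟫_ℝ) :
    Reg W m T n F x0 u z := by
  have hfin := fin_m T
  have hzc : ContinuousOn z (Icc 0 T) := prim_cont hz1 hpz
  have huc : ContinuousOn u (Icc 0 T) := prim_cont hu1 hpu
  obtain ⟨Z, hZ'⟩ := (isCompact_Icc.image_of_continuousOn hzc).isBounded.exists_norm_le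
  have hZ : ∀ t ∈ Icc 0 T, ‖z t‖ ≤ Z := fun t ht => hZ' _ ⟨t, ht, rfl⟩
  have hmc : ContinuousOn (fun s => m (u s)) (Icc 0 T) := by
    intro s hs
    rw [ContinuousWithinAt, tendsto_iff_norm_sub_tendsto_zero]
    have h1 : Tendsto (fun r => 2 * (1 + C) * Z * ‖z r - z s‖) (𝓝[Icc 0 T] s)
        (𝓝 (2 * (1 + C) * Z * 0)) :=
      (tendsto_iff_norm_sub_tendsto_zero.mp (hzc s hs)).const_mul _
    rw [mul_zero] at h1
    refine squeeze_zero' (Eventually.of_forall fun s => norm_nonneg _) ?_ h1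
    filter_upwards [self_mem_nhdsWithin] with r hr
    exact m_lipZ Fr (hmem r hr) (hmem s hs) (hZ r hr) (hZ s hs)
  have hgc : ContinuousOn (fun s => F s - n s • z s + m (u s)) (Icc 0 T) :=
    (hF.sub (hn.smul hzc)).add hmc
  have hne : ∀ᵐ s ∂(volume.restrict (Ioc 0 T)), s ≠ T := by
    refine ae_restrict_of_ae ?_
    simp [ae_iff, measure_singleton]
  have hdw : ∀ᵐ s ∂(volume.restrict (Ioc 0 T)), ⟪u1 s, u s⟫_ℝ
      = ⟪F s, z s⟫_ℝ - n s * ‖z s‖ ^ 2 := by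
    filter_upwards [ae_deriv_of_prim hT (memLp_ii hT.le hu1) hpu,
      ae_restrict_mem measurableSet_Ioc, hne] with s hd hs hsT
    have hs' : s ∈ Ioo 0 T := ⟨hs.1, lt_of_le_of_ne hs.2 hsT⟩
    have hp := hmem s (Ioc_subset_Icc_self hs)
    have h1 : HasDerivAt (fun t => ⟪u t, u s⟫_ℝ) ⟪u1 s, u s⟫_ℝ s := by
      have := hd.inner ℝ (hasDerivAt_const s (u s))
      simpa using this
    have h2 : HasDerivAt (fun t => ⟪x0, u s⟫_ℝ + ∫ r in (0 : ℝ)..t,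
        ⟪F r - n r • z r + m (u r), z s⟫_ℝ) ⟪F s - n s • z s + m (u s), z s⟫_ℝ s :=
      (hasDerivAt_prim (β := fun r => ⟪F r - n r • z r + m (u r), z s⟫_ℝ)
        (hgc.inner continuousOn_const) hs').const_add _
    have h3 : ⟪u1 s, u s⟫_ℝ = ⟪F s - n s • z s + m (u s), z s⟫_ℝ := by
      refine h1.unique (h2.congr_of_eventuallyEq ?_)
      filter_upwards [Icc_mem_nhds hs'.1 hs'.2] with t ht
      rw [← hw _ hp t ht, inner_sub_left]
      ring
    have h4 := Fr.ortho _ hp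
    simp only at h4
    rw [h3, inner_add_left, inner_sub_left, h4, real_inner_smul_left, real_inner_self_eq_norm_sq]
    ring
  refine ⟨h0, hmem, hzc, hw, ?_⟩
  intro t ht
  have hsub : (volume.restrict (Ioc 0 t) : Measure ℝ) ≤ volume.restrict (Ioc 0 T) :=
    Measure.restrict_mono (Ioc_subset_Ioc_right ht.2) le_rfl
  have hu1i : Integrable u1 (volume.restrict (Ioc 0 T)) := hu1.integrable (by norm_num)
  have hbp := by_parts (G := u1) (z1 := u1) (zb := u) hu1i hu1i hpu huc ht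
  have e1 : ∫ s in (0 : ℝ)..t, ⟪u1 s, u t⟫_ℝ = ⟪u t - x0, u t⟫_ℝ := by
    rw [← h0, hpu 0 t le_rfl ht.1 ht.2, intervalIntegral.integral_of_le ht.1,
      intervalIntegral.integral_of_le ht.1]
    have := integral_inner (𝕜 := ℝ) (hu1i.mono_measure hsub) (u t)
    rw [real_inner_comm, ← this]
    exact integral_congr_ae (Eventually.of_forall fun s => real_inner_comm _ _)
  have e2 : ∫ r in (0 : ℝ)..t, ⟪∫ s in (0 : ℝ)..r, u1 s, u1 r⟫_ℝ
      = (∫ r in (0 : ℝ)..t, ⟪u1 r, u r⟫_ℝ) - ⟪u t - x0, x0⟫_ℝ := by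
    have h1 : ∫ r in (0 : ℝ)..t, ⟪∫ s in (0 : ℝ)..r, u1 s, u1 r⟫_ℝ
        = ∫ r in (0 : ℝ)..t, (⟪u1 r, u r⟫_ℝ - ⟪u1 r, x0⟫_ℝ) := by
      refine intervalIntegral.integral_congr fun r hr => ?_
      rw [uIcc_of_le ht.1] at hr
      show ⟪∫ s in (0 : ℝ)..r, u1 s, u1 r⟫_ℝ = ⟪u1 r, u r⟫_ℝ - ⟪u1 r, x0⟫_ℝ
      rw [← hpu 0 r le_rfl hr.1 (hr.2.trans ht.2), h0, real_inner_comm, inner_sub_right]
    rw [h1, intervalIntegral.integral_sub]
    · congr 1
      rw [← h0, hpu 0 t le_rfl ht.1 ht.2, intervalIntegral.integral_of_le ht.1,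
        intervalIntegral.integral_of_le ht.1]
      have := integral_inner (𝕜 := ℝ) (hu1i.mono_measure hsub) (u 0)
      rw [real_inner_comm, ← this]
      exact integral_congr_ae (Eventually.of_forall fun s => real_inner_comm _ _)
    · rw [intervalIntegrable_iff_integrableOn_Ioc_of_le ht.1]
      obtain ⟨U, hU⟩ := (isCompact_Icc.image_of_continuousOn huc).isBounded.exists_norm_le
      refine ((hu1i.mono_measure hsub).norm.mul_const U).mono'
        ((hu1i.mono_measure hsub).aestronglyMeasurable.inner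
          ((huc.mono ((Ioc_subset_Ioc_right ht.2).trans
            Ioc_subset_Icc_self)).aestronglyMeasurable measurableSet_Ioc)) ?_
      filter_upwards [ae_restrict_mem measurableSet_Ioc] with s hs
      refine (norm_inner_le_norm _ _).trans ?_
      gcongr
      exact hU _ ⟨s, ⟨hs.1.le, hs.2.trans ht.2⟩, rfl⟩
    · rw [intervalIntegrable_iff_integrableOn_Ioc_of_le ht.1]
      exact (hu1i.mono_measure hsub).inner_const x0
  have e3 : ∫ r in (0 : ℝ)..t, ⟪u1 r, u r⟫_ℝ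
      = (∫ s in (0 : ℝ)..t, ⟪F s, z s⟫_ℝ) - ∫ s in (0 : ℝ)..t, n s * ‖z s‖ ^ 2 := by
    have hsubI : uIcc 0 t ⊆ Icc 0 T := by
      rw [uIcc_of_le ht.1]; exact Icc_subset_Icc_right ht.2
    rw [← intervalIntegral.integral_sub]
    · rw [intervalIntegral.integral_of_le ht.1, intervalIntegral.integral_of_le ht.1]
      refine integral_congr_ae ?_
      filter_upwards [ae_mono hsub hdw] with s hs using hs
    · exact ((hF.inner hzc).mono hsubI).intervalIntegrable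
    · exact ((hn.mul (hzc.norm.pow 2)).mono hsubI).intervalIntegrable
  rw [e1, e2, e3] at hbp
  rw [inner_sub_left, inner_sub_left, real_inner_self_eq_norm_sq, real_inner_self_eq_norm_sq,
    real_inner_comm (u t) x0] at hbp
  linarith

/-- continuous dependence of the regular solution on the viscosity. -/
theorem cont_dep (Fr : Frame W m C) (Tb : TriB W m C3) {ι : Type*} {g : ι → H} {f : ι → K}
    {lam : ι → ℝ} (E : Eig W g f lam) (hν : 0 < ν) (hT : 0 < T)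
    (hcomp : ∀ R : ℝ, TotallyBounded {v : H | ∃ z, (v, z) ∈ W ∧ ‖z‖ ≤ R})
    {F F1 : ℝ → K} {x0 : H} {z0 : K} (h0 : (x0, z0) ∈ W)
    (hF1 : MemLp F1 2 (volume.restrict (Ioc 0 T)))
    (hF : ∀ a b, 0 ≤ a → a ≤ b → b ≤ T → F b - F a = ∫ s in a..b, F1 s)
    {g0 : H} {a : ℝ} (ha : ν ≤ a)
    (hc : ∀ p ∈ W, ⟪F 0 - a • z0 + m x0, p.2⟫_ℝ = ⟪g0, p.1⟫_ℝ)
    {p : ℝ≥0∞} (hp1 : 1 ≤ p) (hp5 : p ≤ 5) {nb : ℝ → ℝ}
    (hnb : MemLp nb p (volume.restrict (Ioc 0 T)))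
    (hnbl : ∀ᵐ s ∂(volume.restrict (Ioc 0 T)), ν ≤ nb s) {ub : ℝ → H} {zb : ℝ → K}
    (hR : Reg W m T nb F x0 ub zb) {ω : ℝ} (hω : 0 < ω) :
    ∃ δ : ℝ, 0 < δ ∧ ∀ n : ℝ → ℝ, MemLp n p (volume.restrict (Ioc 0 T)) →
      (∀ᵐ s ∂(volume.restrict (Ioc 0 T)), ν ≤ n s) →
      ∫ s in (0 : ℝ)..T, |n s - nb s| ≤ δ →
      ∃ u z, Reg W m T n F x0 u z ∧ ∀ t ∈ Icc 0 T, ‖z t - zb t‖ ≤ ω := by
  have hfin := fin_m T
  obtain ⟨Z, hZ⟩ := hR.bdd
  have hZ0 : 0 ≤ Z := (norm_nonneg _).trans (hZ 0 ⟨le_rfl, hT.le⟩)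
  obtain ⟨δ1, hδ1, hro⟩ := rough Fr Tb E hν hT hcomp h0 hF1 hF ha hc hZ0
  obtain ⟨δ2, hδ2, hcs⟩ := comp_small Fr Tb E hν hT.le h0 hF1 hF (Z := Z + 1)
    (by positivity) hω
  have hnbv : Vn ν T nb := ⟨hnb.integrable hp1, hnbl⟩
  refine ⟨min δ1 δ2, lt_min hδ1 hδ2, fun n hn hnl hd => ?_⟩
  obtain ⟨u, z, nn, uu, uu1, zz, zz1, k1, k2, _⟩ := hro nb ub zb hnbv hR hZ p hp1 hp5 n hn hnl
    (hd.trans (min_le_left _ _))
  exact ⟨u, z, k1, hcs T ⟨hT.le, le_rfl⟩ n nb u ub z zb ⟨hn.integrable hp1, hnl⟩ hnbv k1 hR k2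
    (fun t ht => (hZ t ht).trans (by linarith)) (hd.trans (min_le_right _ _))⟩

end H772R2.NSV
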