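import Mathlib
import Pool.Agent.H772R2.NS.Space3

/-!
The trilinear bound `|∫ (u⊗u - v⊗v) : ∇φ| ≤ C ‖∇(u-v)‖ (‖∇u‖ + ‖∇v‖) (‖φ‖ ‖∇φ‖)^(1/2)`.
-/

set_option linter.unusedSectionVars false

open MeasureTheory Set Filter Topology
open scoped InnerProductSpace ENNReal ContDiff NNReal

namespace H772R2.NSV

open H772R2.NS

/-- the tensor product. -/
noncomputable def tns (c b : E3) : M3 := WithLp.toLp 2 fun p => c p.1 * b p.2

theorem tns_apply (c b : E3) (p : Fin 3 × Fin 3) : tns c b p = c p.1 * b p.2 := rfl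

theorem norm_tns (c b : E3) : ‖tns c b‖ = ‖c‖ * ‖b‖ := by
  have h : ‖tns c b‖ ^ 2 = (‖c‖ * ‖b‖) ^ 2 := by
    rw [norm_sq_M3, mul_pow, norm_sq_E3, norm_sq_E3, Finset.sum_mul_sum]
    simp only [tns_apply, mul_pow]
  exact (pow_left_inj₀ (norm_nonneg _) (by positivity) (by norm_num)).mp h

theorem tns_sub_right (c b b' : E3) : tns c (b - b') = tns c b - tns c b' := by
  ext p
  simp only [PiLp.sub_apply, tns_apply]
  ring

theorem continuous_tns {φ ψ : E3 → E3} (hφ : Continuous φ) (hψ : Continuous ψ) :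
    Continuous fun x => tns (φ x) (ψ x) := by
  unfold tns
  refine (PiLp.continuous_toLp 2 _).comp ?_
  refine continuous_pi (fun p => ?_)
  fun_prop

section ibp

variable {Ω : Set E3} {u v φ : E3 → E3}

theorem test_sub (hu : IsTest Ω u) (hv : IsTest Ω v) : IsTest Ω (u - v) := by
  have := hu.add (hv.smul (-1))
  have e : u - v = u + (-1 : ℝ) • v := by
    ext x i; simp [sub_eq_add_neg]
  rw [e]
  exact this

theorem jac_sub (hu : IsTest Ω u) (hv : IsTest Ω v) (x : E3) :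
    jac (u - v) x = jac u x - jac v x := by
  have e : u - v = u + (-1 : ℝ) • v := by
    ext x i; simp [sub_eq_add_neg]
  rw [e, jac_add hu.smooth (hv.smul (-1)).smooth, jac_smul]
  simp [sub_eq_add_neg]

theorem integrable_jac_tns {a b c : E3 → E3} (ha : IsTest Ω a) (hb : IsTest Ω b)
    (hc : IsTest Ω c) : Integrable (fun x => ⟪jac a x, tns (c x) (b x)⟫_ℝ) := by
  refine Continuous.integrable_of_hasCompactSupport ?_ ?_
  · exact (continuous_jac ha.smooth).inner (continuous_tns hc.smooth.continuous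
      hb.smooth.continuous)
  · refine (hasCompactSupport_jac ha.compact).mono (fun x hx h0 => hx ?_)
    show ⟪jac a x, tns (c x) (b x)⟫_ℝ = 0
    rw [h0, inner_zero_left]

theorem ibp_tens (hu : IsTest Ω u) (hφ : IsTest Ω φ) :
    ∫ x, ⟪tens (u x), jac φ x⟫_ℝ = - ∫ x, ⟪jac u x, tns (φ x) (u x)⟫_ℝ := by
  have hus : ∀ i, ContDiff ℝ ∞ (fun x => u x i) := fun i => contDiff_coord hu.smooth i
  have hφs : ∀ i, ContDiff ℝ ∞ (fun x => φ x i) := fun i => contDiff_coord hφ.smooth i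
  have hgs : ∀ i j, ContDiff ℝ ∞ (fun x => u x i * u x j) := fun i j => (hus i).mul (hus j)
  have hdc : ∀ {g : E3 → ℝ}, ContDiff ℝ ∞ g → ∀ j, Continuous (fun x => fderiv ℝ g x (ev j)) :=
    fun {g} hg j => (hg.continuous_fderiv (by simp)).clm_apply continuous_const
  have huc : ∀ i, HasCompactSupport (fun x => u x i) := fun i =>
    hasCompactSupport_coord hu.compact i
  have hφc : ∀ i, HasCompactSupport (fun x => φ x i) := fun i =>
    hasCompactSupport_coord hφ.compact i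
  have hgc : ∀ i j, HasCompactSupport (fun x => u x i * u x j) := fun i j => (huc i).mul_right
  have hdg : ∀ i j x, fderiv ℝ (fun x => u x i * u x j) x (ev j)
      = u x i * jac u x (j, j) + u x j * jac u x (i, j) := by
    intro i j x
    have h1 : DifferentiableAt ℝ (fun x => u x i) x := ((hus i).differentiable (by simp)) x
    have h2 : DifferentiableAt ℝ (fun x => u x j) x := ((hus j).differentiable (by simp)) x
    rw [fderiv_fun_mul h1 h2]
    simp only [ContinuousLinearMap.add_apply, ContinuousLinearMap.smul_apply, smul_eq_mul]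
    rw [fderiv_coord hu.smooth, fderiv_coord hu.smooth, jac_apply, jac_apply]
  have hibp : ∀ i j, ∫ x, (u x i * u x j) * fderiv ℝ (fun y => φ y i) x (ev j)
      = - ∫ x, fderiv ℝ (fun x => u x i * u x j) x (ev j) * φ x i := by
    intro i j
    apply integral_mul_fderiv_eq_neg_fderiv_mul_of_integrable
    · exact ((hdc (hgs i j) j).mul (hφs i).continuous).integrable_of_hasCompactSupport
        (hφc i).mul_left
    · exact ((hgs i j).continuous.mul (hdc (hφs i) j)).integrable_of_hasCompactSupport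
        (hgc i j).mul_right
    · exact ((hgs i j).continuous.mul (hφs i).continuous).integrable_of_hasCompactSupport
        (hφc i).mul_left
    · intro x _
      exact ((hgs i j).differentiable (by simp)) x
    · intro x _
      exact ((hφs i).differentiable (by simp)) x
  have hpt : ∀ x, ⟪tens (u x), jac φ x⟫_ℝ
      = ∑ i, ∑ j, (u x i * u x j) * fderiv ℝ (fun y => φ y i) x (ev j) := by
    intro x
    rw [inner_M3]
    refine Finset.sum_congr rfl (fun i _ => Finset.sum_congr rfl (fun j _ => ?_))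
    rw [tens_apply, jac_apply, fderiv_coord hφ.smooth]
  have hint1 : ∀ i j, Integrable (fun x => (u x i * u x j)
      * fderiv ℝ (fun y => φ y i) x (ev j)) := fun i j =>
    ((hgs i j).continuous.mul (hdc (hφs i) j)).integrable_of_hasCompactSupport
        (hgc i j).mul_right
  have hint2 : ∀ i j, Integrable (fun x => fderiv ℝ (fun x => u x i * u x j) x (ev j) * φ x i) :=
    fun i j => ((hdc (hgs i j) j).mul (hφs i).continuous).integrable_of_hasCompactSupport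
        (hφc i).mul_left
  simp_rw [hpt]
  rw [integral_finsetSum _ (fun i _ => integrable_finsetSum _ (fun j _ => hint1 i j))]
  have e1 : ∀ i, ∫ x, ∑ j, (u x i * u x j) * fderiv ℝ (fun y => φ y i) x (ev j)
      = - ∫ x, ∑ j, fderiv ℝ (fun x => u x i * u x j) x (ev j) * φ x i := by
    intro i
    rw [integral_finsetSum _ (fun j _ => hint1 i j), integral_finsetSum _ (fun j _ => hint2 i j),
      ← Finset.sum_neg_distrib]
    exact Finset.sum_congr rfl (fun j _ => hibp i j)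
  simp_rw [e1]
  rw [Finset.sum_neg_distrib, ← integral_finsetSum _
    (fun i _ => integrable_finsetSum _ (fun j _ => hint2 i j))]
  congr 1
  refine integral_congr_ae (Eventually.of_forall fun x => ?_)
  show ∑ i, ∑ j, fderiv ℝ (fun x => u x i * u x j) x (ev j) * φ x i
    = ⟪jac u x, tns (φ x) (u x)⟫_ℝ
  rw [inner_M3]
  have hz := hu.divfree x
  refine Finset.sum_congr rfl (fun i _ => ?_)
  have h1 : ∑ j, fderiv ℝ (fun x => u x i * u x j) x (ev j) * φ x i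
      = u x i * φ x i * (∑ j, jac u x (j, j)) + ∑ j, u x j * jac u x (i, j) * φ x i := by
    rw [Finset.mul_sum, ← Finset.sum_add_distrib]
    refine Finset.sum_congr rfl (fun j _ => ?_)
    rw [hdg]; ring
  rw [h1, hz, mul_zero, zero_add]
  refine Finset.sum_congr rfl (fun j _ => ?_)
  rw [tns_apply]; ring

theorem tri_identity (hu : IsTest Ω u) (hv : IsTest Ω v) (hφ : IsTest Ω φ) :
    (∫ x, ⟪tens (u x), jac φ x⟫_ℝ) - ∫ x, ⟪tens (v x), jac φ x⟫_ℝ
      = - ((∫ x, ⟪jac (u - v) x, tns (φ x) (u x)⟫_ℝ)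
        + ∫ x, ⟪jac v x, tns (φ x) ((u - v) x)⟫_ℝ) := by
  rw [ibp_tens hu hφ, ibp_tens hv hφ, ← integral_add (integrable_jac_tns (test_sub hu hv) hu hφ)
    (integrable_jac_tns hv (test_sub hu hv) hφ), neg_sub_neg, ← integral_sub
      (integrable_jac_tns hv hv hφ) (integrable_jac_tns hu hu hφ), ← integral_neg]
  refine integral_congr_ae (Eventually.of_forall fun x => ?_)
  show ⟪jac v x, tns (φ x) (v x)⟫_ℝ - ⟪jac u x, tns (φ x) (u x)⟫_ℝ
    = -(⟪jac (u - v) x, tns (φ x) (u x)⟫_ℝ + ⟪jac v x, tns (φ x) ((u - v) x)⟫_ℝ)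
  rw [jac_sub hu hv, Pi.sub_apply, tns_sub_right, inner_sub_left, inner_sub_right]
  ring

end ibp

section holder

variable {α : Type*} {mα : MeasurableSpace α} {μ : Measure α}

theorem eLpNorm_three_le (v : α → E3) (hv : AEStronglyMeasurable v μ) :
    (eLpNorm v 3 μ) ^ 2 ≤ eLpNorm v 2 μ * eLpNorm v 6 μ := by
  have hm : AEMeasurable (fun x => ‖v x‖ₑ) μ := hv.enorm
  have e3 : (eLpNorm v 3 μ) ^ 3 = ∫⁻ x, ‖v x‖ₑ ^ 3 ∂μ := by
    rw [eLpNorm_eq_lintegral_rpow_enorm_toReal (by norm_num) (by norm_num)]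
    rw [← ENNReal.rpow_natCast, ← ENNReal.rpow_mul]
    norm_num
  have e2 : eLpNorm v 2 μ = (∫⁻ x, ‖v x‖ₑ ^ (2 : ℝ) ∂μ) ^ ((1 : ℝ) / 2) := by
    rw [eLpNorm_eq_lintegral_rpow_enorm_toReal (by norm_num) (by norm_num)]
    norm_num
  have e4 : (eLpNorm v 4 μ) ^ 2 = (∫⁻ x, (‖v x‖ₑ ^ 2) ^ (2 : ℝ) ∂μ) ^ ((1 : ℝ) / 2) := by
    rw [eLpNorm_eq_lintegral_rpow_enorm_toReal (by norm_num) (by norm_num)]
    rw [← ENNReal.rpow_natCast, ← ENNReal.rpow_mul]
    norm_num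
    congr 1
    refine lintegral_congr (fun x => ?_)
    rw [← ENNReal.rpow_natCast (‖v x‖ₑ) 2, ← ENNReal.rpow_natCast, ← ENNReal.rpow_natCast,
      ← ENNReal.rpow_mul]
    norm_num
  have h1 : (eLpNorm v 3 μ) ^ 3 ≤ eLpNorm v 2 μ * (eLpNorm v 4 μ) ^ 2 := by
    rw [e3, e2, e4]
    have := ENNReal.lintegral_mul_le_Lp_mul_Lq μ Real.HolderConjugate.two_two hm (hm.pow_const 2)
    refine le_trans (le_of_eq ?_) this
    refine lintegral_congr (fun x => ?_)
    simp only [Pi.mul_apply]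
    ring
  have h2 := eLpNorm_four_le v hv
  have h3 : ((eLpNorm v 3 μ) ^ 2) ^ 3 ≤ (eLpNorm v 2 μ * eLpNorm v 6 μ) ^ 3 := by
    calc ((eLpNorm v 3 μ) ^ 2) ^ 3 = ((eLpNorm v 3 μ) ^ 3) ^ 2 := by ring
      _ ≤ (eLpNorm v 2 μ * (eLpNorm v 4 μ) ^ 2) ^ 2 := by gcongr
      _ = eLpNorm v 2 μ ^ 2 * (eLpNorm v 4 μ) ^ 4 := by ring
      _ ≤ eLpNorm v 2 μ ^ 2 * (eLpNorm v 2 μ * (eLpNorm v 6 μ) ^ 3) := by gcongr
      _ = (eLpNorm v 2 μ * eLpNorm v 6 μ) ^ 3 := by ring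
  exact (ENNReal.pow_right_strictMono (n := 3) (by norm_num)).le_iff_le.mp h3

theorem holder_tri (A : α → M3) (b c : α → E3) (hA : AEStronglyMeasurable A μ)
    (hb : AEStronglyMeasurable b μ) (hc : AEStronglyMeasurable c μ) :
    ‖∫ x, ⟪A x, tns (c x) (b x)⟫_ℝ ∂μ‖ₑ ≤ eLpNorm A 2 μ * (eLpNorm b 6 μ * eLpNorm c 3 μ) := by
  have h1 : ‖∫ x, ⟪A x, tns (c x) (b x)⟫_ℝ ∂μ‖ₑ
      ≤ eLpNorm (fun x => ⟪A x, tns (c x) (b x)⟫_ℝ) 1 μ := by
    rw [eLpNorm_one_eq_lintegral_enorm]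
    exact enorm_integral_le_lintegral_enorm _
  have h2 : eLpNorm (fun x => ⟪A x, tns (c x) (b x)⟫_ℝ) 1 μ
      ≤ eLpNorm (fun x => ‖A x‖ * (‖b x‖ * ‖c x‖)) 1 μ := by
    apply eLpNorm_mono_real
    intro x
    refine (norm_inner_le_norm _ _).trans ?_
    rw [norm_tns, mul_comm ‖c x‖]
  have hT1 : ENNReal.HolderTriple 2 2 1 := ⟨by
    rw [ENNReal.inv_two_add_inv_two, inv_one]⟩
  have hT2 : ENNReal.HolderTriple 6 3 2 := ⟨by
    have h6 : (6 : ℝ≥0∞) = 2 * 3 := by norm_num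
    have e : (6 : ℝ≥0∞)⁻¹ + 3⁻¹ = 2⁻¹ := by
      have a1 : (6 : ℝ≥0∞)⁻¹ = ENNReal.ofReal (1 / 6) := by
        rw [one_div, ENNReal.ofReal_inv_of_pos (by norm_num)]; simp
      have a2 : (3 : ℝ≥0∞)⁻¹ = ENNReal.ofReal (1 / 3) := by
        rw [one_div, ENNReal.ofReal_inv_of_pos (by norm_num)]; simp
      have a3 : (2 : ℝ≥0∞)⁻¹ = ENNReal.ofReal (1 / 2) := by
        rw [one_div, ENNReal.ofReal_inv_of_pos (by norm_num)]; simp
      rw [a1, a2, a3, ← ENNReal.ofReal_add (by norm_num) (by norm_num)]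
      norm_num
    exact e⟩
  have h3 := eLpNorm_le_eLpNorm_mul_eLpNorm'_of_norm (p := 2) (q := 2) (r := 1) hA.norm
    (hb.norm.mul hc.norm) (fun a b => a * b) 1 (Eventually.of_forall (fun x => by
      rw [norm_mul]; simp)) (μ := μ)
  have h4 := eLpNorm_le_eLpNorm_mul_eLpNorm'_of_norm (p := 6) (q := 3) (r := 2) hb.norm
    hc.norm (fun a b => a * b) 1 (Eventually.of_forall (fun x => by
      rw [norm_mul]; simp)) (μ := μ)
  rw [ENNReal.coe_one, one_mul] at h3 h4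
  rw [eLpNorm_norm] at h3
  rw [eLpNorm_norm, eLpNorm_norm] at h4
  refine h1.trans (h2.trans (h3.trans ?_))
  gcongr
  exact h4

end holder

section bound

variable {Ω : Set E3}

theorem test_six (hΩ : MeasurableSet Ω) {φ : E3 → E3} (h : IsTest Ω φ) :
    eLpNorm φ 6 (volume.restrict Ω) ≤ CS * eLpNorm (jac φ) 2 (volume.restrict Ω) := by
  calc eLpNorm φ 6 (volume.restrict Ω) ≤ eLpNorm φ 6 (volume : Measure E3) :=
        eLpNorm_mono_measure _ Measure.restrict_le_self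
    _ ≤ CS * eLpNorm (fderiv ℝ φ) 2 (volume : Measure E3) :=
        CS_spec φ (h.smooth.of_le (by simp)) h.compact
    _ ≤ CS * eLpNorm (jac φ) 2 (volume : Measure E3) := by
        gcongr
        exact eLpNorm_mono (fun x => norm_fderiv_le_jac x)
    _ = CS * eLpNorm (jac φ) 2 (volume.restrict Ω) := by
        rw [h.eLpNorm_jac_restrict hΩ]

theorem holder_test (hΩ : MeasurableSet Ω) {a b c : E3 → E3} (ha : IsTest Ω a) (hb : IsTest Ω b)
    (hc : IsTest Ω c) {p q r : L2V Ω × L2M Ω} (hp : p.2 =ᵐ[volume.restrict Ω] jac a)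
    (hq : q.2 =ᵐ[volume.restrict Ω] jac b) (hr1 : r.1 =ᵐ[volume.restrict Ω] c)
    (hr : r.2 =ᵐ[volume.restrict Ω] jac c) :
    |∫ x, ⟪jac a x, tns (c x) (b x)⟫_ℝ| ≤ ‖p.2‖ * ((CS : ℝ) * ‖q.2‖
      * Real.sqrt ((CS : ℝ) * (‖r.1‖ * ‖r.2‖))) := by
  have e0 : ∫ x, ⟪jac a x, tns (c x) (b x)⟫_ℝ = ∫ x in Ω, ⟪jac a x, tns (c x) (b x)⟫_ℝ := by
    symm
    apply setIntegral_eq_integral_of_forall_compl_eq_zero
    intro x hx
    have : jac a x = 0 := by
      apply image_eq_zero_of_notMem_tsupport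
      intro hcc
      exact hx (ha.supp (tsupport_jac_subset hcc))
    rw [this, inner_zero_left]
  have mA : AEStronglyMeasurable (jac a) (volume.restrict Ω) :=
    (continuous_jac ha.smooth).aestronglyMeasurable
  have mb : AEStronglyMeasurable b (volume.restrict Ω) := hb.smooth.continuous.aestronglyMeasurable
  have mc : AEStronglyMeasurable c (volume.restrict Ω) := hc.smooth.continuous.aestronglyMeasurable
  have h1 := holder_tri (jac a) b c mA mb mc
  have h2 := test_six hΩ hb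
  have h3 := eLpNorm_three_le (μ := volume.restrict Ω) c mc
  have h4 := test_six hΩ hc
  have eA : eLpNorm (jac a) 2 (volume.restrict Ω) = ‖p.2‖ₑ := by
    rw [Lp.enorm_def, eLpNorm_congr_ae hp]
  have eb : eLpNorm (jac b) 2 (volume.restrict Ω) = ‖q.2‖ₑ := by
    rw [Lp.enorm_def, eLpNorm_congr_ae hq]
  have ec : eLpNorm c 2 (volume.restrict Ω) = ‖r.1‖ₑ := by
    rw [Lp.enorm_def, eLpNorm_congr_ae hr1]
  have ec' : eLpNorm (jac c) 2 (volume.restrict Ω) = ‖r.2‖ₑ := by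
    rw [Lp.enorm_def, eLpNorm_congr_ae hr]
  rw [ec] at h3
  rw [ec'] at h4
  rw [eb] at h2
  rw [eA] at h1
  set n3 := eLpNorm c 3 (volume.restrict Ω) with hn3
  have h5 : n3 ^ 2 ≤ ‖r.1‖ₑ * (CS * ‖r.2‖ₑ) := h3.trans (by gcongr)
  have hn3top : n3 ≠ ⊤ := by
    intro htop
    rw [htop] at h5
    have : ‖r.1‖ₑ * (CS * ‖r.2‖ₑ) < ⊤ :=
      ENNReal.mul_lt_top enorm_lt_top (ENNReal.mul_lt_top (by simp) enorm_lt_top)
    rw [show (⊤ : ℝ≥0∞) ^ 2 = ⊤ by simp] at h5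
    exact absurd h5 (not_le.mpr this)
  have h6 : n3.toReal ^ 2 ≤ (CS : ℝ) * (‖r.1‖ * ‖r.2‖) := by
    have := ENNReal.toReal_mono (ENNReal.mul_lt_top enorm_lt_top
      (ENNReal.mul_lt_top (by simp) enorm_lt_top)).ne h5
    rw [ENNReal.toReal_pow, ENNReal.toReal_mul, ENNReal.toReal_mul, toReal_enorm,
      toReal_enorm, ENNReal.coe_toReal] at this
    linarith
  have h7 : n3.toReal ≤ Real.sqrt ((CS : ℝ) * (‖r.1‖ * ‖r.2‖)) := Real.le_sqrt_of_sq_le h6
  have h8 : ‖∫ x in Ω, ⟪jac a x, tns (c x) (b x)⟫_ℝ‖ₑ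
      ≤ ‖p.2‖ₑ * ((CS * ‖q.2‖ₑ) * n3) := h1.trans (by gcongr)
  have h9 := ENNReal.toReal_mono (ENNReal.mul_lt_top enorm_lt_top
      (ENNReal.mul_lt_top (ENNReal.mul_lt_top (by simp) enorm_lt_top)
        (lt_top_iff_ne_top.mpr hn3top))).ne h8
  rw [toReal_enorm, ENNReal.toReal_mul, ENNReal.toReal_mul, ENNReal.toReal_mul, toReal_enorm,
    toReal_enorm, ENNReal.coe_toReal] at h9
  rw [e0]
  refine h9.trans ?_
  gcongr

theorem tri_pre (hΩ : MeasurableSet Ω) {p q r : L2V Ω × L2M Ω} (hp : p ∈ preW Ω)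
    (hq : q ∈ preW Ω) (hr : r ∈ preW Ω) :
    |⟪tensL p.1 - tensL q.1, r.2⟫_ℝ| ≤ (CS : ℝ) * Real.sqrt CS * (‖p.2 - q.2‖ * (‖p.2‖ + ‖q.2‖)
      * Real.sqrt (‖r.1‖ * ‖r.2‖)) := by
  have hpW : p ∈ graphW Ω := Submodule.le_topologicalClosure _ hp
  have hqW : q ∈ graphW Ω := Submodule.le_topologicalClosure _ hq
  obtain ⟨u, u1, u2, u3⟩ := hp
  obtain ⟨v, v1, v2, v3⟩ := hq
  obtain ⟨φ, p1, p2, p3⟩ := hr
  have conv : ∀ {s : L2V Ω × L2M Ω} {w : E3 → E3}, s ∈ graphW Ω → IsTest Ω w →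
      s.1 =ᵐ[volume.restrict Ω] w →
      ⟪tensL s.1, r.2⟫_ℝ = ∫ x, ⟪tens (w x), jac φ x⟫_ℝ := by
    intro s w hs hw hsw
    have e1 : ⟪tensL s.1, r.2⟫_ℝ = ∫ x in Ω, ⟪tens (w x), jac φ x⟫_ℝ := by
      rw [L2.inner_def]
      apply integral_congr_ae
      filter_upwards [tensL_coe hΩ hs, hsw, p3] with x a b c
      rw [a, b, c]
    rw [e1]
    apply setIntegral_eq_integral_of_forall_compl_eq_zero
    intro x hx
    have : jac φ x = 0 := by
      apply image_eq_zero_of_notMem_tsupport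
      intro hcc
      exact hx (p1.supp (tsupport_jac_subset hcc))
    rw [this, inner_zero_right]
  rw [inner_sub_left, conv hpW u1 u2, conv hqW v1 v2, tri_identity u1 v1 p1, abs_neg]
  have hsub : (p - q).2 =ᵐ[volume.restrict Ω] jac (u - v) := by
    have e : (p - q).2 = p.2 - q.2 := rfl
    rw [e]
    filter_upwards [Lp.coeFn_sub p.2 q.2, u3, v3] with x a b c
    rw [a, Pi.sub_apply, b, c, jac_sub u1 v1]
  have b1 := holder_test hΩ (test_sub u1 v1) u1 p1 (p := p - q) (q := p) (r := r) hsub u3 p2 p3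
  have b2 := holder_test hΩ v1 (test_sub u1 v1) p1 (p := q) (q := p - q) (r := r) v3 hsub p2 p3
  have e2 : (p - q).2 = p.2 - q.2 := rfl
  rw [e2] at b1 b2
  rw [Real.sqrt_mul (NNReal.coe_nonneg _)] at b1 b2
  refine (abs_add_le _ _).trans ((add_le_add b1 b2).trans (le_of_eq ?_))
  ring

theorem tri_bound (hΩ : MeasurableSet Ω) {p q r : L2V Ω × L2M Ω} (hp : p ∈ graphW Ω)
    (hq : q ∈ graphW Ω) (hr : r ∈ graphW Ω) :
    |⟪tensL p.1 - tensL q.1, r.2⟫_ℝ| ≤ (CS : ℝ) * Real.sqrt CS * (‖p.2 - q.2‖ * (‖p.2‖ + ‖q.2‖)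
      * Real.sqrt (‖r.1‖ * ‖r.2‖)) := by
  have hcl : ∀ {s : L2V Ω × L2M Ω}, s ∈ graphW Ω → ∃ t : ℕ → L2V Ω × L2M Ω,
      (∀ n, t n ∈ preW Ω) ∧ Tendsto t atTop (𝓝 s) := by
    intro s hs
    have hs' : s ∈ closure (preW Ω : Set (L2V Ω × L2M Ω)) := by
      have := hs
      unfold graphW at this
      rwa [← SetLike.mem_coe, Submodule.topologicalClosure_coe] at this
    exact mem_closure_iff_seq_limit.mp hs'
  obtain ⟨P, hP, hPl⟩ := hcl hp
  obtain ⟨Q, hQ, hQl⟩ := hcl hq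
  obtain ⟨R, hR, hRl⟩ := hcl hr
  have ht : ∀ {s : L2V Ω × L2M Ω} {t : ℕ → L2V Ω × L2M Ω}, s ∈ graphW Ω → (∀ n, t n ∈ preW Ω) →
      Tendsto t atTop (𝓝 s) → Tendsto (fun n => tensL (t n).1) atTop (𝓝 (tensL s.1)) := by
    intro s t hs ht hl
    have h1 : Tendsto t atTop (𝓝[(graphW Ω : Set _)] s) :=
      tendsto_nhdsWithin_iff.mpr ⟨hl, Eventually.of_forall fun n =>
        Submodule.le_topologicalClosure _ (ht n)⟩
    exact (tensL_continuousOn hΩ s hs).tendsto.comp h1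
  have f1 := ht hp hP hPl
  have f2 := ht hq hQ hQl
  have P2 : Tendsto (fun n => (P n).2) atTop (𝓝 p.2) := (continuous_snd.tendsto p).comp hPl
  have Q2 : Tendsto (fun n => (Q n).2) atTop (𝓝 q.2) := (continuous_snd.tendsto q).comp hQl
  have R1 : Tendsto (fun n => (R n).1) atTop (𝓝 r.1) := (continuous_fst.tendsto r).comp hRl
  have R2 : Tendsto (fun n => (R n).2) atTop (𝓝 r.2) := (continuous_snd.tendsto r).comp hRl
  refine le_of_tendsto_of_tendsto' ((f1.sub f2).inner R2).abs ?_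
    (fun n => tri_pre hΩ (hP n) (hQ n) (hR n))
  exact (((P2.sub Q2).norm.mul (P2.norm.add Q2.norm)).mul
    (R1.norm.mul R2.norm).sqrt).const_mul _

end bound

end H772R2.NSV
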