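import Mathlib
import Pool.Agent.H772R2.NSV.PubV
import Pool.Agent.H772R2.NSV.Str
import Pool.Agent.H772R2.NSV.Tri
import Pool.Agent.H772R2.NSG.MainG
import Pool.Agent.H772R2.NSG.FinalH

/-!
Generic regularity in terms of the public definitions.
-/

set_option linter.unusedSectionVars false

open MeasureTheory Set Filter Topology Metric
open scoped InnerProductSpace NNReal ENNReal ContDiff

namespace H772R2.NSV

open H772R2.NS H772R2.NS.Pub H772R2.NSR
open H772R2.NSG (Coef lh_of_pub strong_near mem_cont LpT.memLp LpT.eLpNorm_sub LpT.exists_fn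
  LpT.dist_le complete_visc closed_visc)

variable {T ν : ℝ}

theorem exists_triB {Ω : Set E3} (hΩ : IsOpen Ω) : TriB (graphW Ω) tensL
    ((CS : ℝ) * Real.sqrt CS) where
  nonneg := by positivity
  bound := fun _ hp _ hq _ hr => tri_bound hΩ.measurableSet hp hq hr

theorem reg_of_mid {Ω : Set E3} (hΩ : IsOpen Ω) (hb : Bornology.IsBounded Ω) {n : ℝ → ℝ}
    {F : ℝ → L2M Ω} (hF : ContinuousOn F (Icc 0 T)) (hn : IntegrableOn n (Ioc 0 T)) {u0 : L2V Ω}
    {u : ℝ → L2V Ω} {G : ℝ → L2M Ω} (h0 : u 0 = u0) (hW : ∀ t ∈ Icc 0 T, (u t, G t) ∈ graphW Ω)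
    (hG : ContinuousOn G (Icc 0 T))
    (heq : ∀ φ : E3 → E3, NS.IsTest Ω φ → ∀ t ∈ Icc 0 T,
      (∫ x in (show Set R3 from Ω), ⟪L2.fn (Ω := Ω) (E := R3) (u t) x, (φ : R3 → R3) x⟫_ℝ)
        - (∫ x in (show Set R3 from Ω), ⟪L2.fn (Ω := Ω) (E := R3) u0 x, (φ : R3 → R3) x⟫_ℝ)
      = ∫ s in (0 : ℝ)..t, Pub.rhs (Ω := Ω) (n s) (u s) (G s) (F s) φ)
    (hen : ∀ t ∈ Icc 0 T, ‖u t‖ ^ 2 / 2 + ∫ s in (0 : ℝ)..t, n s * ‖G s‖ ^ 2
      = ‖u0‖ ^ 2 / 2 + ∫ s in (0 : ℝ)..t, ⟪F s, G s⟫_ℝ) :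
    Reg (graphW Ω) tensL T n F u0 u G := by
  obtain ⟨C, Fr⟩ := exists_frame hΩ hb
  have hmeas : MeasurableSet Ω := hΩ.measurableSet
  refine ⟨h0, hW, hG, ?_, hen⟩
  intro p hp t ht
  obtain ⟨Z, hZ'⟩ := (isCompact_Icc.image_of_continuousOn hG).isBounded.exists_norm_le
  have hZ : ∀ t ∈ Icc 0 T, ‖G t‖ ≤ Z := fun t ht => hZ' _ ⟨t, ht, rfl⟩
  have hmc : ContinuousOn (fun s => tensL (u s)) (Icc 0 T) := by
    intro s hs
    rw [ContinuousWithinAt, tendsto_iff_norm_sub_tendsto_zero]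
    have h1 : Tendsto (fun r => 2 * (1 + C) * Z * ‖G r - G s‖) (𝓝[Icc 0 T] s)
        (𝓝 (2 * (1 + C) * Z * 0)) :=
      (tendsto_iff_norm_sub_tendsto_zero.mp (hG s hs)).const_mul _
    rw [mul_zero] at h1
    refine squeeze_zero' (Eventually.of_forall fun s => norm_nonneg _) ?_ h1
    filter_upwards [self_mem_nhdsWithin] with r hr
    exact m_lipZ Fr (hW r hr) (hW s hs) (hZ r hr) (hZ s hs)
  have hsub : Ioc 0 t ⊆ Ioc 0 T := Ioc_subset_Ioc_right ht.2
  have i1 : IntegrableOn (fun s => n s • G s) (Ioc 0 t) := by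
    refine ((hn.mono_set hsub).norm.mul_const Z).mono'
      ((hn.mono_set hsub).aestronglyMeasurable.smul
        ((hG.mono (hsub.trans Ioc_subset_Icc_self)).aestronglyMeasurable measurableSet_Ioc)) ?_
    filter_upwards [ae_restrict_mem measurableSet_Ioc] with s hs
    rw [norm_smul]
    gcongr
    exact hZ s (Ioc_subset_Icc_self (hsub hs))
  have hGi : IntegrableOn (fun s => F s - n s • G s + tensL (u s)) (Ioc 0 t) :=
    ((((hF.mono (Icc_subset_Icc_right ht.2)).integrableOn_Icc).mono_set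
      Ioc_subset_Icc_self).sub i1).add
      (((hmc.mono (Icc_subset_Icc_right ht.2)).integrableOn_Icc).mono_set Ioc_subset_Icc_self)
  have hrw : ∀ q : L2V Ω × L2M Ω, ∫ s in (0 : ℝ)..t, ⟪F s - n s • G s + tensL (u s), q.2⟫_ℝ
      = ⟪q.2, ∫ s in Ioc 0 t, (F s - n s • G s + tensL (u s))⟫_ℝ := by
    intro q
    rw [intervalIntegral.integral_of_le ht.1, ← integral_inner hGi]
    exact integral_congr_ae (Eventually.of_forall fun s => real_inner_comm _ _)
  have hz := graphW_induction (fun q : L2V Ω × L2M Ω => ⟪u t - u0, q.1⟫_ℝ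
      - ⟪q.2, ∫ s in Ioc 0 t, (F s - n s • G s + tensL (u s))⟫_ℝ)
    (by fun_prop) (fun q hq => by
      obtain ⟨φ, k1, k2, k3⟩ := hq
      have h1 := heq φ k1 t ht
      have e1 := pub_inner (Ω := Ω) (u t) k2
      have e2 := pub_inner (Ω := Ω) u0 k2
      have e3 : ∫ s in (0 : ℝ)..t, Pub.rhs (Ω := Ω) (n s) (u s) (G s) (F s) φ
          = ∫ s in (0 : ℝ)..t, ⟪F s - n s • G s + tensL (u s), q.2⟫_ℝ := by
        refine intervalIntegral.integral_congr fun s hs => ?_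
        rw [uIcc_of_le ht.1] at hs
        exact pub_rhs hmeas (n s) (F s) (hW s ⟨hs.1, hs.2.trans ht.2⟩) k3
      have h2 : ⟪u t, q.1⟫_ℝ - ⟪u0, q.1⟫_ℝ
          = ∫ s in (0 : ℝ)..t, ⟪F s - n s • G s + tensL (u s), q.2⟫_ℝ := by
        rw [← e3, ← h1]
        exact (congrArg₂ (· - ·) e1 e2).symm
      show ⟪u t - u0, q.1⟫_ℝ - ⟪q.2, ∫ s in Ioc 0 t, (F s - n s • G s + tensL (u s))⟫_ℝ = 0
      rw [← hrw q, ← h2, inner_sub_left, sub_self]) hp
  rw [hrw]
  exact sub_eq_zero.mp hz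

theorem mid_of_reg {Ω : Set E3} (hΩ : IsOpen Ω) {n : ℝ → ℝ}
    {F : ℝ → L2M Ω} {u0 : L2V Ω} {u : ℝ → L2V Ω} {G : ℝ → L2M Ω}
    (h : Reg (graphW Ω) tensL T n F u0 u G) :
    ∀ φ : E3 → E3, NS.IsTest Ω φ → ∀ t ∈ Icc 0 T,
      (∫ x in (show Set R3 from Ω), ⟪L2.fn (Ω := Ω) (E := R3) (u t) x, (φ : R3 → R3) x⟫_ℝ)
        - (∫ x in (show Set R3 from Ω), ⟪L2.fn (Ω := Ω) (E := R3) u0 x, (φ : R3 → R3) x⟫_ℝ)
      = ∫ s in (0 : ℝ)..t, Pub.rhs (Ω := Ω) (n s) (u s) (G s) (F s) φ := by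
  intro φ hφ t ht
  have hmeas : MeasurableSet Ω := hΩ.measurableSet
  obtain ⟨p, hp, hp1, hp2⟩ := exists_pair (Ω := Ω) hφ
  have h1 := h.weak p hp t ht
  have e1 := pub_inner (Ω := Ω) (u t) hp1
  have e2 := pub_inner (Ω := Ω) u0 hp1
  have e3 : ∫ s in (0 : ℝ)..t, Pub.rhs (Ω := Ω) (n s) (u s) (G s) (F s) φ
      = ∫ s in (0 : ℝ)..t, ⟪F s - n s • G s + tensL (u s), p.2⟫_ℝ := by
    refine intervalIntegral.integral_congr fun s hs => ?_
    rw [uIcc_of_le ht.1] at hs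
    exact pub_rhs hmeas (n s) (F s) (h.mem s ⟨hs.1, hs.2.trans ht.2⟩) hp2
  refine (congrArg₂ (· - ·) e1 e2).trans ?_
  refine Eq.trans ?_ e3.symm
  rw [← h1, inner_sub_left]

theorem reg_of_pub {Ω : Set E3} (hΩ : IsOpen Ω) (hb : Bornology.IsBounded Ω) {n : ℝ → ℝ}
    {F : ℝ → L2M Ω} (hF : ContinuousOn F (Icc 0 T)) (hn : IntegrableOn n (Ioc 0 T)) {u0 : L2V Ω}
    {u : ℝ → L2V Ω} {G : ℝ → L2M Ω}
    (h : IsRegular (show Set R3 from Ω) T n F u0 u G) : Reg (graphW Ω) tensL T n F u0 u G :=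
  reg_of_mid hΩ hb hF hn h.init (fun t ht => mem_pub.mpr (h.grad t ht)) h.cont
    (fun φ hφ t ht => h.eqn φ ((isTest_iff φ).mpr hφ) t ht) h.energy

theorem pub_of_reg {Ω : Set E3} (hΩ : IsOpen Ω) {n : ℝ → ℝ}
    {F : ℝ → L2M Ω} {u0 : L2V Ω} {u : ℝ → L2V Ω} {G : ℝ → L2M Ω}
    (h : Reg (graphW Ω) tensL T n F u0 u G) : IsRegular (show Set R3 from Ω) T n F u0 u G where
  init := h.init
  grad t ht := mem_pub.mp (h.mem t ht)
  cont := h.zc
  eqn φ hφ t ht := mid_of_reg hΩ h φ ((isTest_iff φ).mp hφ) t ht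
  energy := h.energy

/-- the space of viscosities on `(0,T)`. -/
theorem px_visc {p : ℝ≥0∞} [Fact (1 ≤ p)] :
    PX ν T p (Pub.Visc ν T p) (fun n => n.fn) where
  nmem x := LpT.memLp x.1
  nlow x := x.2
  ndist x y := (LpT.eLpNorm_sub x.1 y.1).le
  nreal x n hn hlow ε hε h := by
    obtain ⟨f, hf⟩ := LpT.exists_fn hn
    refine ⟨⟨f, by filter_upwards [hf, hlow] with s h1 h2; rw [h1]; exact h2⟩, hf, ?_⟩
    refine LpT.dist_le (f := f) (g := x.1) hε ?_
    refine le_trans (le_of_eq ?_) h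
    exact eLpNorm_congr_ae (hf.sub (ae_eq_refl _))

section inf

variable {p : ℝ≥0∞} [Fact (1 ≤ p)]

theorem inf_memLp (f : LpInf p) : MemLp f.fn p (volume.restrict (Ioi 0)) :=
  Lp.memLp (show Lp ℝ p ((volume : Measure ℝ).restrict (Ioi 0)) from f)

theorem inf_eLpNorm_sub (f g : LpInf p) :
    eLpNorm (f.fn - g.fn) p (volume.restrict (Ioi 0)) = ENNReal.ofReal (dist f g) := by
  have h1 : dist f g = (eLpNorm (f.fn - g.fn) p (volume.restrict (Ioi 0))).toReal :=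
    Lp.dist_def (show Lp ℝ p ((volume : Measure ℝ).restrict (Ioi 0)) from f) g
  rw [h1, ENNReal.ofReal_toReal]
  exact ((inf_memLp f).sub (inf_memLp g)).eLpNorm_ne_top

theorem inf_exists_fn {g : ℝ → ℝ} (hg : MemLp g p (volume.restrict (Ioi 0))) :
    ∃ f : LpInf p, f.fn =ᵐ[volume.restrict (Ioi 0)] g :=
  ⟨hg.toLp g, hg.coeFn_toLp⟩

instance complete_incr : CompleteSpace (Incr p) := by
  have h : IsClosed {h : Lp ℝ p ((volume : Measure ℝ).restrict (Ioi 0)) |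
      ∀ᵐ t ∂(volume.restrict (Ioi 0)), 0 ≤ h t} := by
    have h1 : {h : Lp ℝ p ((volume : Measure ℝ).restrict (Ioi 0)) |
      ∀ᵐ t ∂(volume.restrict (Ioi 0)), 0 ≤ h t} = Set.Ici 0 := by
      ext n
      rw [Set.mem_Ici, ← Lp.coeFn_nonneg]
      rfl
    rw [h1]
    exact isClosed_Ici
  exact h.completeSpace_coe

theorem sub_Ioi (T : ℝ) : (volume.restrict (Ioc 0 T) : Measure ℝ) ≤ volume.restrict (Ioi 0) :=
  Measure.restrict_mono Ioc_subset_Ioi_self le_rfl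

theorem px_incr : PX ν T p (Incr p) (fun h t => ν + h.fn t) where
  nmem x := by
    have := fin_m T
    exact (memLp_const ν).add ((inf_memLp x.1).mono_measure (sub_Ioi T))
  nlow x := by
    filter_upwards [ae_mono (sub_Ioi T) x.2] with t ht
    have h1 : 0 ≤ x.1.fn t := ht
    show ν ≤ ν + x.1.fn t
    linarith
  ndist x y := by
    have e : ((fun t => ν + x.fn t) - fun t => ν + y.fn t) = x.1.fn - y.1.fn := by
      ext t
      show ν + x.1.fn t - (ν + y.1.fn t) = x.1.fn t - y.1.fn t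
      ring
    rw [e]
    refine (eLpNorm_mono_measure _ (sub_Ioi T)).trans ?_
    exact (inf_eLpNorm_sub x.1 y.1).le
  nreal x n hn hlow ε hε h := by
    classical
    have hfin := fin_m T
    set g : ℝ → ℝ := (Ioc 0 T).piecewise (fun t => n t - ν) x.1.fn with hg
    have hgx : g - x.1.fn = (Ioc 0 T).indicator (n - fun t => ν + x.fn t) := by
      ext t
      by_cases ht : t ∈ Ioc 0 T
      · rw [indicator_of_mem ht]
        simp only [hg, Pi.sub_apply, piecewise_eq_of_mem _ _ _ ht]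
        show n t - ν - x.1.fn t = n t - (ν + x.1.fn t)
        ring
      · rw [indicator_of_notMem ht]
        simp only [hg, Pi.sub_apply, piecewise_eq_of_notMem _ _ _ ht, sub_self]
    have hd : MemLp (g - x.1.fn) p (volume.restrict (Ioi 0)) := by
      rw [hgx, memLp_indicator_iff_restrict measurableSet_Ioc,
        Measure.restrict_restrict measurableSet_Ioc, inter_eq_left.mpr Ioc_subset_Ioi_self]
      exact hn.sub ((memLp_const ν).add ((inf_memLp x.1).mono_measure (sub_Ioi T)))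
    have hgm : MemLp g p (volume.restrict (Ioi 0)) := by
      have := hd.add (inf_memLp x.1)
      rwa [sub_add_cancel] at this
    obtain ⟨f, hf⟩ := inf_exists_fn hgm
    have hfn : f.fn =ᵐ[volume.restrict (Ioc 0 T)] fun t => n t - ν := by
      filter_upwards [ae_mono (sub_Ioi T) hf, ae_restrict_mem measurableSet_Ioc] with t h1 h2
      rw [h1]
      simp only [hg, piecewise_eq_of_mem _ _ _ h2]
    have hnn : ∀ᵐ t ∂(volume.restrict (Ioi 0)), 0 ≤ f.fn t := by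
      have hl : ∀ᵐ t ∂(volume : Measure ℝ), t ∈ Ioc 0 T → ν ≤ n t :=
        (ae_restrict_iff' measurableSet_Ioc).mp hlow
      filter_upwards [hf, x.2, ae_restrict_of_ae hl] with t h1 h2 h3
      rw [h1]
      by_cases ht : t ∈ Ioc 0 T
      · simp only [hg, piecewise_eq_of_mem _ _ _ ht]
        have := h3 ht
        linarith
      · simp only [hg, piecewise_eq_of_notMem _ _ _ ht]
        exact h2
    refine ⟨⟨f, hnn⟩, ?_, ?_⟩
    · filter_upwards [hfn] with t ht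
      show ν + f.fn t = n t
      rw [ht]; ring
    · have h1 := inf_eLpNorm_sub f x.1
      have h2 : eLpNorm (f.fn - x.1.fn) p (volume.restrict (Ioi 0)) ≤ ENNReal.ofReal ε := by
        rw [eLpNorm_congr_ae (hf.sub (ae_eq_refl _)), hgx, eLpNorm_indicator_eq_eLpNorm_restrict
          measurableSet_Ioc, Measure.restrict_restrict measurableSet_Ioc,
          inter_eq_left.mpr Ioc_subset_Ioi_self]
        exact h
      rw [h1] at h2
      exact (ENNReal.ofReal_le_ofReal_iff hε.le).mp h2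

end inf

end H772R2.NSV
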