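import Mathlib
import Pool.Agent.H772R2.NSV.MainV

/-!
Generic regularity in terms of the public definitions: the theorem.
-/

set_option linter.unusedSectionVars false

open MeasureTheory Set Filter Topology Metric
open scoped InnerProductSpace NNReal ENNReal ContDiff

namespace H772R2.NSV

open H772R2.NS H772R2.NS.Pub H772R2.NSR
open H772R2.NSG (Coef lh_of_pub mem_cont Base)

theorem compat_pub {Ω : Set E3} (hΩ : IsOpen Ω) {ν : ℝ} {u0 : L2V Ω} {z0 : L2M Ω}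
    (h0 : (u0, z0) ∈ graphW Ω) {F0 : L2M Ω} {g0 : L2V Ω}
    (hg0 : ∀ φ : E3 → E3, NS.IsTest Ω φ → Pub.rhs (Ω := Ω) ν u0 z0 F0 φ
        = ∫ x in (show Set R3 from Ω), ⟪L2.fn (Ω := Ω) (E := R3) g0 x, (φ : R3 → R3) x⟫_ℝ) :
    ∀ p ∈ graphW Ω, ⟪F0 - ν • z0 + tensL u0, p.2⟫_ℝ = ⟪g0, p.1⟫_ℝ := by
  refine compat_ext ?_
  rintro p ⟨φ, k1, k2, k3⟩
  rw [← pub_rhs hΩ.measurableSet ν F0 h0 k3, ← pub_inner (Ω := Ω) g0 k2]
  exact hg0 φ k1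

section mid

variable {Ω : Set E3} {ν : ℝ} {u0 : L2V Ω} {z0 : L2M Ω} {F F' : ℝ → L2M Ω} {g0 : L2V Ω}

theorem mid_open (hΩ : IsOpen Ω) (hb : Bornology.IsBounded Ω) (hν : 0 < ν)
    (h0 : (u0, z0) ∈ graphW Ω)
    (hc : ∀ p ∈ graphW Ω, ⟪F 0 - ν • z0 + tensL u0, p.2⟫_ℝ = ⟪g0, p.1⟫_ℝ) {T : ℝ} (hT : 0 < T)
    (hF1 : MemLp F' 2 (volume.restrict (Ioc 0 T)))
    (hF : ∀ a b, 0 ≤ a → a ≤ b → b ≤ T → F b - F a = ∫ s in a..b, F' s)
    {p : ℝ≥0∞} [Fact (1 ≤ p)] (hp5 : p ≤ 5) :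
    IsOpen {n : Pub.Visc ν T p | ∃ u G, IsRegular (show Set R3 from Ω) T n.fn F u0 u G} ∧
    Dense {n : Pub.Visc ν T p | ∃ u G, IsRegular (show Set R3 from Ω) T n.fn F u0 u G} := by
  obtain ⟨C, Fr⟩ := exists_frame hΩ hb
  obtain ⟨ι, g, f, lam, E⟩ := exists_eig Fr (rellich_W hΩ hb)
  have hp1 : (1 : ℝ≥0∞) ≤ p := Fact.out
  obtain ⟨k1, k2⟩ := open_dense Fr (exists_triB hΩ) E hν hT (rellich_W hΩ hb) h0 hF1 hF le_rfl hc
    hp1 hp5 (px_visc (ν := ν) (T := T) (p := p))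
  have hFc := prim_cont hF1 hF
  have hfin := fin_m T
  have e : {n : Pub.Visc ν T p | ∃ u G, IsRegular (show Set R3 from Ω) T n.fn F u0 u G}
      = RegSet (graphW Ω) tensL T (fun n : Pub.Visc ν T p => n.fn) F u0 := by
    ext n
    constructor
    · rintro ⟨u, G, h⟩
      exact ⟨u, G, reg_of_pub hΩ hb hFc ((px_visc.nmem n).integrable hp1) h⟩
    · rintro ⟨u, G, h⟩
      exact ⟨u, G, pub_of_reg hΩ h⟩
  rw [e]
  exact ⟨k1, k2⟩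

theorem mid_cont (hΩ : IsOpen Ω) (hb : Bornology.IsBounded Ω) (hν : 0 < ν)
    (h0 : (u0, z0) ∈ graphW Ω)
    (hc : ∀ p ∈ graphW Ω, ⟪F 0 - ν • z0 + tensL u0, p.2⟫_ℝ = ⟪g0, p.1⟫_ℝ) {T : ℝ} (hT : 0 < T)
    (hF1 : MemLp F' 2 (volume.restrict (Ioc 0 T)))
    (hF : ∀ a b, 0 ≤ a → a ≤ b → b ≤ T → F b - F a = ∫ s in a..b, F' s)
    {p : ℝ≥0∞} [Fact (1 ≤ p)] (hp5 : p ≤ 5) {n : Pub.Visc ν T p} {u : ℝ → L2V Ω}
    {G : ℝ → L2M Ω} (hR : IsRegular (show Set R3 from Ω) T n.fn F u0 u G) {ε : ℝ} (hε : 0 < ε) :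
    ∃ δ > 0, ∀ n' : Pub.Visc ν T p, dist n' n < δ → ∃ (u' : ℝ → L2V Ω) (G' : ℝ → L2M Ω),
      IsRegular (show Set R3 from Ω) T n'.fn F u0 u' G' ∧ ∀ t ∈ Icc 0 T, ‖G' t - G t‖ ≤ ε := by
  obtain ⟨C, Fr⟩ := exists_frame hΩ hb
  obtain ⟨ι, g, f, lam, E⟩ := exists_eig Fr (rellich_W hΩ hb)
  have hp1 : (1 : ℝ≥0∞) ≤ p := Fact.out
  have hFc := prim_cont hF1 hF
  have hfin := fin_m T
  have P := px_visc (ν := ν) (T := T) (p := p)
  have hR' := reg_of_pub hΩ hb hFc ((P.nmem n).integrable hp1) hR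
  obtain ⟨δ0, hδ0, hcd⟩ := cont_dep Fr (exists_triB hΩ) E hν hT (rellich_W hΩ hb) h0 hF1 hF le_rfl
    hc hp1 hp5 (P.nmem n) (P.nlow n) hR' hε
  have hptop : p ≠ ⊤ := ne_top_of_le_ne_top (by norm_num) hp5
  set κ : ℝ≥0∞ := (volume.restrict (Ioc 0 T) : Measure ℝ) univ
    ^ (1 / (1 : ℝ≥0∞).toReal - 1 / p.toReal) with hκ
  have hκtop : κ ≠ ⊤ := by
    rw [hκ]
    refine ENNReal.rpow_ne_top_of_nonneg ?_ (measure_ne_top _ _)
    have h1 : (1 : ℝ≥0∞).toReal ≤ p.toReal := ENNReal.toReal_mono hptop hp1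
    have := one_div_le_one_div_of_le (by norm_num) h1
    linarith
  set κr : ℝ := κ.toReal with hκr
  have hκr0 : 0 ≤ κr := ENNReal.toReal_nonneg
  have hκe : κ = ENNReal.ofReal κr := (ENNReal.ofReal_toReal hκtop).symm
  refine ⟨δ0 / (κr + 1), by positivity, fun y hy => ?_⟩
  have hm : AEStronglyMeasurable (y.fn - n.fn) (volume.restrict (Ioc 0 T)) :=
    ((P.nmem y).sub (P.nmem n)).aestronglyMeasurable
  have h1 : eLpNorm (y.fn - n.fn) 1 (volume.restrict (Ioc 0 T)) ≤ ENNReal.ofReal δ0 := by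
    refine (eLpNorm_le_eLpNorm_mul_rpow_measure_univ hp1 hm).trans ?_
    rw [← hκ, hκe]
    calc eLpNorm (y.fn - n.fn) p (volume.restrict (Ioc 0 T)) * ENNReal.ofReal κr
        ≤ ENNReal.ofReal (dist y n) * ENNReal.ofReal κr := by gcongr; exact P.ndist y n
      _ = ENNReal.ofReal (dist y n * κr) := (ENNReal.ofReal_mul dist_nonneg).symm
      _ ≤ ENNReal.ofReal δ0 := by
          refine ENNReal.ofReal_le_ofReal ?_
          calc dist y n * κr ≤ δ0 / (κr + 1) * κr := by gcongr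
            _ ≤ δ0 / (κr + 1) * (κr + 1) := by gcongr; linarith
            _ = δ0 := by field_simp
  obtain ⟨u', z', k1, k2⟩ := hcd y.fn (P.nmem y) (P.nlow y)
    (l1_of_eLpNorm (f := y.fn - n.fn) hT.le hδ0.le h1)
  exact ⟨u', z', pub_of_reg hΩ k1, k2⟩

theorem mid_glob (hΩ : IsOpen Ω) (hb : Bornology.IsBounded Ω) (hν : 0 < ν)
    (h0 : (u0, z0) ∈ graphW Ω)
    (hc : ∀ p ∈ graphW Ω, ⟪F 0 - ν • z0 + tensL u0, p.2⟫_ℝ = ⟪g0, p.1⟫_ℝ)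
    (hF1 : ∀ T, 0 < T → MemLp F' 2 (volume.restrict (Ioc 0 T)))
    (hF : ∀ a b, 0 ≤ a → a ≤ b → F b - F a = ∫ s in a..b, F' s)
    {p : ℝ≥0∞} [Fact (1 ≤ p)] (hp5 : p ≤ 5) :
    {h : Incr p | ∃ u G, ∀ T, 0 < T →
      IsRegular (show Set R3 from Ω) T (fun t => ν + h.fn t) F u0 u G} ∈ residual (Incr p) ∧
    Dense {h : Incr p | ∃ u G, ∀ T, 0 < T →
      IsRegular (show Set R3 from Ω) T (fun t => ν + h.fn t) F u0 u G} := by
  obtain ⟨C, Fr⟩ := exists_frame hΩ hb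
  obtain ⟨ι, g, f, lam, E⟩ := exists_eig Fr (rellich_W hΩ hb)
  have hp1 : (1 : ℝ≥0∞) ≤ p := Fact.out
  obtain ⟨k1, k2⟩ := residual_global Fr (exists_triB hΩ) E hν (rellich_W hΩ hb) h0 hF1 hF le_rfl hc
    hp1 hp5 (X := Incr p) (nX := fun h t => ν + h.fn t) (fun T _ => px_incr)
  have hsub : {x : Incr p | ∃ u z, ∀ T, 0 < T → Reg (graphW Ω) tensL T (fun t => ν + x.fn t) F u0
      u z} ⊆ {h : Incr p | ∃ u G, ∀ T, 0 < T →
      IsRegular (show Set R3 from Ω) T (fun t => ν + h.fn t) F u0 u G} := by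
    rintro x ⟨u, z, h⟩
    exact ⟨u, z, fun T hT => pub_of_reg hΩ (h T hT)⟩
  exact ⟨mem_of_superset k1 hsub, k2.mono hsub⟩

theorem mid_lh (hΩ : IsOpen Ω) (hb : Bornology.IsBounded Ω) (hν : 0 < ν)
    (h0 : (u0, z0) ∈ graphW Ω)
    (hc : ∀ p ∈ graphW Ω, ⟪F 0 - ν • z0 + tensL u0, p.2⟫_ℝ = ⟪g0, p.1⟫_ℝ) {T : ℝ} (hT : 0 < T)
    (hF1 : MemLp F' 2 (volume.restrict (Ioc 0 T)))
    (hF : ∀ a b, 0 ≤ a → a ≤ b → b ≤ T → F b - F a = ∫ s in a..b, F' s)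
    {n : ℝ → ℝ} (hn : MemLp n 2 (volume.restrict (Ioc 0 T)))
    (hlow : ∀ᵐ t ∂(volume.restrict (Ioc 0 T)), ν ≤ n t) {u v : ℝ → L2V Ω} {G G' : ℝ → L2M Ω}
    (hR : IsRegular (show Set R3 from Ω) T n F u0 u G)
    (hL : IsLH (show Set R3 from Ω) T n F u0 v G') : ∀ t ∈ Icc 0 T, v t = u t := by
  obtain ⟨C, Fr⟩ := exists_frame hΩ hb
  obtain ⟨ι, g, f, lam, E⟩ := exists_eig Fr (rellich_W hΩ hb)
  have hFc := prim_cont hF1 hF
  have hfin := fin_m T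
  have hR' := reg_of_pub hΩ hb hFc (hn.integrable (by norm_num)) hR
  have hL' := lh_of_pub hΩ hb (⟨hn, hlow, mem_cont hFc⟩ : Coef ν T n F) hL
  exact lh_eq Fr (exists_triB hΩ) E hν hT (rellich_W hΩ hb) h0 hF1 hF le_rfl hc hn hlow hR' hL'

theorem mid_strong (hΩ : IsOpen Ω) (hb : Bornology.IsBounded Ω) (hν : 0 < ν)
    (h0 : (u0, z0) ∈ graphW Ω)
    (hc : ∀ p ∈ graphW Ω, ⟪F 0 - ν • z0 + tensL u0, p.2⟫_ℝ = ⟪g0, p.1⟫_ℝ) {T : ℝ} (hT : 0 < T)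
    (hF1 : MemLp F' 2 (volume.restrict (Ioc 0 T)))
    (hF : ∀ a b, 0 ≤ a → a ≤ b → b ≤ T → F b - F a = ∫ s in a..b, F' s) :
    (∃ u G, IsRegular (show Set R3 from Ω) T (fun _ => ν) F u0 u G) ↔
      ∃ (u u' : ℝ → L2V Ω) (G G' : ℝ → L2M Ω), u 0 = u0 ∧
        IsStrong (show Set R3 from Ω) ν T F u u' G G' := by
  obtain ⟨C, Fr⟩ := exists_frame hΩ hb
  obtain ⟨ι, g, f, lam, E⟩ := exists_eig Fr (rellich_W hΩ hb)
  have hFc := prim_cont hF1 hF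
  have hfin := fin_m T
  have hnc : IntegrableOn (fun _ : ℝ => ν) (Ioc 0 T) := integrable_const ν
  constructor
  · rintro ⟨u, G, h⟩
    have hR := reg_of_pub hΩ hb hFc hnc h
    obtain ⟨u1, z1, c1, k1, k2, k3, k4, k5⟩ := lip_strong Fr (exists_triB hΩ) E hν hT
      (rellich_W hΩ hb) h0 hF1 hF (n := fun _ => ν) (B := 0)
      ⟨le_rfl, fun _ _ => le_rfl, fun _ _ _ _ => by simp⟩ ⟨g0, hc⟩ hR
    refine ⟨u, u1, G, z1, h.init, h.grad, ?_, ⟨k1, k3⟩, ⟨k2, k4⟩, ⟨c1, ?_⟩, ?_⟩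
    · filter_upwards [k5] with t ht
      exact mem_pub.mp ht.1
    · filter_upwards [k5] with t ht using ht.2
    · intro φ hφ t ht
      rw [h.init]
      exact h.eqn φ hφ t ht
  · rintro ⟨u, u', G, G', hu0, h⟩
    have hGc : ContinuousOn G (Icc 0 T) := prim_cont h.hG.memLp h.hG.prim
    -- the weak formulation
    have hmem : ∀ t ∈ Icc 0 T, (u t, G t) ∈ graphW Ω := fun t ht => mem_pub.mpr (h.grad t ht)
    have hw : ∀ p ∈ graphW Ω, ∀ t ∈ Icc 0 T, ⟪u t - u0, p.1⟫_ℝ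
        = ∫ s in (0 : ℝ)..t, ⟪F s - ν • G s + tensL (u s), p.2⟫_ℝ := by
      intro p hp t ht
      have hmeas : MeasurableSet Ω := hΩ.measurableSet
      obtain ⟨Z, hZ'⟩ := (isCompact_Icc.image_of_continuousOn hGc).isBounded.exists_norm_le
      have hZ : ∀ t ∈ Icc 0 T, ‖G t‖ ≤ Z := fun t ht => hZ' _ ⟨t, ht, rfl⟩
      have hmc : ContinuousOn (fun s => tensL (u s)) (Icc 0 T) := by
        intro s hs
        rw [ContinuousWithinAt, tendsto_iff_norm_sub_tendsto_zero]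
        have h1 : Tendsto (fun r => 2 * (1 + C) * Z * ‖G r - G s‖) (𝓝[Icc 0 T] s)
            (𝓝 (2 * (1 + C) * Z * 0)) :=
          (tendsto_iff_norm_sub_tendsto_zero.mp (hGc s hs)).const_mul _
        rw [mul_zero] at h1
        refine squeeze_zero' (Eventually.of_forall fun s => norm_nonneg _) ?_ h1
        filter_upwards [self_mem_nhdsWithin] with r hr
        exact m_lipZ Fr (hmem r hr) (hmem s hs) (hZ r hr) (hZ s hs)
      have hGi : IntegrableOn (fun s => F s - ν • G s + tensL (u s)) (Ioc 0 t) :=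
        ((((hFc.sub (hGc.const_smul ν)).add hmc).mono
          (Icc_subset_Icc_right ht.2)).integrableOn_Icc).mono_set Ioc_subset_Icc_self
      have hrw : ∀ q : L2V Ω × L2M Ω, ∫ s in (0 : ℝ)..t, ⟪F s - ν • G s + tensL (u s), q.2⟫_ℝ
          = ⟪q.2, ∫ s in Ioc 0 t, (F s - ν • G s + tensL (u s))⟫_ℝ := by
        intro q
        rw [intervalIntegral.integral_of_le ht.1, ← integral_inner hGi]
        exact integral_congr_ae (Eventually.of_forall fun s => real_inner_comm _ _)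
      have hz := graphW_induction (fun q : L2V Ω × L2M Ω => ⟪u t - u0, q.1⟫_ℝ
          - ⟪q.2, ∫ s in Ioc 0 t, (F s - ν • G s + tensL (u s))⟫_ℝ)
        (by fun_prop) (fun q hq => by
          obtain ⟨φ, k1, k2, k3⟩ := hq
          have h1 := h.eqn φ ((isTest_iff φ).mpr k1) t ht
          rw [hu0] at h1
          have e1 := pub_inner (Ω := Ω) (u t) k2
          have e2 := pub_inner (Ω := Ω) u0 k2
          have e3 : ∫ s in (0 : ℝ)..t, Pub.rhs (Ω := Ω) ν (u s) (G s) (F s) φ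
              = ∫ s in (0 : ℝ)..t, ⟪F s - ν • G s + tensL (u s), q.2⟫_ℝ := by
            refine intervalIntegral.integral_congr fun s hs => ?_
            rw [uIcc_of_le ht.1] at hs
            exact pub_rhs hmeas ν (F s) (hmem s ⟨hs.1, hs.2.trans ht.2⟩) k3
          have h2 : ⟪u t, q.1⟫_ℝ - ⟪u0, q.1⟫_ℝ
              = ∫ s in (0 : ℝ)..t, ⟪F s - ν • G s + tensL (u s), q.2⟫_ℝ := by
            refine Eq.trans ?_ e3
            refine Eq.trans ?_ h1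
            exact (congrArg₂ (· - ·) e1 e2).symm
          show ⟪u t - u0, q.1⟫_ℝ - ⟪q.2, ∫ s in Ioc 0 t, (F s - ν • G s + tensL (u s))⟫_ℝ = 0
          rw [← hrw q, ← h2, inner_sub_left, sub_self]) hp
      rw [hrw]
      exact sub_eq_zero.mp hz
    exact ⟨u, G, pub_of_reg hΩ (reg_of_strong Fr hT continuousOn_const hFc hu0 hmem h.hu.memLp
      h.hG.memLp h.hu.prim h.hG.prim hw)⟩

end mid

theorem generic_reg_pub {Ω : Set R3} (hΩ : IsOpen Ω) (hb : Bornology.IsBounded Ω) {ν : ℝ}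
    (hν : 0 < ν) {u0 : L2 Ω R3} {z0 : L2 Ω Mat} (h0 : (u0, z0) ∈ Pub.H1graph Ω)
    {F F' : ℝ → L2 Ω Mat} (hF : ∀ T, 0 < T → IsH1 T F F')
    (hc : ∃ h : L2 Ω R3, ∀ φ, Pub.IsTest Ω φ →
      Pub.rhs ν u0 z0 (F 0) φ = ∫ x in Ω, ⟪h.fn x, φ x⟫_ℝ) :
    (∀ {T : ℝ}, 0 < T → ∀ {p : ℝ≥0∞} [Fact (1 ≤ p)], p ≤ 5 →
      IsOpen {n : Pub.Visc ν T p | ∃ u G, IsRegular Ω T n.fn F u0 u G} ∧
      Dense {n : Pub.Visc ν T p | ∃ u G, IsRegular Ω T n.fn F u0 u G} ∧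
      ∀ (n : Pub.Visc ν T p) u G, IsRegular Ω T n.fn F u0 u G → ∀ ε > 0, ∃ δ > 0,
        ∀ n' : Pub.Visc ν T p, dist n' n < δ → ∃ u' G', IsRegular Ω T n'.fn F u0 u' G' ∧
          ∀ t ∈ Icc 0 T, ‖G' t - G t‖ ≤ ε) ∧
    (∀ {p : ℝ≥0∞} [Fact (1 ≤ p)], p ≤ 5 →
      {h : Incr p | ∃ u G, ∀ T, 0 < T → IsRegular Ω T (fun t => ν + h.fn t) F u0 u G}
        ∈ residual (Incr p) ∧
      Dense {h : Incr p | ∃ u G, ∀ T, 0 < T → IsRegular Ω T (fun t => ν + h.fn t) F u0 u G}) ∧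
    (∀ {T : ℝ}, 0 < T → ∀ {n : ℝ → ℝ}, MemLp n 2 (volume.restrict (Ioc 0 T)) →
      (∀ᵐ t ∂(volume.restrict (Ioc 0 T)), ν ≤ n t) → ∀ {u v : ℝ → L2 Ω R3}
      {G H : ℝ → L2 Ω Mat}, IsRegular Ω T n F u0 u G → IsLH Ω T n F u0 v H →
        ∀ t ∈ Icc 0 T, v t = u t) ∧
    ∀ {T : ℝ}, 0 < T → ((∃ u G, IsRegular Ω T (fun _ => ν) F u0 u G) ↔
      ∃ u u' G G', u 0 = u0 ∧ IsStrong Ω ν T F u u' G G') := by
  obtain ⟨g0, hg0⟩ := hc
  have h0' := mem_pub.mpr h0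
  have hc' := compat_pub (Ω := (Ω : Set E3)) hΩ h0' (fun φ hφ => hg0 φ ((isTest_iff φ).mpr hφ))
  refine ⟨?_, ?_, ?_, ?_⟩
  · intro T hT p _ hp5
    obtain ⟨k1, k2⟩ := mid_open (Ω := (Ω : Set E3)) hΩ hb hν h0' hc' hT (hF T hT).memLp
      (hF T hT).prim (p := p) hp5
    exact ⟨k1, k2, fun n u G hR ε hε => mid_cont (Ω := (Ω : Set E3)) hΩ hb hν h0' hc' hT
      (hF T hT).memLp (hF T hT).prim hp5 hR hε⟩
  · intro p _ hp5
    exact mid_glob (Ω := (Ω : Set E3)) hΩ hb hν h0' hc' (fun T hT => (hF T hT).memLp)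
      (fun a b ha hab => (hF (b + 1) (by linarith)).prim a b ha hab (by linarith)) hp5
  · intro T hT n hn hlow u v G H hR hL
    exact mid_lh (Ω := (Ω : Set E3)) hΩ hb hν h0' hc' hT (hF T hT).memLp (hF T hT).prim hn hlow
      hR hL
  · intro T hT
    exact mid_strong (Ω := (Ω : Set E3)) hΩ hb hν h0' hc' hT (hF T hT).memLp (hF T hT).prim

end H772R2.NSV
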